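import Mathlib

/-! # Forms and linear substitutions

`exists_subst`: `e F = aeval (fun i => ∑ j, (g (Pi.single j 1)) i • X j) F`.

`eq_zero_on`: a submodule `M` is the image of a linear map `g : ℂ^m → ℂ^n`; by `exists_subst` and
`MvPolynomial.funext` the product of two polynomials which vanishes on `M` has a factor which vanishes
on `M` (`MvPolynomial (Fin m) ℂ` is a domain).

`bin_form`: choose `u = (1, r)` not proportional to any `w s`; the polynomial `t ↦ Φ(t, 1 + r t)` of degree `≤ l`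
has the `l` roots `w s 0 / (w s 1 - r w s 0)`.

`dvd_of_vanish`: substitute `X i - ℓ / c i` for `X i`. -/

set_option autoImplicit false

noncomputable section

namespace Pool.Agent.Gep26

open MvPolynomial

theorem exists_subst {m n : ℕ} (g : (Fin m → ℂ) →ₗ[ℂ] (Fin n → ℂ)) :
    ∃ e : MvPolynomial (Fin n) ℂ →ₐ[ℂ] MvPolynomial (Fin m) ℂ,
      (∀ v F, eval v (e F) = eval (g v) F) ∧
        ∀ (F : MvPolynomial (Fin n) ℂ) (d : ℕ), F.IsHomogeneous d → (e F).IsHomogeneous d := by
  classical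
  refine ⟨aeval (fun i => ∑ j, C (g (Pi.single j 1) i) * X j), ?_, ?_⟩
  · intro v F
    induction F using MvPolynomial.induction_on with
    | C a => simp
    | add p q hp hq => rw [map_add, map_add, map_add, hp, hq]
    | mul_X p i hp =>
      rw [map_mul, map_mul, hp, map_mul, aeval_X, eval_X]
      congr 1
      rw [map_sum]
      have h1 : g v = ∑ j, v j • g (Pi.single j 1) := by
        conv_lhs => rw [pi_eq_sum_univ' v]
        rw [map_sum]
        refine Finset.sum_congr rfl fun j _ => ?_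
        rw [← map_smul]
      rw [h1, Finset.sum_apply]
      refine Finset.sum_congr rfl fun j _ => ?_
      simp [mul_comm]
  · intro F d hF
    have h := hF.aeval (fun i => ∑ j, C (g (Pi.single j 1) i) * X j) (n := 1) (fun i => by
      refine IsHomogeneous.sum _ _ _ fun j _ => ?_
      have := (isHomogeneous_C (Fin m) (g (Pi.single j 1) i)).mul (isHomogeneous_X ℂ j)
      rwa [zero_add] at this)
    rwa [one_mul] at h

theorem eval_aeval_poly {n : ℕ} (g : Fin n → Polynomial ℂ) (Φ : MvPolynomial (Fin n) ℂ) (u : ℂ) :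
    (aeval g Φ : Polynomial ℂ).eval u = eval (fun i => (g i).eval u) Φ := by
  induction Φ using MvPolynomial.induction_on with
  | C a => simp
  | add p q hp hq => rw [map_add, map_add, Polynomial.eval_add, hp, hq]
  | mul_X p i hp => rw [map_mul, map_mul, Polynomial.eval_mul, hp, aeval_X, eval_X]

theorem eval_aeval_mv {m n : ℕ} (g : Fin n → MvPolynomial (Fin m) ℂ) (Φ : MvPolynomial (Fin n) ℂ)
    (v : Fin m → ℂ) : eval v (aeval g Φ) = eval (fun i => eval v (g i)) Φ := by
  induction Φ using MvPolynomial.induction_on with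
  | C a => simp
  | add p q hp hq => rw [map_add, map_add, map_add, hp, hq]
  | mul_X p i hp => rw [map_mul, map_mul, map_mul, hp, aeval_X, eval_X]

/-- a submodule is the range of a linear map from a coordinate space -/
theorem exists_param {n : ℕ} (M : Submodule ℂ (Fin n → ℂ)) :
    ∃ g : (Fin (Module.finrank ℂ M) → ℂ) →ₗ[ℂ] (Fin n → ℂ), Function.Injective g ∧
      LinearMap.range g = M := by
  let b := Module.finBasis ℂ M
  refine ⟨M.subtype ∘ₗ (b.equivFun.symm : (Fin (Module.finrank ℂ M) → ℂ) →ₗ[ℂ] M), ?_, ?_⟩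
  · exact M.injective_subtype.comp b.equivFun.symm.injective
  · rw [LinearMap.range_comp]
    simp

theorem eq_zero_on {n : ℕ} (M : Submodule ℂ (Fin n → ℂ)) {A B : MvPolynomial (Fin n) ℂ}
    (h : ∀ v ∈ M, eval v (A * B) = 0) : (∀ v ∈ M, eval v A = 0) ∨ ∀ v ∈ M, eval v B = 0 := by
  obtain ⟨g, _, hg⟩ := exists_param M
  obtain ⟨e, he, _⟩ := exists_subst g
  have h1 : e (A * B) = 0 := by
    refine MvPolynomial.funext fun v => ?_
    rw [he, map_zero]
    exact h _ (hg.le (LinearMap.mem_range_self g v))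
  rw [map_mul] at h1
  have h2 : ∀ H : MvPolynomial (Fin n) ℂ, e H = 0 → ∀ v ∈ M, eval v H = 0 := by
    intro H hH v hv
    obtain ⟨w, rfl⟩ := hg.ge hv
    rw [← he, hH, map_zero]
  rcases mul_eq_zero.1 h1 with h3 | h3
  · exact Or.inl (h2 A h3)
  · exact Or.inr (h2 B h3)

/-- evaluation of a form at a multiple -/
theorem eval_smul_form {n t : ℕ} {Φ : MvPolynomial (Fin n) ℂ} (hΦ : Φ.IsHomogeneous t) (c : ℂ)
    (v : Fin n → ℂ) : eval (c • v) Φ = c ^ t * eval v Φ := by
  rw [eval_eq', eval_eq', Finset.mul_sum]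
  refine Finset.sum_congr rfl fun d hd => ?_
  have hdeg : ∑ i, d i = t := by
    have h1 := hΦ (mem_support_iff.1 hd)
    rw [← h1, Finsupp.weight_apply, Finsupp.sum_fintype _ _ (by simp)]
    simp
  have h2 : ∏ i, (c • v) i ^ d i = c ^ t * ∏ i, v i ^ d i := by
    simp_rw [Pi.smul_apply, smul_eq_mul, mul_pow]
    rw [Finset.prod_mul_distrib, Finset.prod_pow_eq_pow_sum, hdeg]
  rw [h2]; ring

/-- restriction of a form to a parametrized line has degree at most `l` -/
theorem natDegree_aeval_le {n l : ℕ} {Φ : MvPolynomial (Fin n) ℂ} (hΦ : Φ.IsHomogeneous l)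
    (g : Fin n → Polynomial ℂ) (hg : ∀ i, (g i).natDegree ≤ 1) :
    (aeval g Φ : Polynomial ℂ).natDegree ≤ l := by
  rw [as_sum Φ, map_sum]
  refine Polynomial.natDegree_sum_le_of_forall_le _ _ fun d hd => ?_
  rw [aeval_monomial, Finsupp.prod_fintype _ _ (by simp)]
  refine (Polynomial.natDegree_C_mul_le _ _).trans ?_
  refine (Polynomial.natDegree_prod_le _ _).trans ?_
  have hdeg : ∑ i, d i = l := by
    have h1 := hΦ (mem_support_iff.1 hd)
    rw [← h1, Finsupp.weight_apply, Finsupp.sum_fintype _ _ (by simp)]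
    simp
  rw [← hdeg]
  refine Finset.sum_le_sum fun i _ => ?_
  refine Polynomial.natDegree_pow_le.trans ?_
  calc d i * (g i).natDegree ≤ d i * 1 := Nat.mul_le_mul_left _ (hg i)
    _ = d i := mul_one _

/-- a polynomial of degree at most `l` with `l` distinct roots -/
theorem eq_C_mul_prod {l : ℕ} (x : Fin l → ℂ) (hx : Function.Injective x) (p : Polynomial ℂ)
    (hp : p.natDegree ≤ l) (h : ∀ s, p.eval (x s) = 0) :
    ∃ κ : ℂ, p = Polynomial.C κ * ∏ s, (Polynomial.X - Polynomial.C (x s)) := by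
  have hdvd : (∏ s, (Polynomial.X - Polynomial.C (x s))) ∣ p := by
    refine Finset.prod_dvd_of_coprime ?_ ?_
    · intro s _ t _ hst
      exact Polynomial.isCoprime_X_sub_C_of_isUnit_sub (sub_ne_zero.2 fun h => hst (hx h)).isUnit
    · intro s _
      exact Polynomial.dvd_iff_isRoot.2 (h s)
  obtain ⟨q, hq⟩ := hdvd
  by_cases hq0 : q = 0
  · exact ⟨0, by rw [hq, hq0]; simp⟩
  have h2 : (∏ s, (Polynomial.X - Polynomial.C (x s)) : Polynomial ℂ) ≠ 0 :=
    Finset.prod_ne_zero_iff.2 fun s _ => Polynomial.X_sub_C_ne_zero _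
  have h3 : (∏ s, (Polynomial.X - Polynomial.C (x s)) : Polynomial ℂ).natDegree = l := by
    rw [Polynomial.natDegree_prod _ _ (fun i _ => Polynomial.X_sub_C_ne_zero _)]
    simp
  rw [hq, Polynomial.natDegree_mul h2 hq0, h3] at hp
  have h4 : q.natDegree = 0 := by omega
  rw [Polynomial.eq_C_of_natDegree_eq_zero h4] at hq
  exact ⟨q.coeff 0, by rw [hq]; ring⟩

theorem bin_form {l : ℕ} (Φ : MvPolynomial (Fin 2) ℂ) (hΦ : Φ.IsHomogeneous l)
    (w : Fin l → Fin 2 → ℂ) (hw : ∀ s, w s ≠ 0)
    (hw' : ∀ s t, s ≠ t → w s 0 * w t 1 - w s 1 * w t 0 ≠ 0) (h : ∀ s, eval (w s) Φ = 0) :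
    ∃ κ : ℂ, ∀ x : Fin 2 → ℂ, eval x Φ = κ * ∏ s, (w s 0 * x 1 - w s 1 * x 0) := by
  classical
  -- a direction `(1, r)`
  obtain ⟨r, hr⟩ := Infinite.exists_notMem_finset
    (Finset.univ.image fun s => w s 1 / w s 0)
  have hα : ∀ s, w s 1 - r * w s 0 ≠ 0 := by
    intro s hs
    by_cases h0 : w s 0 = 0
    · rw [h0, mul_zero, sub_zero] at hs
      apply hw s
      funext i
      fin_cases i
      · exact h0
      · exact hs
    · apply hr
      rw [Finset.mem_image]
      refine ⟨s, Finset.mem_univ _, ?_⟩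
      field_simp
      linear_combination hs
  set α : Fin l → ℂ := fun s => w s 1 - r * w s 0 with hαd
  set t : Fin l → ℂ := fun s => w s 0 / α s with ht
  have htinj : Function.Injective t := by
    intro s s' hss
    by_contra hne
    have e1 := hα s
    have e2 := hα s'
    rw [ht] at hss
    simp only at hss
    rw [div_eq_div_iff e1 e2] at hss
    exact hw' s s' hne (by linear_combination hss)
  set p : Polynomial ℂ := aeval ![Polynomial.X, 1 + Polynomial.C r * Polynomial.X] Φ with hp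
  have hpeval : ∀ u, p.eval u = eval ![u, 1 + r * u] Φ := by
    intro u
    rw [hp, eval_aeval_poly]
    congr 2
    funext i
    fin_cases i
    · simp
    · simp
  have hpdeg : p.natDegree ≤ l := by
    refine natDegree_aeval_le hΦ _ fun i => ?_
    fin_cases i
    · simp
    · simp only [Fin.mk_one, Matrix.cons_val_one]
      refine (Polynomial.natDegree_add_le _ _).trans (max_le (by simp) ?_)
      exact (Polynomial.natDegree_C_mul_le _ _).trans (by simp)
  have hproot : ∀ s, p.eval (t s) = 0 := by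
    intro s
    rw [hpeval]
    have e1 := hα s
    have e2 : (![t s, 1 + r * t s] : Fin 2 → ℂ) = (α s)⁻¹ • w s := by
      funext i
      fin_cases i
      · simp [ht]; field_simp
      · simp [ht, hαd]; field_simp; ring
    rw [e2, eval_smul_form hΦ, h s, mul_zero]
  obtain ⟨κ, hκ⟩ := eq_C_mul_prod t htinj p hpdeg hproot
  -- the formula on the set `x 1 ≠ r x 0`
  have hform : ∀ x : Fin 2 → ℂ, x 1 - r * x 0 ≠ 0 →
      eval x Φ = κ * (∏ s, (-(α s)⁻¹)) * ∏ s, (w s 0 * x 1 - w s 1 * x 0) := by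
    intro x hx
    set a := x 1 - r * x 0 with ha
    have e1 : x = a • ![x 0 / a, 1 + r * (x 0 / a)] := by
      funext i
      fin_cases i
      · simp; field_simp
      · simp; field_simp; rw [ha]; ring
    have e2 : eval x Φ = a ^ l * p.eval (x 0 / a) := by
      rw [hpeval]
      conv_lhs => rw [e1]
      rw [eval_smul_form hΦ]
    rw [e2, hκ, Polynomial.eval_mul, Polynomial.eval_prod, Polynomial.eval_C]
    have e3 : a ^ l = ∏ _s : Fin l, a := by simp
    rw [e3, mul_left_comm, ← Finset.prod_mul_distrib, mul_assoc, ← Finset.prod_mul_distrib]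
    congr 1
    refine Finset.prod_congr rfl fun s _ => ?_
    have e4 := hα s
    have e5 : α s = w s 1 - r * w s 0 := rfl
    have e6 : α s ≠ 0 := hα s
    rw [Polynomial.eval_sub, Polynomial.eval_X, Polynomial.eval_C, ht]
    simp only
    field_simp
    rw [e5, ha]
    ring
  refine ⟨κ * ∏ s, (-(α s)⁻¹), ?_⟩
  -- two polynomials
  set Ψ : MvPolynomial (Fin 2) ℂ := C (κ * ∏ s, (-(α s)⁻¹)) * ∏ s, (C (w s 0) * X 1 - C (w s 1) * X 0)
    with hΨ
  have hΨe : ∀ x : Fin 2 → ℂ, eval x Ψ = κ * (∏ s, (-(α s)⁻¹)) * ∏ s, (w s 0 * x 1 - w s 1 * x 0) := by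
    intro x
    rw [hΨ, map_mul, eval_C, map_prod]
    simp
  have hz : (Φ - Ψ) * (X 1 - C r * X 0) = 0 := by
    refine MvPolynomial.funext fun x => ?_
    rw [map_mul, map_sub, map_zero]
    by_cases hx : x 1 - r * x 0 = 0
    · have h0 : eval x (X 1 - C r * X 0 : MvPolynomial (Fin 2) ℂ) = 0 := by simpa using hx
      rw [h0, mul_zero]
    · rw [hform x hx, hΨe, sub_self, zero_mul]
  have hne : (X 1 - C r * X 0 : MvPolynomial (Fin 2) ℂ) ≠ 0 := by
    intro h0
    have := congrArg (eval ![0, 1]) h0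
    simp at this
  have hΦΨ : Φ = Ψ := sub_eq_zero.1 ((mul_eq_zero.1 hz).resolve_right hne)
  intro x
  rw [hΦΨ, hΨe]

theorem dvd_of_vanish (c : Fin 3 → ℂ) (hc : c ≠ 0) (H : MvPolynomial (Fin 3) ℂ)
    (h : ∀ v : Fin 3 → ℂ, ∑ i, c i * v i = 0 → eval v H = 0) : (∑ i, C (c i) * X i) ∣ H := by
  classical
  obtain ⟨i, hi⟩ : ∃ i, c i ≠ 0 := Function.ne_iff.1 hc
  set ℓ : MvPolynomial (Fin 3) ℂ := ∑ i, C (c i) * X i with hℓ
  set ψ : MvPolynomial (Fin 3) ℂ →ₐ[ℂ] MvPolynomial (Fin 3) ℂ :=
    aeval (fun j => if j = i then X i - C (c i)⁻¹ * ℓ else X j) with hψ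
  -- `ψ H = 0`
  have h1 : ψ H = 0 := by
    refine MvPolynomial.funext fun v => ?_
    rw [map_zero]
    set v' : Fin 3 → ℂ := fun j => if j = i then v i - (c i)⁻¹ * ∑ a, c a * v a else v j with hv'
    have h2 : eval v (ψ H) = eval v' H := by
      rw [hψ, eval_aeval_mv]
      congr 2
      funext j
      rw [hv']
      simp only
      split_ifs with hj
      · rw [map_sub, eval_X, map_mul, eval_C, hℓ, map_sum]
        simp
      · rw [eval_X]
    rw [h2]
    apply h
    have h3 : ∑ a, c a * v' a = ∑ a, c a * v a - ∑ a, c a * v a := by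
      have : ∀ a, c a * v' a = c a * v a - (if a = i then ∑ b, c b * v b else 0) := by
        intro a
        rw [hv']
        by_cases ha : a = i
        · subst ha; simp only [if_true]; field_simp
        · simp [ha]
      rw [Finset.sum_congr rfl fun a _ => this a, Finset.sum_sub_distrib, Finset.sum_ite_eq']
      simp
    rw [h3, sub_self]
  -- congruence modulo `ℓ`
  have h4 : (Ideal.Quotient.mkₐ ℂ (Ideal.span {ℓ})).comp ψ = Ideal.Quotient.mkₐ ℂ (Ideal.span {ℓ}) := by
    refine MvPolynomial.algHom_ext fun j => ?_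
    rw [AlgHom.comp_apply, hψ, aeval_X]
    split_ifs with hj
    · subst hj
      rw [Ideal.Quotient.mkₐ_eq_mk, Ideal.Quotient.mk_eq_mk_iff_sub_mem]
      have : (X j - C (c j)⁻¹ * ℓ - X j : MvPolynomial (Fin 3) ℂ) = -C (c j)⁻¹ * ℓ := by ring
      rw [this]
      exact Ideal.mul_mem_left _ _ (Ideal.mem_span_singleton_self _)
    · rfl
  have h5 := congrArg (fun f => f H) h4
  simp only [AlgHom.comp_apply] at h5
  rw [h1, map_zero, Ideal.Quotient.mkₐ_eq_mk] at h5
  exact Ideal.mem_span_singleton.1 (Ideal.Quotient.eq_zero_iff_mem.1 h5.symm)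

end Pool.Agent.Gep26
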