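import Pool.Agent.W_51eaa9_h26.Prj

/-! # Coordinates on lines; linear forms

Every line has coordinates in `ℂ²`, and if two lines are skew then every vector has coordinates in both. -/

set_option autoImplicit false

noncomputable section

namespace Pool.Agent.Gep26

open MvPolynomial

/-- The linear polynomial of a linear functional. -/
def lf (f : (Fin 4 → ℂ) →ₗ[ℂ] ℂ) : MvPolynomial (Fin 4) ℂ := ∑ i, C (f (Pi.single i 1)) * X i

theorem eval_lf (f : (Fin 4 → ℂ) →ₗ[ℂ] ℂ) (x : Fin 4 → ℂ) : eval x (lf f) = f x := by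
  rw [lf, map_sum, ← Prj_sum f x]
  refine Finset.sum_congr rfl fun i _ => ?_
  rw [map_mul, eval_C, eval_X]
  exact mul_comm _ _

theorem lf_hom (f : (Fin 4 → ℂ) →ₗ[ℂ] ℂ) : (lf f).IsHomogeneous 1 := by
  refine IsHomogeneous.sum _ _ _ fun i _ => ?_
  have := (isHomogeneous_C (Fin 4) (f (Pi.single i 1))).mul (isHomogeneous_X (R := ℂ) i)
  rwa [zero_add] at this

theorem exists_coord1 {L : Submodule ℂ (Fin 4 → ℂ)} (h : Module.finrank ℂ L = 2) :
    ∃ e : (Fin 2 → ℂ) →ₗ[ℂ] (Fin 4 → ℂ), Function.Injective e ∧ LinearMap.range e = L := by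
  have e0 : (Fin 2 → ℂ) ≃ₗ[ℂ] L := LinearEquiv.ofFinrankEq _ _ (by
    rw [h, Module.finrank_fin_fun])
  refine ⟨L.subtype ∘ₗ e0.toLinearMap, ?_, ?_⟩
  · intro x y hxy
    exact e0.injective (Subtype.ext hxy)
  · rw [LinearMap.range_comp, LinearEquiv.range, Submodule.map_top, Submodule.range_subtype]

theorem coord_unique {e e' : (Fin 2 → ℂ) →ₗ[ℂ] (Fin 4 → ℂ)} (he : Function.Injective e)
    (he' : Function.Injective e') (hd : Disjoint (LinearMap.range e) (LinearMap.range e'))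
    {x y x' y' : Fin 2 → ℂ} (h : e x + e' y = e x' + e' y') : x = x' ∧ y = y' := by
  have h1 : e (x - x') = e' (y' - y) := by
    rw [map_sub, map_sub, sub_eq_sub_iff_add_eq_add, h]
    exact add_comm _ _
  have h2 : e (x - x') = 0 := by
    refine Submodule.disjoint_def.1 hd _ ⟨_, rfl⟩ ?_
    rw [h1]
    exact ⟨_, rfl⟩
  constructor
  · have := he (h2.trans (map_zero e).symm)
    exact sub_eq_zero.1 this
  · have := he' ((h1.symm.trans h2).trans (map_zero e').symm)
    exact (sub_eq_zero.1 this).symm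

theorem exists_coord2 {e e' : (Fin 2 → ℂ) →ₗ[ℂ] (Fin 4 → ℂ)} (he : Function.Injective e)
    (he' : Function.Injective e') (hd : Disjoint (LinearMap.range e) (LinearMap.range e')) :
    ∃ c c' : (Fin 4 → ℂ) →ₗ[ℂ] (Fin 2 → ℂ), ∀ v, v = e (c v) + e' (c' v) := by
  have hinj : Function.Injective (e.coprod e') := by
    rintro ⟨x, y⟩ ⟨x', y'⟩ h
    rw [LinearMap.coprod_apply, LinearMap.coprod_apply] at h
    obtain ⟨h1, h2⟩ := coord_unique he he' hd h
    exact Prod.ext h1 h2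
  have hf : Module.finrank ℂ ((Fin 2 → ℂ) × (Fin 2 → ℂ)) = Module.finrank ℂ (Fin 4 → ℂ) := by
    rw [Module.finrank_prod, Module.finrank_fin_fun, Module.finrank_fin_fun]
  let E := LinearEquiv.ofInjectiveOfFinrankEq (e.coprod e') hinj hf
  refine ⟨LinearMap.fst ℂ _ _ ∘ₗ E.symm.toLinearMap, LinearMap.snd ℂ _ _ ∘ₗ E.symm.toLinearMap,
    fun v => ?_⟩
  have h1 : E (E.symm v) = v := E.apply_symm_apply v
  have h2 : E (E.symm v) = e (E.symm v).1 + e' (E.symm v).2 := rfl
  exact h1.symm.trans h2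

/-- A form which is nonzero only outside the planes `L j ⊔ span {z i s}`, `i ≠ j`. -/
theorem Coo_planes {k l : ℕ} {L : Fin k → Submodule ℂ (Fin 4 → ℂ)} {z : Fin k → Fin l → Fin 4 → ℂ}
    (h : SConf L z) :
    ∃ (D : MvPolynomial (Fin 4) ℂ) (d : ℕ), D ≠ 0 ∧ D.IsHomogeneous d ∧ ∀ v, eval v D ≠ 0 →
      ∀ i j s, i ≠ j → v ∉ L j ⊔ Submodule.span ℂ {z i s} := by
  classical
  have h1 : ∀ t : Fin k × Fin k × Fin l, ∃ (D : MvPolynomial (Fin 4) ℂ) (d : ℕ), D ≠ 0 ∧
      D.IsHomogeneous d ∧ ∀ v, eval v D ≠ 0 → t.1 ≠ t.2.1 →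
        v ∉ L t.2.1 ⊔ Submodule.span ℂ {z t.1 t.2.2} := by
    rintro ⟨i, j, s⟩
    by_cases hij : i = j
    · exact ⟨1, 0, one_ne_zero, isHomogeneous_one _ _, fun v _ hne => absurd hij hne⟩
    · have hU : L j ⊔ Submodule.span ℂ {z i s} ≠ ⊤ := by
        intro htop
        have e1 := Submodule.finrank_add_le_finrank_add_finrank (L j)
          (Submodule.span ℂ {z i s})
        rw [htop, finrank_top, h.rank j, finrank_span_singleton (h.ne i s),
          Module.finrank_fin_fun] at e1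
        omega
      obtain ⟨D, hD, hD1, hD2⟩ := exists_linear _ hU
      exact ⟨D, 1, hD, hD1, fun v hv _ => hD2 v hv⟩
  choose D d hD hd hv using h1
  obtain ⟨D', d', hD', hd', hv'⟩ := exists_prod D d hD hd
  exact ⟨D', d', hD', hd', fun v he i j s hij => hv (i, j, s) v (hv' v he _) hij⟩

end Pool.Agent.Gep26
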