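import Pool.Agent.W_51eaa9_h26.Pla

/-! # Plane configurations with transversals

For distinct `i, j, m` let `σ`, `τ` be the permutations of `Trans`; for each `s` there is a nonzero linear form `t_s` which
vanishes on `span {p i s, p j (σ s)}`, hence at `p m (τ s)`.  It does not vanish on `M i` (otherwise
`M i = span {p i s, p j (σ s)}` contains `p j (σ s)`), and in the same way for `j`, `m`.  `Φ = ∏ s, t_s` is good for
`i, j, m` (`eq_zero_on` for the product).  This is `H1` of `plane_ci`, and `H2` for points on exactly two lines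
`i, j` (take any third line `m`). -/

set_option autoImplicit false

noncomputable section

namespace Pool.Agent.Gep26

open MvPolynomial

/-- The polynomial of a linear form. -/
def linForm {n : ℕ} (f : (Fin n → ℂ) →ₗ[ℂ] ℂ) : MvPolynomial (Fin n) ℂ :=
  ∑ i, C (f (Pi.single i 1)) * X i

theorem eval_linForm {n : ℕ} (f : (Fin n → ℂ) →ₗ[ℂ] ℂ) (v : Fin n → ℂ) :
    eval v (linForm f) = f v := by
  rw [linForm, map_sum]
  conv_rhs => rw [pi_eq_sum_univ' v]
  rw [map_sum]
  refine Finset.sum_congr rfl fun i _ => ?_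
  rw [map_mul, eval_C, eval_X, map_smul, smul_eq_mul]
  exact mul_comm _ _

theorem linForm_homogeneous {n : ℕ} (f : (Fin n → ℂ) →ₗ[ℂ] ℂ) : (linForm f).IsHomogeneous 1 := by
  refine IsHomogeneous.sum _ _ _ fun i _ => ?_
  have := (isHomogeneous_C (Fin n) (f (Pi.single i 1))).mul (isHomogeneous_X (R := ℂ) i)
  rwa [zero_add] at this

/-- A product of polynomials none of which vanishes on `M` does not vanish on `M`. -/
theorem prod_ne_zero_on {n : ℕ} (M : Submodule ℂ (Fin n → ℂ)) {ι : Type} (S : Finset ι)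
    (A : ι → MvPolynomial (Fin n) ℂ) (h : ∀ i ∈ S, ∃ x ∈ M, eval x (A i) ≠ 0) :
    ∃ x ∈ M, eval x (∏ i ∈ S, A i) ≠ 0 := by
  classical
  induction S using Finset.induction_on with
  | empty => exact ⟨0, M.zero_mem, by simp⟩
  | insert a S ha ih =>
    by_contra hcon
    push Not at hcon
    rw [Finset.prod_insert ha] at hcon
    rcases eq_zero_on M hcon with h1 | h1
    · obtain ⟨x, hx, hx'⟩ := h a (Finset.mem_insert_self _ _)
      exact hx' (h1 x hx)
    · obtain ⟨x, hx, hx'⟩ := ih fun i hi => h i (Finset.mem_insert_of_mem hi)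
      exact hx' (h1 x hx)

theorem exists_triple {k l : ℕ} {M : Fin k → Submodule ℂ (Fin 3 → ℂ)}
    {p : Fin k → Fin l → Fin 3 → ℂ} (h : PConf M p) (ht : Trans p) (i j m : Fin k) (hij : i ≠ j)
    (hjm : j ≠ m) (him : i ≠ m) : ∃ Φ : MvPolynomial (Fin 3) ℂ, Φ.IsHomogeneous l ∧
      Good M p Φ i ∧ Good M p Φ j ∧ Good M p Φ m := by
  classical
  obtain ⟨σ, τ, hστ⟩ := ht i j m hij hjm him
  have hf : ∀ s, ∃ f : (Fin 3 → ℂ) →ₗ[ℂ] ℂ, f ≠ 0 ∧
      Submodule.span ℂ {p i s, p j (σ s)} ≤ LinearMap.ker f := by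
    intro s
    apply Submodule.exists_le_ker_of_lt_top
    rw [lt_top_iff_ne_top]
    intro h0
    have h1 : Module.finrank ℂ (Submodule.span ℂ ({p i s, p j (σ s)} : Set (Fin 3 → ℂ))) ≤ 2 := by
      have h2 := finrank_span_finset_le_card (R := ℂ) ({p i s, p j (σ s)} : Finset (Fin 3 → ℂ))
      rw [Finset.coe_insert, Finset.coe_singleton] at h2
      exact h2.trans Finset.card_le_two
    rw [h0, finrank_top, Module.finrank_fin_fun] at h1
    omega
  choose f hf0 hf using hf
  have hi : ∀ s, f s (p i s) = 0 := fun s =>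
    hf s (Submodule.subset_span (Set.mem_insert _ _))
  have hj : ∀ s, f s (p j (σ s)) = 0 := fun s =>
    hf s (Submodule.subset_span (Set.mem_insert_of_mem _ rfl))
  have hm : ∀ s, f s (p m (τ s)) = 0 := fun s => hf s (hστ s)
  have hM : ∀ s a, (∀ x ∈ M a, f s x = 0) → LinearMap.ker (f s) = M a := by
    intro s a ha
    have hk := Module.Dual.finrank_ker_add_one_of_ne_zero (hf0 s)
    rw [Module.finrank_fin_fun] at hk
    refine (Submodule.eq_of_le_of_finrank_eq (fun x hx => ha x hx) ?_).symm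
    rw [h.rank]
    omega
  have hne : ∀ a : Fin k, (a = i ∨ a = j ∨ a = m) → ∀ s, ∃ x ∈ M a, eval x (linForm (f s)) ≠ 0 := by
    intro a ha s
    by_contra hcon
    push Not at hcon
    have hk := hM s a (fun x hx => by rw [← eval_linForm]; exact hcon x hx)
    have hi' : p i s ∈ M a := by rw [← hk]; exact hi s
    have hj' : p j (σ s) ∈ M a := by rw [← hk]; exact hj s
    rcases ha with rfl | rfl | rfl
    · exact h.notMem j a (σ s) hij.symm hj'
    · exact h.notMem i a s hij hi'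
    · exact h.notMem i a s him hi'
  refine ⟨∏ s, linForm (f s), ?_, ⟨fun s => ?_, ?_⟩, ⟨fun s => ?_, ?_⟩, ⟨fun s => ?_, ?_⟩⟩
  · have := IsHomogeneous.prod (Finset.univ : Finset (Fin l)) (fun s => linForm (f s)) (fun _ => 1)
      (fun s _ => linForm_homogeneous _)
    simpa using this
  · rw [map_prod]
    exact Finset.prod_eq_zero (Finset.mem_univ s) (by rw [eval_linForm, hi])
  · exact prod_ne_zero_on _ _ _ fun s _ => hne i (Or.inl rfl) s
  · rw [map_prod]
    refine Finset.prod_eq_zero (Finset.mem_univ (σ.symm s)) ?_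
    rw [eval_linForm]
    have := hj (σ.symm s)
    rwa [Equiv.apply_symm_apply] at this
  · exact prod_ne_zero_on _ _ _ fun s _ => hne j (Or.inr (Or.inl rfl)) s
  · rw [map_prod]
    refine Finset.prod_eq_zero (Finset.mem_univ (τ.symm s)) ?_
    rw [eval_linForm]
    have := hm (τ.symm s)
    rwa [Equiv.apply_symm_apply] at this
  · exact prod_ne_zero_on _ _ _ fun s _ => hne m (Or.inr (Or.inr rfl)) s

theorem conf_ci {k l : ℕ} (hk : 3 ≤ k) (hl : 1 ≤ l) {M : Fin k → Submodule ℂ (Fin 3 → ℂ)}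
    {p : Fin k → Fin l → Fin 3 → ℂ} (h : PConf M p) (ht : Trans p)
    (H : ∀ o : Fin 3 → ℂ, o ≠ 0 →
      (∃ i j m, i ≠ j ∧ j ≠ m ∧ i ≠ m ∧ o ∈ M i ∧ o ∈ M j ∧ o ∈ M m) →
      ∃ Φ : MvPolynomial (Fin 3) ℂ, Φ.IsHomogeneous l ∧ ∀ i, o ∈ M i → Good M p Φ i) :
    IsCI k l (pts p) := by
  classical
  refine plane_ci (by omega) hl h (fun i j m h1 h2 h3 => exists_triple h ht i j m h1 h2 h3) ?_
  rintro o ho ⟨i, j, hij, hi, hj⟩
  by_cases h3 : ∃ m, m ≠ i ∧ m ≠ j ∧ o ∈ M m
  · obtain ⟨m, hmi, hmj, hm⟩ := h3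
    exact H o ho ⟨i, j, m, hij, hmj.symm, hmi.symm, hi, hj, hm⟩
  · push Not at h3
    obtain ⟨m, hm⟩ : ∃ m : Fin k, m ∉ ({i, j} : Finset (Fin k)) := by
      by_contra hcon
      push Not at hcon
      have h1 : (Finset.univ : Finset (Fin k)).card ≤ 2 := by
        refine (Finset.card_le_card fun x _ => hcon x).trans Finset.card_le_two
      rw [Finset.card_fin] at h1
      omega
    rw [Finset.mem_insert, Finset.mem_singleton, not_or] at hm
    obtain ⟨Φ, hΦ, h4, h5, _⟩ := exists_triple h ht i j m hij (Ne.symm hm.2) (Ne.symm hm.1)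
    refine ⟨Φ, hΦ, fun a ha => ?_⟩
    by_cases hai : a = i
    · rw [hai]; exact h4
    by_cases haj : a = j
    · rw [haj]; exact h5
    · exact absurd ha (h3 a hai haj)

end Pool.Agent.Gep26
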