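import Pool.Agent.W_51eaa9_h26.Def
import Pool.Agent.W_51eaa9_h26.Bin
import Pool.Agent.W_51eaa9_h26.Tri

/-! # A form of degree `l` through the points which contains none of the lines

`IsCI k l`: `F` of degree `k`, `G` of degree `l`, `(F, G) = I := coneIdeal (pts p)`.  Let `λ_i` be a nonzero linear form
(polynomial) which vanishes on `M i`; `B = ∏ i, λ_i ∈ I`.
(1) For every `i` there is an element of `I` which does not vanish on `M i`: the product over all points
`p j s` of linear forms which vanish at `p j s` but not on `M i` (`eq_zero_on`).  So `F` or `G` does not vanish on `M i`.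
(2) If `G` vanishes on no `M i` then `Φ = G`.
(3) Suppose that `G` vanishes on `M i`.  Then `F` does not.  `B = u F + w G`; by (2) restricted to `M i` `u F` vanishes on
`M i`, so `u` does, and `u(0) = 0`: the constant coefficient of `u` is `0`.  Compare the components of degree `k`:
`B = w' G`, `w'` the component of `w` of degree `k - l` (`0` if `k < l`; but `B ≠ 0`, so `l ≤ k`)
(`DirectSum.coe_decompose_mul_of_right_mem` or `MvPolynomial.homogeneousComponent`).  Let `j` be arbitrary.  `B`
vanishes on `M j`, so `w'` or `G` does.  If `w'` does then `w' = λ_j w''` (`dvd_of_vanish`) and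
`∏ i ≠ j, λ_i = w'' G`, but `G` vanishes at `p j s` (`l ≥ 1`) and `λ_i`, `i ≠ j`, does not (`notMem`, `ker λ_i = M i`).
So `G` vanishes on all `M j`, hence `B ∣ G` up to powers: `λ_j ∣ G` for all `j`; as the `λ_j` are pairwise not associated
primes (or one after the other: `G = λ_1 ⋯ λ_r G'`, `G'` vanishes on the next line) `B ∣ G`, so `k ≤ l`.  Thus `k = l`, and
`Φ = F`: for all `j` `G` vanishes on `M j`, so `F` does not. -/

set_option autoImplicit false

noncomputable section

namespace Pool.Agent.Gep26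

open MvPolynomial

/-- Homogeneous components of a product with a form. -/
theorem component_mul_form {n l : ℕ} {G : MvPolynomial (Fin n) ℂ} (hG : G.IsHomogeneous l)
    (w : MvPolynomial (Fin n) ℂ) (k : ℕ) : homogeneousComponent k (w * G) =
      if l ≤ k then homogeneousComponent (k - l) w * G else 0 := by
  let _ := gradedAlgebra (σ := Fin n) (R := ℂ)
  have h := DirectSum.coe_decompose_mul_of_right_mem (𝒜 := homogeneousSubmodule (Fin n) ℂ)
    (a := w) (b := G) k hG
  have h1 : ∀ (φ : MvPolynomial (Fin n) ℂ) (i : ℕ),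
      (DirectSum.decompose (homogeneousSubmodule (Fin n) ℂ) φ i : MvPolynomial (Fin n) ℂ) =
        homogeneousComponent i φ := fun φ i => decomposition.decompose'_apply φ i
  rw [h1, h1] at h
  exact h

/-- Divisibility by the polynomial of a linear form. -/
theorem linForm_dvd {f : (Fin 3 → ℂ) →ₗ[ℂ] ℂ} (hf : f ≠ 0) {H : MvPolynomial (Fin 3) ℂ}
    (h : ∀ v, f v = 0 → eval v H = 0) : linForm f ∣ H := by
  refine dvd_of_vanish (fun i => f (Pi.single i 1)) ?_ H ?_
  · intro h0
    apply hf
    apply LinearMap.ext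
    intro v
    rw [← eval_linForm, linForm, map_sum]
    refine Finset.sum_eq_zero fun i _ => ?_
    have := congrFun h0 i
    simp only [Pi.zero_apply] at this
    rw [this, C_0, zero_mul, map_zero]
  · intro v hv
    apply h
    rw [← eval_linForm, linForm, map_sum, ← hv]
    refine Finset.sum_congr rfl fun i _ => ?_
    rw [map_mul, eval_C, eval_X]

/-- A product of the polynomials of linear forms divides what vanishes on all of their kernels. -/
theorem prod_dvd {ι : Type} (S : Finset ι) (f : ι → (Fin 3 → ℂ) →ₗ[ℂ] ℂ) (hf : ∀ i, f i ≠ 0)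
    (hne : ∀ i j, i ≠ j → ∃ x, f j x = 0 ∧ f i x ≠ 0) {H : MvPolynomial (Fin 3) ℂ}
    (h : ∀ i ∈ S, ∀ v, f i v = 0 → eval v H = 0) : (∏ i ∈ S, linForm (f i)) ∣ H := by
  classical
  induction S using Finset.induction_on with
  | empty => simp
  | insert a S ha ih =>
    obtain ⟨H', hH'⟩ := ih fun i hi => h i (Finset.mem_insert_of_mem hi)
    have h1 : ∃ x ∈ LinearMap.ker (f a), eval x (∏ i ∈ S, linForm (f i)) ≠ 0 := by
      refine prod_ne_zero_on _ S _ fun i hi => ?_
      obtain ⟨x, hx, hx'⟩ := hne i a (fun e => ha (e ▸ hi))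
      exact ⟨x, hx, by rwa [eval_linForm]⟩
    have h2 : (∀ v ∈ LinearMap.ker (f a), eval v (∏ i ∈ S, linForm (f i)) = 0) ∨
        ∀ v ∈ LinearMap.ker (f a), eval v H' = 0 := by
      apply eq_zero_on
      intro v hv
      rw [← hH']
      exact h a (Finset.mem_insert_self _ _) v hv
    rcases h2 with h2 | h2
    · obtain ⟨x, hx, hx'⟩ := h1
      exact absurd (h2 x hx) hx'
    · obtain ⟨H'', hH''⟩ := linForm_dvd (hf a) (H := H') (fun v hv => h2 v hv)
      refine ⟨H'', ?_⟩
      rw [Finset.prod_insert ha, hH', hH'']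
      ring

theorem exists_good {k l : ℕ} (hk : 2 ≤ k) (hl : 1 ≤ l) {M : Fin k → Submodule ℂ (Fin 3 → ℂ)}
    {p : Fin k → Fin l → Fin 3 → ℂ} (h : PConf M p) (hci : IsCI k l (pts p)) :
    ∃ Φ : MvPolynomial (Fin 3) ℂ, Φ.IsHomogeneous l ∧ ∀ i, Good M p Φ i := by
  classical
  have hp0 : ∀ i s, p i s ≠ 0 := by
    intro i s h0
    have : Nontrivial (Fin k) := Fin.nontrivial_iff_two_le.2 hk
    obtain ⟨j, hj⟩ := exists_ne i
    exact h.notMem i j s hj.symm (by rw [h0]; exact (M j).zero_mem)
  obtain ⟨F, G, hF, hG, hI⟩ := hci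
  -- the elements of the ideal vanish at the points
  have hvan : ∀ H ∈ coneIdeal (pts p), ∀ i s, eval (p i s) H = 0 := by
    intro H hH i s
    have := mem_coneIdeal_pts.1 hH i s (hp0 i s) 1
    rwa [one_smul] at this
  have hFI : F ∈ coneIdeal (pts p) := by
    rw [← hI]; exact Ideal.subset_span (Set.mem_insert _ _)
  have hGI : G ∈ coneIdeal (pts p) := by
    rw [← hI]; exact Ideal.subset_span (Set.mem_insert_of_mem _ rfl)
  -- (1)
  have h1 : ∀ i, ∃ H ∈ coneIdeal (pts p), ∃ x ∈ M i, eval x H ≠ 0 := by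
    intro i
    have hlin : ∀ q : Fin k × Fin l, ∃ f : (Fin 3 → ℂ) →ₗ[ℂ] ℂ, f (p q.1 q.2) = 0 ∧
        ∃ x ∈ M i, f x ≠ 0 := by
      intro q
      obtain ⟨x, hx, hx'⟩ : ∃ x ∈ M i, x ∉ Submodule.span ℂ {p q.1 q.2} := by
        by_contra hcon
        push Not at hcon
        have e1 := Submodule.finrank_mono (R := ℂ) (show M i ≤ Submodule.span ℂ {p q.1 q.2} from hcon)
        rw [h.rank, finrank_span_singleton (hp0 _ _)] at e1
        omega
      obtain ⟨f, hf, hf'⟩ := Submodule.exists_dual_map_eq_bot_of_notMem hx' inferInstance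
      refine ⟨f, ?_, x, hx, hf⟩
      have : f (p q.1 q.2) ∈ (Submodule.span ℂ {p q.1 q.2}).map f :=
        Submodule.mem_map_of_mem (Submodule.mem_span_singleton_self _)
      rwa [hf', Submodule.mem_bot] at this
    choose f hf hfx using hlin
    refine ⟨∏ q, linForm (f q), ?_, prod_ne_zero_on _ _ _ fun q _ => ?_⟩
    · rw [mem_coneIdeal_pts]
      intro j s _ t
      rw [map_prod]
      refine Finset.prod_eq_zero (Finset.mem_univ (j, s)) ?_
      rw [eval_linForm, map_smul]
      have := hf (j, s)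
      simp only at this
      rw [this, smul_zero]
    · obtain ⟨x, hx, hx'⟩ := hfx q
      exact ⟨x, hx, by rwa [eval_linForm]⟩
  have h1' : ∀ i, (∀ x ∈ M i, eval x G = 0) → ∃ x ∈ M i, eval x F ≠ 0 := by
    intro i hGi
    by_contra hcon
    push Not at hcon
    obtain ⟨H, hH, x, hx, hx'⟩ := h1 i
    rw [← hI, Ideal.mem_span_pair] at hH
    obtain ⟨a, b, rfl⟩ := hH
    apply hx'
    rw [map_add, map_mul, map_mul, hGi x hx, hcon x hx, mul_zero, mul_zero, add_zero]
  by_cases hex : ∃ i, ∀ x ∈ M i, eval x G = 0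
  swap
  · push Not at hex
    exact ⟨G, hG, fun i => ⟨fun s => hvan G hGI i s, hex i⟩⟩
  obtain ⟨i, hi⟩ := hex
  -- the linear forms
  have hfex : ∀ j, ∃ μ : (Fin 3 → ℂ) →ₗ[ℂ] ℂ, μ ≠ 0 ∧ LinearMap.ker μ = M j := fun j =>
    exists_dual_ker (M j) (h.rank j)
  choose f hf0 hfM using hfex
  have hfv : ∀ j v, f j v = 0 ↔ v ∈ M j := by
    intro j v
    rw [← hfM]
    exact Iff.rfl
  have hBdeg : (∏ j, linForm (f j)).IsHomogeneous k := by
    have := IsHomogeneous.prod (Finset.univ : Finset (Fin k)) (fun s => linForm (f s))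
      (fun _ => 1) (fun s _ => linForm_homogeneous _)
    simpa using this
  have hlf0 : ∀ j, linForm (f j) ≠ 0 := by
    intro j h0
    apply hf0 j
    apply LinearMap.ext
    intro v
    rw [← eval_linForm, h0, map_zero]
    rfl
  have hB0 : (∏ j, linForm (f j)) ≠ 0 := Finset.prod_ne_zero_iff.2 fun j _ => hlf0 j
  have hBI : (∏ j, linForm (f j)) ∈ coneIdeal (pts p) := by
    rw [mem_coneIdeal_pts]
    intro j s _ t
    rw [map_prod]
    refine Finset.prod_eq_zero (Finset.mem_univ j) ?_
    rw [eval_linForm, map_smul, (hfv j _).2 (h.mem j s), smul_zero]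
  rw [← hI, Ideal.mem_span_pair] at hBI
  obtain ⟨u, w, huw⟩ := hBI
  have hu0 : homogeneousComponent 0 u = 0 := by
    have e1 : ∀ v ∈ M i, eval v (u * F) = 0 := by
      intro v hv
      have e2 := congrArg (eval v) huw
      rw [map_add, map_mul _ w, hi v hv, mul_zero, add_zero, map_prod] at e2
      rw [e2]
      refine Finset.prod_eq_zero (Finset.mem_univ i) ?_
      rw [eval_linForm, (hfv i _).2 hv]
    rcases eq_zero_on (M i) e1 with e3 | e3
    · rw [homogeneousComponent_zero]
      have e4 := e3 0 (M i).zero_mem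
      rw [eval_zero, constantCoeff_eq] at e4
      rw [e4, C_0]
    · obtain ⟨x, hx, hx'⟩ := h1' i hi
      exact absurd (e3 x hx) hx'
  have hBw : (∏ j, linForm (f j)) = if l ≤ k then homogeneousComponent (k - l) w * G else 0 := by
    have e1 := congrArg (homogeneousComponent k) huw
    rw [map_add, component_mul_form hF, component_mul_form hG, if_pos le_rfl, Nat.sub_self, hu0,
      zero_mul, zero_add] at e1
    rw [e1]
    rw [homogeneousComponent_of_mem hBdeg, if_pos rfl]
  have hlk : l ≤ k := by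
    by_contra hcon
    rw [if_neg hcon] at hBw
    exact hB0 hBw
  rw [if_pos hlk] at hBw
  have hG0 : G ≠ 0 := by
    rintro rfl
    rw [mul_zero] at hBw
    exact hB0 hBw
  have hall : ∀ j, ∀ x ∈ M j, eval x G = 0 := by
    intro j
    have e1 : ∀ v ∈ M j, eval v (homogeneousComponent (k - l) w * G) = 0 := by
      intro v hv
      rw [← hBw, map_prod]
      refine Finset.prod_eq_zero (Finset.mem_univ j) ?_
      rw [eval_linForm, (hfv j _).2 hv]
    rcases eq_zero_on (M j) e1 with e2 | e2
    · exfalso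
      obtain ⟨w', hw'⟩ := linForm_dvd (hf0 j) (H := homogeneousComponent (k - l) w)
        (fun v hv => e2 v ((hfv j v).1 hv))
      rw [hw', mul_assoc, ← Finset.mul_prod_erase _ _ (Finset.mem_univ j)] at hBw
      have e3 := mul_left_cancel₀ (hlf0 j) hBw
      have e4 := congrArg (eval (p j ⟨0, hl⟩)) e3
      rw [map_mul, hvan G hGI, mul_zero, map_prod] at e4
      obtain ⟨a, ha, ha'⟩ := Finset.prod_eq_zero_iff.1 e4
      rw [eval_linForm, hfv] at ha'
      exact h.notMem j a _ (Finset.ne_of_mem_erase ha).symm ha'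
    · exact e2
  have hdvd : (∏ j, linForm (f j)) ∣ G := by
    refine prod_dvd _ f hf0 ?_ ?_
    · intro a b hab
      exact ⟨p b ⟨0, hl⟩, (hfv b _).2 (h.mem b _), fun e => h.notMem b a _ hab.symm ((hfv a _).1 e)⟩
    · intro j _ v hv
      exact hall j v ((hfv j v).1 hv)
  have hkl : k ≤ l := by
    obtain ⟨H, hH⟩ := hdvd
    have hH0 : H ≠ 0 := by
      rintro rfl
      rw [mul_zero] at hH
      exact hG0 hH
    have e1 := totalDegree_mul_of_isDomain hB0 hH0
    rw [← hH, hG.totalDegree hG0, hBdeg.totalDegree hB0] at e1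
    omega
  have hkl' : k = l := le_antisymm hkl hlk
  exact ⟨F, hkl' ▸ hF, fun j => ⟨fun s => hvan F hFI j s, h1' j (hall j)⟩⟩

end Pool.Agent.Gep26
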