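import Pool.Agent.W_51eaa9_h26.Prj
import Pool.Agent.W_51eaa9_h26.Coo
import Pool.Agent.W_51eaa9_h26.Fac

/-! # The identity of Carnot

`SCoord`: `e i : ℂ² → ℂ⁴` is injective with image `L i`, `w i s` the coordinates of `z i s`, and for `i ≠ j` `c i j v` the
coordinates of the component in `L i` of `v ∈ ℂ⁴ = L i ⊕ L j`.

`area w x = w 0 * x 1 - w 1 * x 0`.

`carnot`: `Φ` from `exists_good` for the projected configuration (`pconf_proj`).  `Φ ∘ π ∘ e i` is a binary form of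
degree `l` (`exists_subst`) with the zeros `w i s`, so it is `κ_i ∏ s, area (w i s) x`, `κ_i ≠ 0` (`bin_form`, `Good`).
`v = e i (c i j v) + e j (c j i v)` gives `π (e i (c i j v)) = - π (e j (c j i v))`, so
`κ_i A_ij = (-1) ^ l κ_j A_ji` with `A_ij = ∏ s, area (w i s) (c i j v)`.  Multiply the three equations for `(i, j)`, `(j, m)`,
`(m, i)`. -/

set_option autoImplicit false

noncomputable section

namespace Pool.Agent.Gep26

open MvPolynomial

/-- Coordinates for pairwise skew lines. -/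
structure SCoord {k l : ℕ} (L : Fin k → Submodule ℂ (Fin 4 → ℂ)) (z : Fin k → Fin l → Fin 4 → ℂ)
    (e : Fin k → ((Fin 2 → ℂ) →ₗ[ℂ] (Fin 4 → ℂ))) (w : Fin k → Fin l → Fin 2 → ℂ)
    (c : Fin k → Fin k → ((Fin 4 → ℂ) →ₗ[ℂ] (Fin 2 → ℂ))) : Prop where
  inj : ∀ i, Function.Injective (e i)
  range : ∀ i, LinearMap.range (e i) = L i
  coord : ∀ i s, e i (w i s) = z i s
  decomp : ∀ i j, i ≠ j → ∀ v, v = e i (c i j v) + e j (c j i v)

theorem exists_scoord {k l : ℕ} {L : Fin k → Submodule ℂ (Fin 4 → ℂ)}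
    {z : Fin k → Fin l → Fin 4 → ℂ} (h : SConf L z) : ∃ e w c, SCoord L z e w c := by
  classical
  choose e he heL using fun i => exists_coord1 (h.rank i)
  have hw : ∀ i s, ∃ x, e i x = z i s := by
    intro i s
    have : z i s ∈ LinearMap.range (e i) := by rw [heL]; exact h.mem i s
    exact this
  choose w hw using hw
  have hc : ∀ i j : Fin k, ∃ c c' : (Fin 4 → ℂ) →ₗ[ℂ] (Fin 2 → ℂ), i ≠ j →
      ∀ v, v = e i (c v) + e j (c' v) := by
    intro i j
    by_cases hij : i = j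
    · exact ⟨0, 0, fun h => absurd hij h⟩
    · obtain ⟨c, c', hcc⟩ := exists_coord2 (he i) (he j) (by
        rw [heL, heL]; exact h.skew i j hij)
      exact ⟨c, c', fun _ => hcc⟩
  choose c c' hcc using hc
  refine ⟨e, w, c, ⟨he, heL, hw, ?_⟩⟩
  intro i j hij v
  have h1 := hcc i j hij v
  have h2 := hcc j i hij.symm v
  have h3 : e i (c i j v) + e j (c' i j v) = e i (c' j i v) + e j (c j i v) := by
    rw [← h1, add_comm]
    exact h2
  obtain ⟨_, h4⟩ := coord_unique (he i) (he j) (by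
    rw [heL, heL]; exact h.skew i j hij) h3
  rw [← h4]
  exact h1

/-- The area form on `ℂ²`. -/
def area (w x : Fin 2 → ℂ) : ℂ := w 0 * x 1 - w 1 * x 0

theorem area_smul (w : Fin 2 → ℂ) (t : ℂ) : area w (t • w) = 0 := by
  simp only [area, Pi.smul_apply, smul_eq_mul]
  ring

theorem exists_smul_of_area {w x : Fin 2 → ℂ} (hw : w ≠ 0) (h : area w x = 0) :
    ∃ t : ℂ, x = t • w := by
  by_cases h0 : w 0 = 0
  · have h1 : w 1 ≠ 0 := by
      intro h1
      apply hw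
      funext i
      fin_cases i
      · exact h0
      · exact h1
    refine ⟨x 1 / w 1, ?_⟩
    have h2 : x 0 = 0 := by
      rw [area, h0, zero_mul, zero_sub, neg_eq_zero] at h
      exact (mul_eq_zero.1 h).resolve_left h1
    funext i
    fin_cases i
    · simp only [Fin.zero_eta, Pi.smul_apply, smul_eq_mul]
      rw [h0, h2, mul_zero]
    · simp only [Fin.mk_one, Pi.smul_apply, smul_eq_mul]
      field_simp
  · refine ⟨x 0 / w 0, ?_⟩
    funext i
    fin_cases i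
    · simp only [Fin.zero_eta, Pi.smul_apply, smul_eq_mul]
      field_simp
    · simp only [Fin.mk_one, Pi.smul_apply, smul_eq_mul]
      rw [area] at h
      field_simp
      linear_combination h

theorem SCoord.w_ne {k l : ℕ} {L : Fin k → Submodule ℂ (Fin 4 → ℂ)}
    {z : Fin k → Fin l → Fin 4 → ℂ} (h : SConf L z)
    {e : Fin k → ((Fin 2 → ℂ) →ₗ[ℂ] (Fin 4 → ℂ))} {w : Fin k → Fin l → Fin 2 → ℂ}
    {c : Fin k → Fin k → ((Fin 4 → ℂ) →ₗ[ℂ] (Fin 2 → ℂ))} (hc : SCoord L z e w c) (i : Fin k)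
    (s : Fin l) : w i s ≠ 0 := by
  intro h0
  apply h.ne i s
  rw [← hc.coord, h0, map_zero]

theorem area_eq_zero {k l : ℕ} {L : Fin k → Submodule ℂ (Fin 4 → ℂ)}
    {z : Fin k → Fin l → Fin 4 → ℂ} (h : SConf L z)
    {e : Fin k → ((Fin 2 → ℂ) →ₗ[ℂ] (Fin 4 → ℂ))} {w : Fin k → Fin l → Fin 2 → ℂ}
    {c : Fin k → Fin k → ((Fin 4 → ℂ) →ₗ[ℂ] (Fin 2 → ℂ))} (hc : SCoord L z e w c) {i j : Fin k}
    (hij : i ≠ j) (s : Fin l) (v : Fin 4 → ℂ) :
    area (w i s) (c i j v) = 0 ↔ v ∈ L j ⊔ Submodule.span ℂ {z i s} := by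
  constructor
  · intro h0
    obtain ⟨t, ht⟩ := exists_smul_of_area (SCoord.w_ne h hc i s) h0
    rw [hc.decomp i j hij v, ht, map_smul, hc.coord]
    refine Submodule.add_mem _ (Submodule.mem_sup_right (Submodule.smul_mem _ _
      (Submodule.mem_span_singleton_self _))) (Submodule.mem_sup_left ?_)
    rw [← hc.range]
    exact ⟨_, rfl⟩
  · intro hv
    obtain ⟨y, hy, u, hu, hyu⟩ := Submodule.mem_sup.1 hv
    obtain ⟨t, rfl⟩ := Submodule.mem_span_singleton.1 hu
    rw [← hc.range] at hy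
    obtain ⟨y', rfl⟩ := hy
    have h1 : e i (c i j v) + e j (c j i v) = e i (t • w i s) + e j y' := by
      rw [← hc.decomp i j hij v, map_smul, hc.coord, ← hyu, add_comm]
    obtain ⟨h2, _⟩ := coord_unique (hc.inj i) (hc.inj j) (by
      rw [hc.range, hc.range]; exact h.skew i j hij) h1
    rw [h2, area_smul]

/-- There is a projection with a given centre. -/
theorem exists_projection {v : Fin 4 → ℂ} (hv : v ≠ 0) :
    ∃ π : (Fin 4 → ℂ) →ₗ[ℂ] (Fin 3 → ℂ), LinearMap.ker π = Submodule.span ℂ {v} := by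
  have h1 := Submodule.finrank_quotient_add_finrank (Submodule.span ℂ {v})
  rw [finrank_span_singleton hv, Module.finrank_fin_fun] at h1
  have e0 : ((Fin 4 → ℂ) ⧸ Submodule.span ℂ {v}) ≃ₗ[ℂ] (Fin 3 → ℂ) :=
    LinearEquiv.ofFinrankEq _ _ (by rw [Module.finrank_fin_fun]; omega)
  refine ⟨e0.toLinearMap ∘ₗ (Submodule.span ℂ {v}).mkQ, ?_⟩
  rw [LinearMap.ker_comp, LinearEquiv.ker]
  exact Submodule.ker_mkQ _

theorem carnot {k l : ℕ} (hk : 2 ≤ k) (hl : 1 ≤ l) {L : Fin k → Submodule ℂ (Fin 4 → ℂ)}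
    {z : Fin k → Fin l → Fin 4 → ℂ} (h : SConf L z)
    {e : Fin k → ((Fin 2 → ℂ) →ₗ[ℂ] (Fin 4 → ℂ))} {w : Fin k → Fin l → Fin 2 → ℂ}
    {c : Fin k → Fin k → ((Fin 4 → ℂ) →ₗ[ℂ] (Fin 2 → ℂ))} (hc : SCoord L z e w c)
    {v : Fin 4 → ℂ} (hv : ∀ i j s, i ≠ j → v ∉ L j ⊔ Submodule.span ℂ {z i s})
    (hci : ∀ π : (Fin 4 → ℂ) →ₗ[ℂ] (Fin 3 → ℂ), LinearMap.ker π = Submodule.span ℂ {v} →
      IsCI k l (proj π (pts z))) {i j m : Fin k} (hij : i ≠ j) (hjm : j ≠ m) (him : i ≠ m) :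
    (∏ s, area (w i s) (c i j v)) * (∏ s, area (w j s) (c j m v)) *
        (∏ s, area (w m s) (c m i v)) =
      (-1) ^ l * ((∏ s, area (w j s) (c j i v)) * (∏ s, area (w m s) (c m j v)) *
        (∏ s, area (w i s) (c i m v))) := by
  classical
  have hv0 : v ≠ 0 := by
    rintro rfl
    exact hv i j ⟨0, hl⟩ hij (Submodule.zero_mem _)
  obtain ⟨π, hπ⟩ := exists_projection hv0
  have hother : ∀ i : Fin k, ∃ j : Fin k, i ≠ j := by
    intro i
    have : Nontrivial (Fin k) := Fin.nontrivial_iff_two_le.2 hk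
    obtain ⟨j, hj⟩ := exists_ne i
    exact ⟨j, hj.symm⟩
  have hvL : ∀ i, v ∉ L i := by
    intro i hi
    obtain ⟨j, hj⟩ := hother i
    exact hv j i ⟨0, hl⟩ hj.symm (Submodule.mem_sup_left hi)
  have hnot : ∀ i j s, i ≠ j → z i s ∉ L j := by
    intro i j s hij hm
    exact h.ne i s (Submodule.disjoint_def.1 (h.skew i j hij) _ (h.mem i s) hm)
  have hconf := pconf_proj h.rank h.mem hnot h.indep hvL hv hπ
  have hvz : ∀ i s, v ∉ Submodule.span ℂ {z i s} := by
    intro i s hm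
    exact hvL i ((Submodule.span_singleton_le_iff_mem _ _).2 (h.mem i s) hm)
  have hCI := hci π hπ
  rw [proj_pts h.ne hvz hπ] at hCI
  obtain ⟨Φ, hΦ, hgood⟩ := exists_good hk hl hconf hCI
  -- the constants
  have hκ : ∀ i, ∃ κ : ℂ, κ ≠ 0 ∧ ∀ x, eval (π (e i x)) Φ = κ * ∏ s, area (w i s) x := by
    intro i
    obtain ⟨E, hE, hEh⟩ := exists_subst (π ∘ₗ e i)
    obtain ⟨κ, hκ⟩ := bin_form (E Φ) (hEh Φ l hΦ) (w i) (fun s => SCoord.w_ne h hc i s) (by
      intro s t hst h0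
      obtain ⟨a, ha⟩ := exists_smul_of_area (SCoord.w_ne h hc i s) h0
      apply h.indep i s t hst
      rw [← hc.coord i t, ha, map_smul, hc.coord]
      exact Submodule.smul_mem _ _ (Submodule.mem_span_singleton_self _)) (by
      intro s
      rw [hE, LinearMap.comp_apply, hc.coord]
      exact (hgood i).1 s)
    have hκ' : ∀ x, eval (π (e i x)) Φ = κ * ∏ s, area (w i s) x := by
      intro x
      have := hκ x
      rw [hE, LinearMap.comp_apply] at this
      rw [this]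
      rfl
    refine ⟨κ, ?_, hκ'⟩
    rintro rfl
    obtain ⟨_, ⟨y, hy, rfl⟩, hx'⟩ := (hgood i).2
    have hy' : y ∈ LinearMap.range (e i) := by rw [hc.range]; exact hy
    obtain ⟨x, rfl⟩ := hy'
    exact hx' (by rw [hκ', zero_mul])
  choose κ hκ0 hκ using hκ
  have hrel : ∀ i j, i ≠ j → κ i * ∏ s, area (w i s) (c i j v) =
      (-1) ^ l * (κ j * ∏ s, area (w j s) (c j i v)) := by
    intro i j hij
    rw [← hκ, ← hκ, ← eval_smul_form hΦ]
    congr 2
    have h1 : π v = 0 := by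
      have : v ∈ LinearMap.ker π := by rw [hπ]; exact Submodule.mem_span_singleton_self _
      exact this
    have h2 := congrArg π (hc.decomp i j hij v)
    rw [h1, map_add] at h2
    rw [neg_smul, one_smul]
    exact eq_neg_of_add_eq_zero_left h2.symm
  have h1 := hrel i j hij
  have h2 := hrel j m hjm
  have h3 := hrel m i him.symm
  have hε : ((-1 : ℂ) ^ l) ^ 2 = 1 := by rw [← pow_mul, mul_comm, pow_mul]; norm_num
  have hne : κ i * κ j * κ m ≠ 0 := mul_ne_zero (mul_ne_zero (hκ0 i) (hκ0 j)) (hκ0 m)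
  apply mul_left_cancel₀ hne
  calc κ i * κ j * κ m * ((∏ s, area (w i s) (c i j v)) * (∏ s, area (w j s) (c j m v)) *
        (∏ s, area (w m s) (c m i v)))
      = (κ i * ∏ s, area (w i s) (c i j v)) * (κ j * ∏ s, area (w j s) (c j m v)) *
        (κ m * ∏ s, area (w m s) (c m i v)) := by ring
    _ = ((-1) ^ l * (κ j * ∏ s, area (w j s) (c j i v))) *
        ((-1) ^ l * (κ m * ∏ s, area (w m s) (c m j v))) *
        ((-1) ^ l * (κ i * ∏ s, area (w i s) (c i m v))) := by rw [h1, h2, h3]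
    _ = ((-1 : ℂ) ^ l) ^ 2 * (κ i * κ j * κ m * ((-1) ^ l * ((∏ s, area (w j s) (c j i v)) *
        (∏ s, area (w m s) (c m j v)) * (∏ s, area (w i s) (c i m v))))) := by ring
    _ = _ := by rw [hε, one_mul]

end Pool.Agent.Gep26
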