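import Pool.Agent.W_51eaa9_h48.Decomp2

/-! # The power sums of the heights on concurrent lines

`T_σ f = f ∘ σ`, `τ_i = conj γ_i / γ_i`, `u_ij = conj (γ_i - γ_j) / (γ_i - γ_j)`.

From `hy`, `hb` (at `s = α_j⁻¹ t`) and `hc` one gets for all `i ≠ j` the equations (E) for `y₁`
(`α_j⁻¹ α_i`, `α_j⁻¹ δ_ij`) and `y₂` (`α_i α_j⁻¹`, `δ_ij α_j⁻¹`).  `decomposition'` gives `y_k = s_k + r_k` with
`s_k ∘ α_i = s_k`, `r_k ∘ α_i = τ_i r_k`, and the same for `δ_ij` with `u_ij` (if `τ_i ≠ τ_j`; otherwise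
`u_ij = τ_j` and `α_j` has the same effect).  Then `power_sums`. -/

set_option autoImplicit false

noncomputable section

namespace Pool.Agent.Gep26

open Polynomial ComplexConjugate Pool.Agent.W_51eaa9_h48

theorem loc_power_sums {l : ℕ} {J : Type} [Fintype J] (i₀ : J) (γ : J → ℂ)
    (hγ : Function.Injective γ) (h0 : ∀ i, γ i ≠ 0) (h1 : γ i₀ = 1)
    (α : J → Equiv.Perm (Fin l)) (δ : J → J → Equiv.Perm (Fin l)) (hα : α i₀ = 1)
    (hcom : ∀ i j, i ≠ j → Commute ((α j)⁻¹ * α i) ((α j)⁻¹ * δ i j))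
    (hcom' : ∀ i j, i ≠ j → Commute (α i * (α j)⁻¹) (δ i j * (α j)⁻¹))
    (y₁ y₂ : Fin l → ℂ) (hy₁ : Function.Injective y₁) (y : J → Fin l → ℂ)
    (hy : ∀ i s, y i s = y₁ s + γ i * y₂ (α i s))
    (hb : ∀ i j, i ≠ j → ∀ s, y i s - y j s = (γ i - γ j) * y₂ (δ i j s))
    (hc : ∀ i j, i ≠ j → ∀ s, γ j * y i s - γ i * y j ((α j)⁻¹ (α i s)) =
      (γ j - γ i) * y₁ ((α j)⁻¹ (δ i j s))) (q : ℕ) :
    ∃ P : ℂ[X], P.natDegree ≤ q ∧ P.eval 0 = ∑ s, y₁ s ^ q ∧ P.coeff q = ∑ s, y₂ s ^ q ∧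
      ∀ i, P.eval (γ i) = ∑ s, y i s ^ q := by
  classical
  have hcj : ∀ i, conj (γ i) ≠ 0 := fun i => by simpa using h0 i
  -- the two equations
  have hE1 : ∀ i j, i ≠ j → ∀ v,
      γ i * y₁ ((α j)⁻¹ (α i v)) - γ j * y₁ v = (γ i - γ j) * y₁ ((α j)⁻¹ (δ i j v)) := by
    intro i j hij v
    have h := hc i j hij v
    rw [hy, hy, ais] at h
    linear_combination -h
  have hE2 : ∀ i j, i ≠ j → ∀ v,
      γ i * y₂ (α i ((α j)⁻¹ v)) - γ j * y₂ v = (γ i - γ j) * y₂ (δ i j ((α j)⁻¹ v)) := by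
    intro i j hij v
    have h := hb i j hij ((α j)⁻¹ v)
    rw [hy, hy, ais] at h
    linear_combination h
  have hcm1 : ∀ i j, i ≠ j → ∀ v, (α j)⁻¹ (α i (((α j)⁻¹ * δ i j) v))
      = ((α j)⁻¹ * δ i j) ((α j)⁻¹ (α i v)) := by
    intro i j hij v
    have := congrArg (fun e : Equiv.Perm (Fin l) => e v) (hcom i j hij).eq
    simpa using this
  have hcm2 : ∀ i j, i ≠ j → ∀ v, α i ((α j)⁻¹ (δ i j ((α j)⁻¹ v)))
      = δ i j ((α j)⁻¹ (α i ((α j)⁻¹ v))) := by
    intro i j hij v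
    have := congrArg (fun e : Equiv.Perm (Fin l) => e v) (hcom' i j hij).eq
    simpa using this
  have hreal : ∀ i, conj (γ i) = γ i → ∀ v, α i v = v := fun i hi v =>
    real_trivial γ h0 α i₀ hα h1 (fun i j => (α j)⁻¹ * δ i j) y₁ hy₁ hcm1
      (fun i j hij v => by simpa using hE1 i j hij v) i hi v
  obtain ⟨s1, r1, hsr1, hs1, hr1, hds1, hdr1⟩ := decomposition' γ h0 hγ α i₀ hα h1
    (fun i j => (α j)⁻¹ * δ i j) y₁ hreal hcm1 (fun i j hij v => by simpa using hE1 i j hij v)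
  obtain ⟨s2, r2, hsr2, hs2, hr2, hds2, hdr2⟩ := decomposition' (fun i => (γ i)⁻¹)
    (fun i => inv_ne_zero (h0 i)) (fun i j h => hγ (inv_injective h)) (fun i => (α i)⁻¹) i₀
    (by simp [hα]) (by simp [h1])
    (fun i j => δ j i * (α i)⁻¹) y₂ (by
      intro i hi v
      rw [map_inv₀, inv_inj] at hi
      have := hreal i hi v
      have h2 : (α i)⁻¹ (α i v) = (α i)⁻¹ v := by rw [this]
      rw [ias] at h2
      exact h2.symm) (by
      intro i j hij v
      simpa using hcm2 j i hij.symm v) (by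
      intro i j hij v
      have := hE2 j i hij.symm v
      have h3 := h0 i
      have h4 := h0 j
      simp only [inv_inv, Equiv.Perm.mul_apply]
      field_simp
      linear_combination this)
  simp only [map_inv₀] at hs2 hr2 hds2 hdr2
  -- facts for the permutations `α i`, `δ i j`
  have hs2' : ∀ i v, s2 (α i v) = s2 v := fun i v => by
    have := hs2 i (α i v); rw [ias] at this; exact this.symm
  have hr2' : ∀ i v, r2 (α i v) = conj (γ i) / γ i * r2 v := fun i v => by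
    have := hr2 i (α i v); rw [ias] at this
    have h1 := h0 i
    have h2 := hcj i
    rw [this]; field_simp
  have hb1 : ∀ i j, i ≠ j → γ j / conj (γ j) * (conj (γ i) / γ i) ≠ 1 →
      ∀ v, s1 (δ i j v) = s1 v := fun i j hij hne v => by
    have := hds1 i j hij hne v
    rw [Equiv.Perm.mul_apply] at this
    rw [← this, ← hs1 j ((α j)⁻¹ (δ i j v)), ais]
  have hb2 : ∀ i j, i ≠ j → γ j / conj (γ j) * (conj (γ i) / γ i) ≠ 1 →
      ∀ v, r1 (δ i j v) = conj (γ i - γ j) / (γ i - γ j) * r1 v :=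
    fun i j hij hne v => by
    have := hdr1 i j hij hne v
    rw [Equiv.Perm.mul_apply] at this
    have h3 := hr1 j ((α j)⁻¹ (δ i j v))
    rw [ais, this] at h3
    have h1 := h0 j
    have h2 := hcj j
    rw [h3]
    field_simp
  have hne' : ∀ i j, γ j / conj (γ j) * (conj (γ i) / γ i) ≠ 1 →
      (γ i)⁻¹ / (conj (γ i))⁻¹ * ((conj (γ j))⁻¹ / (γ j)⁻¹) ≠ 1 := by
    intro i j hne h
    apply hne
    rw [← h]
    have h1 := h0 i
    have h2 := hcj i
    have h3 := h0 j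
    have h4 := hcj j
    field_simp
  have hb3 : ∀ i j, i ≠ j → γ j / conj (γ j) * (conj (γ i) / γ i) ≠ 1 →
      ∀ v, s2 (δ i j v) = s2 v := fun i j hij hne v => by
    have := hds2 j i hij.symm (hne' i j hne) (α j v)
    rw [Equiv.Perm.mul_apply, ias] at this
    rw [this, hs2']
  have hb4 : ∀ i j, i ≠ j → γ j / conj (γ j) * (conj (γ i) / γ i) ≠ 1 →
      ∀ v, r2 (δ i j v) = conj (γ i - γ j) / (γ i - γ j) * r2 v :=
    fun i j hij hne v => by
    have := hdr2 j i hij.symm (hne' i j hne) (α j v)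
    rw [Equiv.Perm.mul_apply, ias] at this
    have h1 := h0 i
    have h2 := hcj i
    have h3 := h0 j
    have h4 := hcj j
    have h5 : γ i - γ j ≠ 0 := sub_ne_zero.2 (fun h => hij (hγ h))
    have h6 : (γ j)⁻¹ - (γ i)⁻¹ ≠ 0 := sub_ne_zero.2 (fun h => hij (hγ (inv_injective h)).symm)
    rw [this, hr2']
    have e1 : (γ j)⁻¹ - (γ i)⁻¹ = (γ i - γ j) / (γ i * γ j) := by field_simp
    have e2 : conj ((γ j)⁻¹ - (γ i)⁻¹) = conj (γ i - γ j) / (conj (γ i) * conj (γ j)) := by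
      rw [e1, map_div₀, map_mul]
    rw [e2, e1]
    field_simp
  -- power sums
  set V : Finset ℂ := insert 0 (Finset.univ.image γ) with hV
  have hp : ∀ p : ℕ, (∃ (e : Equiv.Perm (Fin l)) (u : ℂ), u ^ p ≠ 1 ∧ (∀ v, s1 (e v) = s1 v) ∧
        (∀ v, s2 (e v) = s2 v) ∧ (∀ v, r1 (e v) = u * r1 v) ∧ (∀ v, r2 (e v) = u * r2 v)) ∨
      (∀ g ∈ V, ∀ g' ∈ V, (conj g - conj g') ^ p = (g - g') ^ p) := by
    intro p
    by_cases c1 : ∃ i, (conj (γ i) / γ i) ^ p ≠ 1
    · obtain ⟨i, hi⟩ := c1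
      exact Or.inl ⟨α i, _, hi, hs1 i, hs2' i, hr1 i, hr2' i⟩
    by_cases c2 : ∃ i j, i ≠ j ∧ γ j / conj (γ j) * (conj (γ i) / γ i) ≠ 1 ∧
        (conj (γ i - γ j) / (γ i - γ j)) ^ p ≠ 1
    · obtain ⟨i, j, hij, hne, hu⟩ := c2
      exact Or.inl ⟨δ i j, _, hu, hb1 i j hij hne, hb3 i j hij hne, hb2 i j hij hne,
        hb4 i j hij hne⟩
    · right
      push Not at c1 c2
      have k1 : ∀ i, conj (γ i) ^ p = γ i ^ p := by
        intro i
        have := c1 i
        rw [div_pow, div_eq_one_iff_eq (pow_ne_zero _ (h0 i))] at this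
        exact this
      have k2 : ∀ i j, (conj (γ i) - conj (γ j)) ^ p = (γ i - γ j) ^ p := by
        intro i j
        by_cases hij : i = j
        · subst hij; simp
        have h5 : γ i - γ j ≠ 0 := sub_ne_zero.2 (fun h => hij (hγ h))
        by_cases hne : γ j / conj (γ j) * (conj (γ i) / γ i) = 1
        · -- `γ i / γ j` is real
          have h3 := h0 i
          have h4 := h0 j
          have h6 := hcj j
          have e1 : conj (γ i) * γ j = γ i * conj (γ j) := by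
            field_simp at hne
            linear_combination hne
          have e2 : conj (γ i) - conj (γ j) = conj (γ j) / γ j * (γ i - γ j) := by
            field_simp
            linear_combination e1
          rw [e2, mul_pow, c1 j, one_mul]
        · have := c2 i j hij hne
          rw [div_pow, div_eq_one_iff_eq (pow_ne_zero _ h5), map_sub] at this
          exact this
      intro g hg g' hg'
      rw [hV, Finset.mem_insert, Finset.mem_image] at hg hg'
      rcases hg with rfl | ⟨i, _, rfl⟩ <;> rcases hg' with rfl | ⟨j, _, rfl⟩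
      · simp
      · rw [map_zero, zero_sub, zero_sub, neg_pow, k1, ← neg_pow]
      · rw [map_zero, sub_zero, sub_zero, k1]
      · exact k2 i j
  obtain ⟨P, hP1, hP2, hP3⟩ := power_sums V s1 r1 s2 r2 hp q
  refine ⟨P, hP1, ?_, ?_, ?_⟩
  · rw [hP3 0 (by rw [hV]; simp)]
    refine Finset.sum_congr rfl fun v _ => ?_
    rw [hsr1 v, map_zero]; ring
  · rw [hP2]
    refine Finset.sum_congr rfl fun v _ => ?_
    rw [hsr2 v]
  · intro i
    rw [hP3 (γ i) (by rw [hV]; simp)]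
    refine Finset.sum_congr rfl fun v _ => ?_
    have e : y i v = s1 v + γ i * s2 v + (r1 v + conj (γ i) * r2 v) := by
      rw [hy, hsr1 v, hsr2 (α i v), hs2', hr2']
      have h1 := h0 i
      field_simp
      ring
    rw [e]

end Pool.Agent.Gep26
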