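import Mathlib

/-! # From power sums to a form

`R` a type of lines, `c i : Fin 2 → ℂ` the coordinates of line `i`, `y i s` heights.  If for all `q` the `q`-th power
sum of the `y i s`, `s < l`, is the value at `c i` of a form `P_q` of degree `q`, then by Newton's identities
(`MvPolynomial.mul_esymm_eq_sum`, evaluated at `y i`) so are the elementary symmetric functions: define
`E_0 = 1`, `E_q = (1 / q) ∑_{j = 1}^{q} (-1) ^ (j - 1) E_{q - j} P_j` by strong recursion.  Then
`Φ = ∑_{q ≤ l} (-1) ^ q E_q(X 1, X 2) (X 0) ^ (l - q)`: its value at `(Y, c i)` is `∏ s, (Y - y i s)`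
(`Finset.prod_X_sub_C_eq_sum_esymm` or `MvPolynomial.prod_C_add_X_eq_sum_esymm`,
`Multiset.prod_X_sub_C_eq_sum_esymm`). -/

set_option autoImplicit false

noncomputable section

namespace Pool.Agent.Gep26

open MvPolynomial

theorem newt_eval_zero {q : ℕ} (hq : 0 < q) {σ : Type} (P : MvPolynomial σ ℂ)
    (hP : P.IsHomogeneous q) : eval (0 : σ → ℂ) P = 0 := by
  have h1 : eval (0 : σ → ℂ) P = constantCoeff P := by simp
  rw [h1, constantCoeff_eq]
  exact hP.coeff_eq_zero (by rw [map_zero]; exact hq.ne)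

/-- The elementary symmetric functions are values of forms. -/
theorem newt_esymm {l : ℕ} {R : Type} (c : R → Fin 2 → ℂ) (y : R → Fin l → ℂ)
    (h : ∀ q : ℕ, ∃ P : MvPolynomial (Fin 2) ℂ, P.IsHomogeneous q ∧
      ∀ i, eval (c i) P = ∑ s, y i s ^ q) (q : ℕ) :
    ∃ E : MvPolynomial (Fin 2) ℂ, E.IsHomogeneous q ∧ (q = 0 → E = 1) ∧
      ∀ i, eval (c i) E = aeval (y i) (esymm (Fin l) ℂ q) := by
  induction q using Nat.strong_induction_on with
  | _ q ih =>
    rcases Nat.eq_zero_or_pos q with rfl | hq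
    · refine ⟨1, isHomogeneous_one _ _, fun _ => rfl, fun i => ?_⟩
      rw [esymm_zero, map_one, map_one]
    · choose P hP1 hP2 using h
      choose E hE1 _ hE3 using ih
      have hq0 : (q : ℂ) ≠ 0 := by exact_mod_cast hq.ne'
      refine ⟨C ((q : ℂ)⁻¹ * (-1) ^ (q + 1)) *
        ∑ a ∈ (Finset.HasAntidiagonal.antidiagonal q).attach,
          if ha : a.1.1 < q then C ((-1) ^ a.1.1) * E a.1.1 ha * P a.1.2 else 0, ?_,
        fun h0 => absurd h0 hq.ne', fun i => ?_⟩
      · have h1 : (∑ a ∈ (Finset.HasAntidiagonal.antidiagonal q).attach,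
            if ha : a.1.1 < q then C ((-1) ^ a.1.1) * E a.1.1 ha * P a.1.2 else 0 :
            MvPolynomial (Fin 2) ℂ).IsHomogeneous q := by
          refine IsHomogeneous.sum _ _ _ fun a _ => ?_
          by_cases ha : a.1.1 < q
          · rw [dif_pos ha]
            have h2 := ((isHomogeneous_C (Fin 2) ((-1 : ℂ) ^ a.1.1)).mul (hE1 a.1.1 ha)).mul
              (hP1 a.1.2)
            rw [zero_add, Finset.HasAntidiagonal.mem_antidiagonal.1 a.2] at h2
            exact h2
          · rw [dif_neg ha]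
            exact isHomogeneous_zero _ _ _
        have h3 := (isHomogeneous_C (Fin 2) ((q : ℂ)⁻¹ * (-1) ^ (q + 1))).mul h1
        rw [zero_add] at h3
        exact h3
      · rw [map_mul, eval_C, map_sum]
        have h4 := congrArg (aeval (y i)) (mul_esymm_eq_sum (Fin l) ℂ q)
        rw [map_mul, map_natCast] at h4
        have h5 : (q : ℂ) * aeval (y i) (esymm (Fin l) ℂ q) = (-1) ^ (q + 1) *
            ∑ a ∈ (Finset.HasAntidiagonal.antidiagonal q).attach, eval (c i)
              (if ha : a.1.1 < q then C ((-1) ^ a.1.1) * E a.1.1 ha * P a.1.2 else 0) := by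
          rw [h4, map_mul, map_pow, map_neg, map_one]
          congr 1
          rw [Finset.sum_filter, map_sum]
          rw [← Finset.sum_attach]
          refine Finset.sum_congr rfl fun a _ => ?_
          by_cases ha : a.1.1 < q
          · rw [if_pos ha, dif_pos ha]
            simp only [map_mul, map_pow, map_neg, map_one, hE3 a.1.1 ha i, hP2 a.1.2 i]
            congr 1
            simp [psum]
          · rw [if_neg ha, dif_neg ha, map_zero, map_zero]
        rw [mul_assoc, ← h5, inv_mul_cancel_left₀ hq0]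

theorem form_of_power_sums {l : ℕ} {R : Type} (c : R → Fin 2 → ℂ) (y : R → Fin l → ℂ)
    (h : ∀ q : ℕ, ∃ P : MvPolynomial (Fin 2) ℂ, P.IsHomogeneous q ∧
      ∀ i, eval (c i) P = ∑ s, y i s ^ q) :
    ∃ Φ : MvPolynomial (Fin 3) ℂ, Φ.IsHomogeneous l ∧ eval ![1, 0, 0] Φ = 1 ∧
      ∀ i (Y : ℂ), eval ![Y, c i 0, c i 1] Φ = ∏ s, (Y - y i s) := by
  choose E hE1 hE2 hE3 using newt_esymm c y h
  refine ⟨∑ q ∈ Finset.range (l + 1), C ((-1 : ℂ) ^ q) *
    (rename Fin.succ (E q) * X 0 ^ (l - q)), ?_, ?_, fun i Y => ?_⟩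
  · refine IsHomogeneous.sum _ _ _ fun q hq => ?_
    have h1 : (rename Fin.succ (E q) : MvPolynomial (Fin 3) ℂ).IsHomogeneous q :=
      (hE1 q).rename_isHomogeneous
    have h2 := (isHomogeneous_C (Fin 3) ((-1 : ℂ) ^ q)).mul
      (h1.mul ((isHomogeneous_X ℂ (0 : Fin 3)).pow (l - q)))
    have h3 : 0 + (q + 1 * (l - q)) = l := by
      have := Finset.mem_range.1 hq
      omega
    rw [h3] at h2
    exact h2
  · rw [map_sum, Finset.sum_eq_single 0]
    · rw [hE2 0 rfl]
      simp
    · intro q _ hq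
      have h1 : eval ![(1 : ℂ), 0, 0] (rename Fin.succ (E q)) = 0 := by
        rw [eval_rename]
        have h2 : (![(1 : ℂ), 0, 0] ∘ Fin.succ : Fin 2 → ℂ) = 0 := by
          funext j
          fin_cases j <;> rfl
        rw [h2]
        exact newt_eval_zero (Nat.pos_of_ne_zero hq) _ (hE1 q)
      rw [map_mul, map_mul, h1, zero_mul, mul_zero]
    · intro h0
      exact absurd (Finset.mem_range.2 (Nat.succ_pos l)) h0
  · have h1 := Multiset.prod_X_sub_X_eq_sum_esymm (Finset.univ.val.map (y i))
    have h2 := congrArg (Polynomial.eval Y) h1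
    rw [Polynomial.eval_multiset_prod, Polynomial.eval_finsetSum, Multiset.map_map] at h2
    have h3 : (Multiset.map (Polynomial.eval Y ∘ fun t => Polynomial.X - Polynomial.C t)
        (Multiset.map (y i) Finset.univ.val)).prod = ∏ s, (Y - y i s) := by
      rw [Multiset.map_map]
      simp [Finset.prod]
    rw [h3] at h2
    rw [h2, map_sum]
    have h4 : (Multiset.map (y i) (Finset.univ : Finset (Fin l)).val).card = l := by
      simp
    rw [h4]
    refine Finset.sum_congr rfl fun q _ => ?_
    rw [map_mul, map_mul, eval_C, map_pow, eval_X, eval_rename]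
    have h5 : (![Y, c i 0, c i 1] ∘ Fin.succ : Fin 2 → ℂ) = c i := by
      funext j
      fin_cases j <;> rfl
    rw [h5, hE3 q i, aeval_esymm_eq_multiset_esymm]
    simp

end Pool.Agent.Gep26
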