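import Pool.Agent.W_51eaa9_h26.Def
import Pool.Agent.W_51eaa9_h26.Bin
import Pool.Agent.W_51eaa9_h26.Loc
import Pool.Agent.W_51eaa9_h26.Newt

/-! # Concurrent lines in the plane

Let `o ≠ 0` be in `M i₁`, `M i₂`, `M i₃` and `I = {i | o ∈ M i}`.  `p i s` is not a multiple of `o` for `i ∈ I` (`notMem` for
another line of `I`; `l ≥ 1` may be assumed, for `l = 0` take `Φ = 1`).  Choose `m₁ ∈ M i₁`, `m₂ ∈ M i₂` not multiples
of `o`; `(o, m₁, m₂)` is a basis (`M i₁ ≠ M i₂`).  For `i ∈ I`, `i ≠ i₁, i₂`, `M i` contains a unique vector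
`m₁ + g_i m₂`, `g_i ≠ 0` (it is the span of `o` and a vector `a m₁ + b m₂`, `a, b ≠ 0` since `M i ≠ M i₁, M i₂`).  Replace
`m₂` by `g_{i₃} m₂`, so that `g_{i₃} = 1`; `g` is injective on `J = {i ∈ I | i ≠ i₁, i₂}`.  Up to a nonzero factor
`p i s` is `m_i + y_i(s) o`, with `m_i = m₁ + g_i m₂` for `i ∈ J`, `m₁`, `m₂` for `i₁`, `i₂`.  Comparison of coordinates in
`SData` gives for `i ≠ j` in `J` (all up to the factors):
`ha`: `y_i(s) = y_1(s) + g_i y_2(α i s)`;
`hb`: `y_i(s) - y_j(s) = (g_i - g_j) y_2(δ i j s)`;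
`hc`: `g_j y_i(s) - g_i y_j((α j)⁻¹ (α i s)) = (g_j - g_i) y_1((α j)⁻¹ (δ i j s))`
(e.g. `hb`: `p i₂ (δ i j s) = a p i s + b p j s`; the coordinates of `m₁` and `m₂` determine `a`, `b`).  `y_1` is injective
by `indep`.  `loc_power_sums` gives `P_q`; the form `∑_j (coeff j of P_q) (X 0) ^ j (X 1) ^ (q - j)` has the value
`∑ s, y_i(s) ^ q` at `(g_i, 1)`, `(0, 1)` for `i₁` and `(1, 0)` for `i₂`.  `form_of_power_sums` gives `Φ'`, and `Φ = Φ'`
composed with the coordinates `v ↦ (Y, X, T)`, `v = Y o + T m₁ + X m₂`, `Φ(o) = 1`. -/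

set_option autoImplicit false

noncomputable section

namespace Pool.Agent.Gep26

open MvPolynomial

/-- Homogenization of a polynomial in one variable. -/
theorem Cen_homog (q : ℕ) (P : Polynomial ℂ) (hP : P.natDegree ≤ q) :
    ∃ H : MvPolynomial (Fin 2) ℂ, H.IsHomogeneous q ∧ (∀ g : ℂ, eval ![g, 1] H = P.eval g) ∧
      eval ![1, 0] H = P.coeff q := by
  refine ⟨∑ j ∈ Finset.range (q + 1), C (P.coeff j) * X 0 ^ j * X 1 ^ (q - j), ?_, ?_, ?_⟩
  · refine IsHomogeneous.sum _ _ _ fun j hj => ?_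
    have h1 := (((isHomogeneous_C (Fin 2) (P.coeff j)).mul
      ((isHomogeneous_X (R := ℂ) (0 : Fin 2)).pow j)).mul
        ((isHomogeneous_X (R := ℂ) (1 : Fin 2)).pow (q - j)))
    have h2 : 0 + 1 * j + 1 * (q - j) = q := by
      have := Finset.mem_range.1 hj
      omega
    rwa [h2] at h1
  · intro g
    rw [map_sum, Polynomial.eval_eq_sum_range' (Nat.lt_succ_of_le hP)]
    refine Finset.sum_congr rfl fun j _ => ?_
    simp
  · rw [map_sum, Finset.sum_eq_single q]
    · simp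
    · intro j hj hjq
      have := Finset.mem_range.1 hj
      have h1 : q - j ≠ 0 := by omega
      simp [h1]
    · intro hq
      exact absurd (Finset.mem_range.2 (Nat.lt_succ_self q)) hq

/-- Values of a form at multiples of a vector. -/
theorem Cen_eval_smul {n q : ℕ} {F : MvPolynomial (Fin n) ℂ} (hF : F.IsHomogeneous q) (t : ℂ)
    (v : Fin n → ℂ) : eval (t • v) F = t ^ q * eval v F := by
  rw [eval_eq', eval_eq', Finset.mul_sum]
  refine Finset.sum_congr rfl fun d hd => ?_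
  have h1 : ∑ i, d i = q := by
    have h0 : Finsupp.degree d = q :=
      (congrArg (fun f => f d) (Finsupp.degree_eq_weight_one (R := ℕ) (σ := Fin n))).trans
        (hF (mem_support_iff.1 hd))
    rw [← h0, Finsupp.degree_eq_sum]
  have h2 : ∏ i, (t • v) i ^ d i = t ^ q * ∏ i, v i ^ d i := by
    simp only [Pi.smul_apply, smul_eq_mul, mul_pow]
    rw [Finset.prod_mul_distrib, Finset.prod_pow_eq_pow_sum, h1]
  rw [h2]
  ring

theorem Cen_a {a b T1 Tj X2 Y1 Yj Y2 g : ℂ} (hT1 : T1 ≠ 0) (hTj : Tj ≠ 0) (hX : X2 ≠ 0)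
    (e1 : a * T1 + b * Tj = 0) (e2 : b * (g * Tj) = X2) (e3 : a * Y1 + b * Yj = Y2) :
    Yj / Tj = Y1 / T1 + g * (Y2 / X2) := by
  subst e2
  subst e3
  have hb : b ≠ 0 := left_ne_zero_of_mul hX
  have hg : g ≠ 0 := left_ne_zero_of_mul (right_ne_zero_of_mul hX)
  field_simp
  linear_combination (-Y1) * e1

theorem Cen_b {a b Ti Tj X2 Yi Yj Y2 g g' : ℂ} (hTi : Ti ≠ 0) (hTj : Tj ≠ 0) (hX : X2 ≠ 0)
    (e1 : a * Ti + b * Tj = 0) (e2 : a * (g * Ti) + b * (g' * Tj) = X2)
    (e3 : a * Yi + b * Yj = Y2) :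
    Yi / Ti - Yj / Tj = (g - g') * (Y2 / X2) := by
  have h1 : b * Tj = -(a * Ti) := by linear_combination e1
  have h2 : X2 = a * Ti * (g - g') := by linear_combination (-1) * e2 + g' * e1
  have h3 : Y2 = a * Ti * (Yi / Ti - Yj / Tj) := by
    have h4 : b * Yj = (b * Tj) * (Yj / Tj) := by field_simp
    rw [← e3, h4, h1]
    field_simp
    ring
  have h5 : a * Ti ≠ 0 := by
    intro h
    rw [h, zero_mul] at h2
    exact hX h2
  have h6 : g - g' ≠ 0 := by
    intro h
    rw [h, mul_zero] at h2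
    exact hX h2
  rw [h3, h2]
  generalize a * Ti = A at *
  generalize Yi / Ti - Yj / Tj = D at *
  field_simp

theorem Cen_c {a b Ti Tj T1 Yi Yj Y1 g g' : ℂ} (hTi : Ti ≠ 0) (hTj : Tj ≠ 0) (hT1 : T1 ≠ 0)
    (hg' : g' ≠ 0) (e1 : a * Ti + b * Tj = T1) (e2 : a * (g * Ti) + b * (g' * Tj) = 0)
    (e3 : a * Yi + b * Yj = Y1) :
    g' * (Yi / Ti) - g * (Yj / Tj) = (g' - g) * (Y1 / T1) := by
  have h1 : g' * (b * Tj) = -(g * (a * Ti)) := by linear_combination e2
  have h2 : g' * T1 = (g' - g) * (a * Ti) := by linear_combination (-g') * e1 + e2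
  have h3 : a * Ti ≠ 0 := by
    intro h
    rw [h, mul_zero] at h2
    exact (mul_ne_zero hg' hT1) h2
  have h4 : a * Ti * (g' * (Yi / Ti) - g * (Yj / Tj)) = a * Ti * ((g' - g) * (Y1 / T1)) := by
    have h5 : a * Ti * (g' * (Yi / Ti) - g * (Yj / Tj)) = g' * (a * Yi) - (g * (a * Ti)) * (Yj / Tj) := by
      field_simp
    have h6 : a * Ti * ((g' - g) * (Y1 / T1)) = g' * T1 * (Y1 / T1) := by
      rw [h2]
      ring
    have h8 : g' * T1 * (Y1 / T1) = g' * Y1 := by field_simp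
    have h7 : g * (a * Ti) = -(g' * (b * Tj)) := by rw [h1, neg_neg]
    rw [h5, h6, h8, ← e3, h7]
    field_simp
    ring
  exact mul_left_cancel₀ h3 h4

theorem central {k l : ℕ} {M : Fin k → Submodule ℂ (Fin 3 → ℂ)} {p : Fin k → Fin l → Fin 3 → ℂ}
    (h : PConf M p) {i₁ i₂ i₃ : Fin k} (h12 : i₁ ≠ i₂) (h13 : i₁ ≠ i₃) (h23 : i₂ ≠ i₃)
    {α : Fin k → Equiv.Perm (Fin l)} {δ : Fin k → Fin k → Equiv.Perm (Fin l)}
    (hd : SData p i₁ i₂ i₃ α δ) {o : Fin 3 → ℂ} (ho : o ≠ 0) (h1 : o ∈ M i₁) (h2 : o ∈ M i₂)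
    (h3 : o ∈ M i₃) :
    ∃ Φ : MvPolynomial (Fin 3) ℂ, Φ.IsHomogeneous l ∧ ∀ i, o ∈ M i → Good M p Φ i := by
  classical
  rcases Nat.eq_zero_or_pos l with rfl | hl
  · exact ⟨1, isHomogeneous_one _ _, fun i _ => ⟨fun s => s.elim0, 0, (M i).zero_mem, by simp⟩⟩
  let s0 : Fin l := ⟨0, hl⟩
  -- points are not multiples of `o`
  have hpo : ∀ i, o ∈ M i → ∀ s, p i s ∉ Submodule.span ℂ {o} := by
    intro i hi s hm
    by_cases hi1 : i = i₁
    · exact h.notMem i i₂ s (by rw [hi1]; exact h12)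
        ((Submodule.span_singleton_le_iff_mem _ _).2 h2 hm)
    · exact h.notMem i i₁ s hi1 ((Submodule.span_singleton_le_iff_mem _ _).2 h1 hm)
  have hne : ∀ i, o ∈ M i → ∀ s, p i s ≠ 0 := fun i hi s e => hpo i hi s (by
    rw [e]; exact Submodule.zero_mem _)
  -- lines through `o`
  have hspan : ∀ i, o ∈ M i → ∀ s, Submodule.span ℂ {o, p i s} = M i := by
    intro i hi s
    refine Submodule.eq_of_le_of_finrank_eq ?_ ?_
    · rw [Submodule.span_le]
      rintro x (rfl | rfl)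
      · exact hi
      · exact h.mem i s
    · rw [h.rank]
      have e1 : LinearIndependent ℂ ![o, p i s] := by
        rw [LinearIndependent.pair_iff' ho]
        intro a ha
        exact hpo i hi s (Submodule.mem_span_singleton.2 ⟨a, ha⟩)
      have e2 := finrank_span_eq_card e1
      have e3 : Set.range ![o, p i s] = {o, p i s} := by
        rw [Matrix.range_cons, Matrix.range_cons, Matrix.range_empty, Set.union_empty]
        rfl
      rwa [e3, Fintype.card_fin] at e2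
  have hli : LinearIndependent ℂ ![p i₂ s0, o, p i₁ s0] := by
    have e1 : LinearIndependent ℂ ![o, p i₁ s0] := by
      rw [LinearIndependent.pair_iff' ho]
      intro a ha
      exact hpo i₁ h1 s0 (Submodule.mem_span_singleton.2 ⟨a, ha⟩)
    refine linearIndependent_finCons.2 ⟨e1, ?_⟩
    have e3 : Set.range ![o, p i₁ s0] = {o, p i₁ s0} := by
      rw [Matrix.range_cons, Matrix.range_cons, Matrix.range_empty, Set.union_empty]
      rfl
    rw [e3, hspan i₁ h1 s0]
    exact h.notMem i₂ i₁ s0 h12.symm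
  let b := basisOfLinearIndependentOfCardEqFinrank hli (by
    rw [Fintype.card_fin, Module.finrank_fin_fun])
  have hb0 : b 0 = p i₂ s0 := by
    show basisOfLinearIndependentOfCardEqFinrank hli _ 0 = _
    rw [coe_basisOfLinearIndependentOfCardEqFinrank]
    rfl
  have hb1 : b 1 = o := by
    show basisOfLinearIndependentOfCardEqFinrank hli _ 1 = _
    rw [coe_basisOfLinearIndependentOfCardEqFinrank]
    rfl
  have hb2 : b 2 = p i₁ s0 := by
    show basisOfLinearIndependentOfCardEqFinrank hli _ 2 = _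
    rw [coe_basisOfLinearIndependentOfCardEqFinrank]
    rfl
  have hdec : ∀ v, v = b.coord 0 v • p i₂ s0 + b.coord 1 v • o + b.coord 2 v • p i₁ s0 := by
    intro v
    have e1 := b.sum_repr v
    rw [Fin.sum_univ_three, hb0, hb1, hb2] at e1
    exact e1.symm
  -- coordinates
  have hX1 : ∀ v ∈ M i₁, b.coord 0 v = 0 := by
    intro v hv
    rw [← hspan i₁ h1 s0] at hv
    obtain ⟨x, y, rfl⟩ := Submodule.mem_span_pair.1 hv
    rw [← hb1, ← hb2, map_add, map_smul, map_smul, Module.Basis.coord_apply,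
      Module.Basis.coord_apply, Module.Basis.repr_self, Module.Basis.repr_self]
    simp
  have hT2 : ∀ v ∈ M i₂, b.coord 2 v = 0 := by
    intro v hv
    rw [← hspan i₂ h2 s0] at hv
    obtain ⟨x, y, rfl⟩ := Submodule.mem_span_pair.1 hv
    rw [← hb1, ← hb0, map_add, map_smul, map_smul, Module.Basis.coord_apply,
      Module.Basis.coord_apply, Module.Basis.repr_self, Module.Basis.repr_self]
    simp
  have hT : ∀ i, i ≠ i₂ → o ∈ M i → ∀ s, b.coord 2 (p i s) ≠ 0 := by
    intro i hi hoi s e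
    refine h.notMem i i₂ s hi ?_
    rw [hdec (p i s), e, zero_smul, add_zero]
    exact (M i₂).add_mem ((M i₂).smul_mem _ (h.mem _ _)) ((M i₂).smul_mem _ h2)
  have hX : ∀ i, i ≠ i₁ → o ∈ M i → ∀ s, b.coord 0 (p i s) ≠ 0 := by
    intro i hi hoi s e
    refine h.notMem i i₁ s hi ?_
    rw [hdec (p i s), e, zero_smul, zero_add]
    exact (M i₁).add_mem ((M i₁).smul_mem _ h1) ((M i₁).smul_mem _ (h.mem _ _))
  have hr : ∀ i, i ≠ i₂ → o ∈ M i → ∀ v ∈ M i,
      b.coord 0 v = b.coord 0 (p i s0) / b.coord 2 (p i s0) * b.coord 2 v := by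
    intro i hi hoi v hv
    rw [← hspan i hoi s0] at hv
    obtain ⟨x, y, rfl⟩ := Submodule.mem_span_pair.1 hv
    have e1 : b.coord 0 o = 0 := by
      rw [← hb1, Module.Basis.coord_apply, Module.Basis.repr_self]
      simp
    have e2 : b.coord 2 o = 0 := by
      rw [← hb1, Module.Basis.coord_apply, Module.Basis.repr_self]
      simp
    have e3 := hT i hi hoi s0
    rw [map_add, map_add, map_smul, map_smul, map_smul, map_smul, e1, e2]
    simp only [smul_eq_mul, mul_zero, zero_add]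
    field_simp
  -- normalized coordinates
  obtain ⟨c, hc⟩ : ∃ c, c = b.coord 0 (p i₃ s0) / b.coord 2 (p i₃ s0) := ⟨_, rfl⟩
  have hc0 : c ≠ 0 := by
    rw [hc]
    exact div_ne_zero (hX i₃ h13.symm h3 s0) (hT i₃ h23.symm h3 s0)
  let X' : (Fin 3 → ℂ) →ₗ[ℂ] ℂ := c⁻¹ • b.coord 0
  let T' : (Fin 3 → ℂ) →ₗ[ℂ] ℂ := b.coord 2
  let Y' : (Fin 3 → ℂ) →ₗ[ℂ] ℂ := b.coord 1
  let J := {i : Fin k // (i ≠ i₁ ∧ i ≠ i₂) ∧ o ∈ M i}
  let j₃ : J := ⟨i₃, ⟨h13.symm, h23.symm⟩, h3⟩
  let γ : J → ℂ := fun i => X' (p i.1 s0) / T' (p i.1 s0)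
  have hγ : ∀ (i : J), ∀ v ∈ M i.1, X' v = γ i * T' v := by
    intro i v hv
    have e1 := hr i.1 i.2.1.2 i.2.2 v hv
    show c⁻¹ • b.coord 0 v = c⁻¹ • b.coord 0 (p i.1 s0) / b.coord 2 (p i.1 s0) * b.coord 2 v
    rw [e1, smul_eq_mul, smul_eq_mul]
    ring
  have hTJ : ∀ (i : J) s, T' (p i.1 s) ≠ 0 := fun i s => hT i.1 i.2.1.2 i.2.2 s
  have hT1 : ∀ s, T' (p i₁ s) ≠ 0 := fun s => hT i₁ h12 h1 s
  have hX2 : ∀ s, X' (p i₂ s) ≠ 0 := fun s => by
    show c⁻¹ • b.coord 0 (p i₂ s) ≠ 0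
    exact smul_ne_zero (inv_ne_zero hc0) (hX i₂ h12.symm h2 s)
  have hX1' : ∀ s, X' (p i₁ s) = 0 := fun s => by
    show c⁻¹ • b.coord 0 (p i₁ s) = 0
    rw [hX1 _ (h.mem i₁ s), smul_zero]
  have hT2' : ∀ s, T' (p i₂ s) = 0 := fun s => hT2 _ (h.mem i₂ s)
  have hγ0 : ∀ i, γ i ≠ 0 := by
    intro i
    refine div_ne_zero ?_ (hTJ i s0)
    show c⁻¹ • b.coord 0 (p i.1 s0) ≠ 0
    exact smul_ne_zero (inv_ne_zero hc0) (hX i.1 i.2.1.1 i.2.2 s0)
  have hγ1 : γ j₃ = 1 := by
    show c⁻¹ • b.coord 0 (p i₃ s0) / b.coord 2 (p i₃ s0) = 1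
    rw [smul_eq_mul, mul_div_assoc, ← hc, inv_mul_cancel₀ hc0]
  have hrec : ∀ v w : Fin 3 → ℂ, X' v = X' w → Y' v = Y' w → T' v = T' w → v = w := by
    intro v w e1 e2 e3
    rw [hdec v, hdec w]
    have e4 : b.coord 0 v = b.coord 0 w := by
      have : c⁻¹ * b.coord 0 v = c⁻¹ * b.coord 0 w := e1
      exact mul_left_cancel₀ (inv_ne_zero hc0) this
    have e5 : b.coord 1 v = b.coord 1 w := e2
    have e6 : b.coord 2 v = b.coord 2 w := e3
    rw [e4, e5, e6]
  have hγi : Function.Injective γ := by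
    intro i j hij
    by_contra hne'
    have hij' : i.1 ≠ j.1 := fun e => hne' (Subtype.ext e)
    refine h.notMem i.1 j.1 s0 hij' ?_
    -- `p i s0` is a combination of `o` and `p j s0`
    have e0 := hTJ j s0
    have e1 : p i.1 s0 = (T' (p i.1 s0) / T' (p j.1 s0)) • p j.1 s0 +
        (Y' (p i.1 s0) - T' (p i.1 s0) / T' (p j.1 s0) * Y' (p j.1 s0)) • o := by
      have o0 : X' o = 0 := by
        show c⁻¹ • b.coord 0 o = 0
        rw [← hb1, Module.Basis.coord_apply, Module.Basis.repr_self]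
        simp
      have o1 : Y' o = 1 := by
        show b.coord 1 o = 1
        rw [← hb1, Module.Basis.coord_apply, Module.Basis.repr_self]
        simp
      have o2 : T' o = 0 := by
        show b.coord 2 o = 0
        rw [← hb1, Module.Basis.coord_apply, Module.Basis.repr_self]
        simp
      apply hrec
      · rw [map_add, map_smul, map_smul, o0, hγ i _ (h.mem i.1 s0), hγ j _ (h.mem j.1 s0), hij,
          smul_eq_mul, smul_eq_mul]
        field_simp
        ring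
      · rw [map_add, map_smul, map_smul, o1, smul_eq_mul, smul_eq_mul]
        ring
      · rw [map_add, map_smul, map_smul, o2, smul_eq_mul, smul_eq_mul]
        field_simp
        ring
    rw [e1]
    exact (M j.1).add_mem ((M j.1).smul_mem _ (h.mem _ _)) ((M j.1).smul_mem _ j.2.2)
  -- heights
  let y₁ : Fin l → ℂ := fun s => Y' (p i₁ s) / T' (p i₁ s)
  let y₂ : Fin l → ℂ := fun s => Y' (p i₂ s) / X' (p i₂ s)
  let y : J → Fin l → ℂ := fun i s => Y' (p i.1 s) / T' (p i.1 s)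
  have hy₁ : Function.Injective y₁ := by
    intro s t hst
    by_contra hst'
    refine h.indep i₁ s t hst' (Submodule.mem_span_singleton.2
      ⟨T' (p i₁ t) / T' (p i₁ s), ?_⟩)
    have e1 := hT1 s
    have e2 := hT1 t
    have e3 : Y' (p i₁ s) / T' (p i₁ s) = Y' (p i₁ t) / T' (p i₁ t) := hst
    apply hrec
    · rw [map_smul, hX1', hX1', smul_zero]
    · rw [map_smul, smul_eq_mul]
      rw [div_eq_div_iff e1 e2] at e3
      field_simp
      linear_combination e3
    · rw [map_smul, smul_eq_mul]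
      field_simp
  have hya : ∀ (i : J) s, y i s = y₁ s + γ i * y₂ (α i.1 s) := by
    intro i s
    obtain ⟨a, b', hab⟩ := Submodule.mem_span_pair.1 (hd.ha i.1 i.2.1.1 i.2.1.2 s)
    refine Cen_a (a := a) (b := b') (hT1 s) (hTJ i s) (hX2 _) ?_ ?_ ?_
    · have := congrArg T' hab
      rwa [map_add, map_smul, map_smul, smul_eq_mul, smul_eq_mul, hT2'] at this
    · have := congrArg X' hab
      rwa [map_add, map_smul, map_smul, smul_eq_mul, smul_eq_mul, hX1', mul_zero, zero_add,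
        hγ i _ (h.mem i.1 s)] at this
    · have := congrArg Y' hab
      rwa [map_add, map_smul, map_smul, smul_eq_mul, smul_eq_mul] at this
  have hyb : ∀ i j : J, i ≠ j → ∀ s, y i s - y j s = (γ i - γ j) * y₂ (δ i.1 j.1 s) := by
    intro i j hij s
    have hij' : i.1 ≠ j.1 := fun e => hij (Subtype.ext e)
    obtain ⟨a, b', hab⟩ := Submodule.mem_span_pair.1
      (hd.hb i.1 j.1 hij' i.2.1.1 i.2.1.2 j.2.1.1 j.2.1.2 s)
    refine Cen_b (a := a) (b := b') (hTJ i s) (hTJ j s) (hX2 _) ?_ ?_ ?_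
    · have := congrArg T' hab
      rwa [map_add, map_smul, map_smul, smul_eq_mul, smul_eq_mul, hT2'] at this
    · have := congrArg X' hab
      rwa [map_add, map_smul, map_smul, smul_eq_mul, smul_eq_mul, hγ i _ (h.mem i.1 s),
        hγ j _ (h.mem j.1 s)] at this
    · have := congrArg Y' hab
      rwa [map_add, map_smul, map_smul, smul_eq_mul, smul_eq_mul] at this
  have hyc : ∀ i j : J, i ≠ j → ∀ s, γ j * y i s - γ i * y j ((α j.1)⁻¹ (α i.1 s)) =
      (γ j - γ i) * y₁ ((α j.1)⁻¹ (δ i.1 j.1 s)) := by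
    intro i j hij s
    have hij' : i.1 ≠ j.1 := fun e => hij (Subtype.ext e)
    obtain ⟨a, b', hab⟩ := Submodule.mem_span_pair.1
      (hd.hc i.1 j.1 hij' i.2.1.1 i.2.1.2 j.2.1.1 j.2.1.2 s)
    refine Cen_c (a := a) (b := b') (hTJ i s) (hTJ j _) (hT1 _) (hγ0 j) ?_ ?_ ?_
    · have := congrArg T' hab
      rwa [map_add, map_smul, map_smul, smul_eq_mul, smul_eq_mul] at this
    · have := congrArg X' hab
      rwa [map_add, map_smul, map_smul, smul_eq_mul, smul_eq_mul, hX1', hγ i _ (h.mem i.1 s),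
        hγ j _ (h.mem j.1 _)] at this
    · have := congrArg Y' hab
      rwa [map_add, map_smul, map_smul, smul_eq_mul, smul_eq_mul] at this
  have hps := loc_power_sums j₃ γ hγi hγ0 hγ1 (fun i => α i.1) (fun i j => δ i.1 j.1) hd.one
    (fun i j hij => hd.com i.1 j.1 (fun e => hij (Subtype.ext e)) i.2.1.1 i.2.1.2 j.2.1.1 j.2.1.2)
    (fun i j hij => hd.com' i.1 j.1 (fun e => hij (Subtype.ext e)) i.2.1.1 i.2.1.2 j.2.1.1 j.2.1.2)
    y₁ y₂ hy₁ y hya hyb hyc
  -- the form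
  let R := {i : Fin k // o ∈ M i}
  let cc : R → Fin 2 → ℂ := fun i => if i.1 = i₁ then ![0, 1] else if i.1 = i₂ then ![1, 0] else
    ![X' (p i.1 s0) / T' (p i.1 s0), 1]
  let yy : R → Fin l → ℂ := fun i s => if i.1 = i₂ then y₂ s else Y' (p i.1 s) / T' (p i.1 s)
  obtain ⟨Φ, hΦ1, hΦ2, hΦ3⟩ := form_of_power_sums cc yy (by
    intro q
    obtain ⟨P, hP1, hP2, hP3, hP4⟩ := hps q
    obtain ⟨H, hH1, hH2, hH3⟩ := Cen_homog q P hP1
    refine ⟨H, hH1, fun i => ?_⟩
    by_cases hi1 : i.1 = i₁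
    · have e1 : cc i = ![0, 1] := if_pos hi1
      have e2 : yy i = y₁ := by
        funext s
        show (if i.1 = i₂ then y₂ s else Y' (p i.1 s) / T' (p i.1 s)) = y₁ s
        rw [if_neg (by rw [hi1]; exact h12), hi1]
      rw [e1, e2, hH2, hP2]
    by_cases hi2 : i.1 = i₂
    · have e1 : cc i = ![1, 0] := by
        show (if i.1 = i₁ then ![0, 1] else if i.1 = i₂ then ![1, 0] else
          ![X' (p i.1 s0) / T' (p i.1 s0), 1]) = ![1, 0]
        rw [if_neg hi1, if_pos hi2]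
      have e2 : yy i = y₂ := by
        funext s
        exact if_pos hi2
      rw [e1, e2, hH3, hP3]
    · have e1 : cc i = ![γ ⟨i.1, ⟨hi1, hi2⟩, i.2⟩, 1] := by
        show (if i.1 = i₁ then ![0, 1] else if i.1 = i₂ then ![1, 0] else
          ![X' (p i.1 s0) / T' (p i.1 s0), 1]) = _
        rw [if_neg hi1, if_neg hi2]
      have e2 : yy i = y ⟨i.1, ⟨hi1, hi2⟩, i.2⟩ := by
        funext s
        exact if_neg hi2
      rw [e1, e2, hH2, hP4])
  obtain ⟨e, he1, he2⟩ := exists_subst (LinearMap.pi ![Y', X', T'])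
  refine ⟨e Φ, he2 Φ l hΦ1, fun i hi => ⟨fun s => ?_, o, hi, ?_⟩⟩
  · rw [he1]
    -- the coordinates of `p i s` are a multiple of `(yy, cc)`
    obtain ⟨t, ht⟩ : ∃ t : ℂ, (LinearMap.pi ![Y', X', T']) (p i s) =
        t • ![yy ⟨i, hi⟩ s, cc ⟨i, hi⟩ 0, cc ⟨i, hi⟩ 1] := by
      by_cases hi1 : i = i₁
      · subst hi1
        refine ⟨T' (p i s), ?_⟩
        have e1 : cc ⟨i, hi⟩ = ![0, 1] := if_pos rfl
        have e2 : yy ⟨i, hi⟩ s = y₁ s := if_neg h12
        rw [e1, e2]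
        have e3 := hT1 s
        funext a
        fin_cases a
        · show Y' (p i s) = T' (p i s) * (Y' (p i s) / T' (p i s))
          field_simp
        · show X' (p i s) = T' (p i s) * 0
          rw [hX1', mul_zero]
        · show T' (p i s) = T' (p i s) * 1
          rw [mul_one]
      by_cases hi2 : i = i₂
      · subst hi2
        refine ⟨X' (p i s), ?_⟩
        have e1 : cc ⟨i, hi⟩ = ![1, 0] := by
          show (if i = i₁ then ![0, 1] else if i = i then ![1, 0] else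
            ![X' (p i s0) / T' (p i s0), 1]) = ![1, 0]
          rw [if_neg hi1, if_pos rfl]
        have e2 : yy ⟨i, hi⟩ s = y₂ s := if_pos rfl
        rw [e1, e2]
        have e3 := hX2 s
        funext a
        fin_cases a
        · show Y' (p i s) = X' (p i s) * (Y' (p i s) / X' (p i s))
          field_simp
        · show X' (p i s) = X' (p i s) * 1
          rw [mul_one]
        · show T' (p i s) = X' (p i s) * 0
          rw [hT2', mul_zero]
      · refine ⟨T' (p i s), ?_⟩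
        have e1 : cc ⟨i, hi⟩ = ![γ ⟨i, ⟨hi1, hi2⟩, hi⟩, 1] := by
          show (if i = i₁ then ![0, 1] else if i = i₂ then ![1, 0] else
            ![X' (p i s0) / T' (p i s0), 1]) = _
          rw [if_neg hi1, if_neg hi2]
        have e2 : yy ⟨i, hi⟩ s = Y' (p i s) / T' (p i s) := if_neg hi2
        rw [e1, e2]
        have e3 := hTJ ⟨i, ⟨hi1, hi2⟩, hi⟩ s
        funext a
        fin_cases a
        · show Y' (p i s) = T' (p i s) * (Y' (p i s) / T' (p i s))
          exact (mul_div_cancel₀ _ e3).symm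
        · show X' (p i s) = T' (p i s) * γ ⟨i, ⟨hi1, hi2⟩, hi⟩
          rw [hγ ⟨i, ⟨hi1, hi2⟩, hi⟩ _ (h.mem i s), mul_comm]
        · show T' (p i s) = T' (p i s) * 1
          rw [mul_one]
    rw [ht]
    have e5 := hΦ3 ⟨i, hi⟩ (yy ⟨i, hi⟩ s)
    rw [Finset.prod_eq_zero (Finset.mem_univ s) (sub_self _)] at e5
    rw [Cen_eval_smul hΦ1, e5, mul_zero]
  · rw [he1]
    have o0 : X' o = 0 := by
      show c⁻¹ • b.coord 0 o = 0
      rw [← hb1, Module.Basis.coord_apply, Module.Basis.repr_self]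
      simp
    have o1 : Y' o = 1 := by
      show b.coord 1 o = 1
      rw [← hb1, Module.Basis.coord_apply, Module.Basis.repr_self]
      simp
    have o2 : T' o = 0 := by
      show b.coord 2 o = 0
      rw [← hb1, Module.Basis.coord_apply, Module.Basis.repr_self]
      simp
    have e1 : (LinearMap.pi ![Y', X', T']) o = ![1, 0, 0] := by
      funext a
      fin_cases a
      · exact o1
      · exact o0
      · exact o2
    rw [e1, hΦ2]
    exact one_ne_zero

end Pool.Agent.Gep26
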