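import Mathlib

/-! # A good chart in the plane

Coordinates `(Y, X, T) = (v 0, v 1, v 2)`.  Add to `S` a nonzero vector of every `M i`.  A finite union of proper
subspaces is not the whole space, so there is a linear form `τ` which is not `0` at any vector of `S`.
`M i ≠ ker τ`, both have dimension 2, so there is `w ∈ ker τ` in none of the `M i`.  Take a basis `(w, x, t)`
with `x ∈ ker τ` and `g` the coordinates in this basis. -/

set_option autoImplicit false

noncomputable section

namespace Pool.Agent.Gep26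

/-- a subspace is not contained in a finite union of subspaces which do not contain it -/
theorem exists_avoid {E ι : Type*} [AddCommGroup E] [Module ℂ E] [Finite ι] (U : Submodule ℂ E)
    (p : ι → Submodule ℂ E) (h : ∀ i, ¬ U ≤ p i) : ∃ w ∈ U, ∀ i, w ∉ p i := by
  by_contra hcon
  push Not at hcon
  have hcov : ⋃ i, (((p i).comap U.subtype : Submodule ℂ U) : Set U) = Set.univ := by
    refine Set.eq_univ_of_forall fun w => ?_
    obtain ⟨i, hi⟩ := hcon w w.2
    exact Set.mem_iUnion.2 ⟨i, hi⟩
  obtain ⟨i, hi⟩ := Subspace.exists_eq_top_of_iUnion_eq_univ hcov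
  apply h i
  intro w hw
  have : (⟨w, hw⟩ : U) ∈ (p i).comap U.subtype := by rw [hi]; trivial
  exact this

/-- a linear form which does not vanish at finitely many nonzero vectors -/
theorem exists_dual_avoid {E ι : Type*} [AddCommGroup E] [Module ℂ E] [Finite ι] (v : ι → E)
    (hv : ∀ i, v i ≠ 0) : ∃ τ : Module.Dual ℂ E, ∀ i, τ (v i) ≠ 0 := by
  obtain ⟨τ, _, hτ⟩ := exists_avoid (⊤ : Submodule ℂ (Module.Dual ℂ E))
    (fun i => LinearMap.ker (Module.Dual.eval ℂ E (v i))) (by
      intro i hle
      obtain ⟨f, hf⟩ := Module.Projective.exists_dual_ne_zero ℂ (hv i)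
      exact hf (hle (Submodule.mem_top (x := f))))
  exact ⟨τ, fun i hi => hτ i hi⟩

/-- a subspace of codimension one is the kernel of a linear form -/
theorem exists_dual_ker {n : ℕ} (M : Submodule ℂ (Fin (n + 1) → ℂ)) (hM : Module.finrank ℂ M = n) :
    ∃ μ : Module.Dual ℂ (Fin (n + 1) → ℂ), μ ≠ 0 ∧ LinearMap.ker μ = M := by
  have hlt : M < ⊤ := by
    rw [lt_top_iff_ne_top]
    intro h
    rw [h, finrank_top] at hM
    simp at hM
  obtain ⟨μ, hμ0, hμ⟩ := Submodule.exists_le_ker_of_lt_top M hlt
  have hk := Module.Dual.finrank_ker_add_one_of_ne_zero hμ0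
  rw [Module.finrank_fin_fun] at hk
  exact ⟨μ, hμ0, (Submodule.eq_of_le_of_finrank_eq hμ (by omega)).symm⟩

theorem exists_chart {k : ℕ} (M : Fin k → Submodule ℂ (Fin 3 → ℂ))
    (hM : ∀ i, Module.finrank ℂ (M i) = 2) (S : Finset (Fin 3 → ℂ)) (hS : ∀ v ∈ S, v ≠ 0) :
    ∃ g : (Fin 3 → ℂ) ≃ₗ[ℂ] (Fin 3 → ℂ), (∀ v ∈ S, g v 2 ≠ 0) ∧
      ∀ i, ∃ m n : ℂ, ∀ v, v ∈ M i ↔ g v 0 = m * g v 1 + n * g v 2 := by
  classical
  -- nonzero vectors in the lines
  have ha : ∀ i, ∃ a ∈ M i, a ≠ 0 := by
    intro i
    have : M i ≠ ⊥ := by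
      intro h
      have := hM i
      rw [h, finrank_bot] at this
      omega
    exact Submodule.exists_mem_ne_zero_of_ne_bot this
  choose a haM ha0 using ha
  -- the linear form
  obtain ⟨τ, hτ⟩ := exists_dual_avoid
    (fun j : Option (S ⊕ Fin k) => match j with
      | none => (Pi.single 0 1 : Fin 3 → ℂ)
      | some (Sum.inl v) => v.1
      | some (Sum.inr i) => a i) (by
      rintro (_ | v | i)
      · intro h
        have := congrFun h 0
        simp at this
      · exact hS v.1 v.2
      · exact ha0 i)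
  have hτt := hτ none
  have hτS : ∀ v ∈ S, τ v ≠ 0 := fun v hv => hτ (some (Sum.inl ⟨v, hv⟩))
  have hτa : ∀ i, τ (a i) ≠ 0 := fun i => hτ (some (Sum.inr i))
  simp only at hτt
  set t : Fin 3 → ℂ := Pi.single 0 1 with ht
  have hτ0 : τ ≠ 0 := fun h => hτt (by rw [h]; rfl)
  have hker : Module.finrank ℂ (LinearMap.ker τ) = 2 := by
    have hk := Module.Dual.finrank_ker_add_one_of_ne_zero hτ0
    rw [Module.finrank_fin_fun] at hk
    omega
  -- the direction `w`
  obtain ⟨w, hwτ, hw⟩ := exists_avoid (LinearMap.ker τ)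
    (fun j : Option (Fin k) => match j with
      | none => (⊥ : Submodule ℂ (Fin 3 → ℂ))
      | some i => M i) (by
      rintro (_ | i)
      · intro h
        have := Submodule.finrank_mono h
        rw [hker, finrank_bot] at this
        omega
      · intro h
        have h1 := Submodule.eq_of_le_of_finrank_eq h (by rw [hker, hM])
        have h2 : a i ∈ LinearMap.ker τ := h1 ▸ haM i
        exact hτa i h2)
  have hw0 : w ≠ 0 := by
    have := hw none
    simpa using this
  have hwM : ∀ i, w ∉ M i := fun i => hw (some i)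
  -- the direction `x`
  obtain ⟨x, hxτ, hx⟩ := exists_avoid (LinearMap.ker τ)
    (fun _ : Unit => Submodule.span ℂ {w}) (by
      intro _ h
      have := Submodule.finrank_mono h
      rw [hker] at this
      have h1 := finrank_span_singleton (K := ℂ) hw0
      omega)
  have hxw := hx ()
  have hli : LinearIndependent ℂ ![w, x, t] := by
    rw [Fintype.linearIndependent_iff]
    intro c hc
    rw [Fin.sum_univ_three] at hc
    simp only [Matrix.cons_val_zero, Matrix.cons_val_one, Matrix.cons_val_two, Matrix.tail_cons,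
      Matrix.head_cons] at hc
    have h1 := congrArg τ hc
    rw [map_add, map_add, map_smul, map_smul, map_smul, map_zero, LinearMap.mem_ker.1 hwτ,
      LinearMap.mem_ker.1 hxτ] at h1
    have hc2 : c 2 = 0 := by
      simp only [smul_eq_mul, mul_zero, zero_add] at h1
      exact (mul_eq_zero.1 h1).resolve_right hτt
    rw [hc2, zero_smul, add_zero] at hc
    have hc1 : c 1 = 0 := by
      by_contra hne
      apply hxw
      rw [Submodule.mem_span_singleton]
      refine ⟨-(c 1)⁻¹ * c 0, ?_⟩
      have h2 : c 1 • x = -(c 0 • w) := by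
        rw [eq_neg_iff_add_eq_zero, add_comm]; exact hc
      calc (-(c 1)⁻¹ * c 0) • w = (c 1)⁻¹ • (-(c 0 • w)) := by
            rw [smul_neg, smul_smul, ← neg_smul]; congr 1; ring
        _ = x := by rw [← h2, smul_smul, inv_mul_cancel₀ hne, one_smul]
    rw [hc1, zero_smul, add_zero] at hc
    have hc0 : c 0 = 0 := (smul_eq_zero.1 hc).resolve_right hw0
    intro i
    fin_cases i
    · exact hc0
    · exact hc1
    · exact hc2
  let b := basisOfLinearIndependentOfCardEqFinrank hli (by simp)
  have hb : ∀ v, v = b.equivFun v 0 • w + b.equivFun v 1 • x + b.equivFun v 2 • t := by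
    intro v
    have h1 := b.sum_equivFun v
    rw [Fin.sum_univ_three] at h1
    have e : ∀ i, b i = ![w, x, t] i := fun i => by
      simp [b]
    rw [e, e, e] at h1
    exact h1.symm
  refine ⟨b.equivFun, ?_, ?_⟩
  · intro v hv h0
    apply hτS v hv
    rw [hb v, h0, map_add, map_add, map_smul, map_smul, map_smul, LinearMap.mem_ker.1 hwτ,
      LinearMap.mem_ker.1 hxτ]
    simp
  · intro i
    obtain ⟨μ, hμ0, hμ⟩ := exists_dual_ker (M i) (hM i)
    have hμw : μ w ≠ 0 := by
      intro h
      apply hwM i
      rw [← hμ]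
      exact h
    refine ⟨-(μ x / μ w), -(μ t / μ w), fun v => ?_⟩
    rw [← hμ, LinearMap.mem_ker]
    have h1 : μ v = b.equivFun v 0 * μ w + b.equivFun v 1 * μ x + b.equivFun v 2 * μ t := by
      conv_lhs => rw [hb v]
      rw [map_add, map_add, map_smul, map_smul, map_smul]
      simp only [smul_eq_mul]
    rw [h1]
    constructor
    · intro h
      field_simp
      linear_combination h
    · intro h
      rw [h]
      field_simp
      ring

end Pool.Agent.Gep26
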