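import Mathlib

/-! # Geproci sets, half grids, weak combinatorial equivalence: definitions

`ℙ³` and `ℙ²` are `Projectivization ℂ (Fin 4 → ℂ)` and `Projectivization ℂ (Fin 3 → ℂ)`; a point `z` is
the line `z.submodule`.  A projection from the point `[v]` is a linear map `π : ℂ⁴ → ℂ³` with kernel
`ℂ v` (all choices of a plane `H` and of coordinates on it are of this form). -/

set_option autoImplicit false

noncomputable section

namespace Pool.Agent.Gep26

open MvPolynomial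

/-- The projective space `ℙ³` over `ℂ`. -/
abbrev P3 : Type := Projectivization ℂ (Fin 4 → ℂ)

/-- The projective plane `ℙ²` over `ℂ`. -/
abbrev P2 : Type := Projectivization ℂ (Fin 3 → ℂ)

/-- The image of `Z` under the projection `π`. -/
def proj (π : (Fin 4 → ℂ) →ₗ[ℂ] (Fin 3 → ℂ)) (Z : Set (P3)) : Set (P2) :=
  {q | ∃ z ∈ Z, q.submodule = z.submodule.map π}

/-- The ideal of all polynomials which vanish on the cone over `W`. -/
def coneIdeal (W : Set (P2)) : Ideal (MvPolynomial (Fin 3) ℂ) where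
  carrier := {H | ∀ q ∈ W, ∀ v ∈ q.submodule, eval v H = 0}
  add_mem' := by
    intro a b ha hb q hq v hv
    rw [map_add, ha q hq v hv, hb q hq v hv, add_zero]
  zero_mem' := by
    intro q _ v _
    exact map_zero _
  smul_mem' := by
    intro c a ha q hq v hv
    rw [smul_eq_mul, map_mul, ha q hq v hv, mul_zero]

theorem mem_coneIdeal {W : Set (P2)} {H : MvPolynomial (Fin 3) ℂ} :
    H ∈ coneIdeal W ↔ ∀ q ∈ W, ∀ v ∈ q.submodule, eval v H = 0 := Iff.rfl

/-- `W` is the complete intersection of a curve of degree `a` and a curve of degree `b`: its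
homogeneous ideal is generated by forms of degrees `a` and `b`. -/
def IsCI (a b : ℕ) (W : Set (P2)) : Prop :=
  ∃ F G : MvPolynomial (Fin 3) ℂ, F.IsHomogeneous a ∧ G.IsHomogeneous b ∧
    Ideal.span {F, G} = coneIdeal W

/-- `Z` is `(a, b)`-geproci: for every centre `[v]` outside the zero set of a nonzero form `D`, the
centre is not in `Z` and the projection of `Z` from it is a complete intersection of degrees
`a`, `b`. -/
def Geproci (a b : ℕ) (Z : Set (P3)) : Prop :=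
  ∃ (D : MvPolynomial (Fin 4) ℂ) (d : ℕ), D ≠ 0 ∧ D.IsHomogeneous d ∧
    ∀ v : Fin 4 → ℂ, v ≠ 0 → eval v D ≠ 0 → (∀ z ∈ Z, v ∉ z.submodule) ∧
      ∀ π : (Fin 4 → ℂ) →ₗ[ℂ] (Fin 3 → ℂ), LinearMap.ker π = Submodule.span ℂ {v} →
        IsCI a b (proj π Z)

/-- The linear span of a set of points. -/
def lspan (S : Set (P3)) : Submodule ℂ (Fin 4 → ℂ) := ⨆ z ∈ S, z.submodule

/-- Weak combinatorial equivalence: there is a bijection `f` from `Z` to `Z'` such that for all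
subsets `S` of `Z` which span a line, `f` is a bijection from `⟨S⟩ ∩ Z` to `⟨f(S)⟩ ∩ Z'`. -/
def WeaklyEquivalent (Z Z' : Set (P3)) : Prop :=
  ∃ f : P3 → P3, Set.BijOn f Z Z' ∧ ∀ S ⊆ Z, Module.finrank ℂ (lspan S) = 2 →
    Set.BijOn f {z | z ∈ Z ∧ z.submodule ≤ lspan S} {z | z ∈ Z' ∧ z.submodule ≤ lspan (f '' S)}

/-- Half grid: `Z` lies on the pairwise skew lines `L i`, `i < k`, and each of them contains
exactly `l` points of `Z`. -/
structure IsHalfGrid (k l : ℕ) (Z : Set (P3)) (L : Fin k → Submodule ℂ (Fin 4 → ℂ)) : Prop where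
  rank : ∀ i, Module.finrank ℂ (L i) = 2
  skew : ∀ i j, i ≠ j → Disjoint (L i) (L j)
  cover : ∀ z ∈ Z, ∃ i, z.submodule ≤ L i
  card : ∀ i, {z | z ∈ Z ∧ z.submodule ≤ L i}.ncard = l

/-- Every point of `Z` on one of the lines is collinear with points of `Z` on any two others. -/
def HasTransversals {k : ℕ} (Z : Set (P3)) (L : Fin k → Submodule ℂ (Fin 4 → ℂ)) : Prop :=
  ∀ i j m, i ≠ j → j ≠ m → i ≠ m → ∀ z ∈ Z, z.submodule ≤ L i →
    ∃ z' ∈ Z, ∃ z'' ∈ Z, z'.submodule ≤ L j ∧ z''.submodule ≤ L m ∧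
      z''.submodule ≤ z.submodule ⊔ z'.submodule

/-! ## Internal notions: coordinates -/

/-- A configuration of `k` pairwise skew lines with `l` points (given by vectors) on each. -/
structure SConf {k l : ℕ} (L : Fin k → Submodule ℂ (Fin 4 → ℂ)) (z : Fin k → Fin l → Fin 4 → ℂ) :
    Prop where
  rank : ∀ i, Module.finrank ℂ (L i) = 2
  skew : ∀ i j, i ≠ j → Disjoint (L i) (L j)
  mem : ∀ i s, z i s ∈ L i
  ne : ∀ i s, z i s ≠ 0
  indep : ∀ i s t, s ≠ t → z i t ∉ Submodule.span ℂ {z i s}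

/-- Transversals in the form of permutations, for points in any space `E`. -/
def Trans {k l : ℕ} {E : Type} [AddCommGroup E] [Module ℂ E] (z : Fin k → Fin l → E) : Prop :=
  ∀ i j m, i ≠ j → j ≠ m → i ≠ m → ∃ σ τ : Equiv.Perm (Fin l), ∀ s,
    z m (τ s) ∈ Submodule.span ℂ {z i s, z j (σ s)}

/-- A configuration of `k` lines in the plane with `l` points on each, not on the other lines. -/
structure PConf {k l : ℕ} (M : Fin k → Submodule ℂ (Fin 3 → ℂ)) (p : Fin k → Fin l → Fin 3 → ℂ) :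
    Prop where
  rank : ∀ i, Module.finrank ℂ (M i) = 2
  mem : ∀ i s, p i s ∈ M i
  notMem : ∀ i j s, i ≠ j → p i s ∉ M j
  indep : ∀ i s t, s ≠ t → p i t ∉ Submodule.span ℂ {p i s}

/-- The form `Φ` vanishes at the points of line `i` but not on the line. -/
def Good {k l : ℕ} (M : Fin k → Submodule ℂ (Fin 3 → ℂ)) (p : Fin k → Fin l → Fin 3 → ℂ)
    (Φ : MvPolynomial (Fin 3) ℂ) (i : Fin k) : Prop :=
  (∀ s, eval (p i s) Φ = 0) ∧ ∃ x ∈ M i, eval x Φ ≠ 0

/-- The set of points given by the vectors `p i s`. -/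
def pts {k l : ℕ} {E : Type} [AddCommGroup E] [Module ℂ E] (p : Fin k → Fin l → E) :
    Set (Projectivization ℂ E) :=
  {q | ∃ i s, q.submodule = Submodule.span ℂ {p i s}}

/-- Lines `j ≠ i₁, i₂` are compared with the lines `i₁`, `i₂`, `i₃` by permutations `α j`, `δ i j` of
the points: three families of collinear points. -/
structure SData {k l : ℕ} {E : Type} [AddCommGroup E] [Module ℂ E] (z : Fin k → Fin l → E)
    (i₁ i₂ i₃ : Fin k) (α : Fin k → Equiv.Perm (Fin l)) (δ : Fin k → Fin k → Equiv.Perm (Fin l)) :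
    Prop where
  one : α i₃ = 1
  com : ∀ i j, i ≠ j → i ≠ i₁ → i ≠ i₂ → j ≠ i₁ → j ≠ i₂ →
    Commute ((α j)⁻¹ * α i) ((α j)⁻¹ * δ i j)
  com' : ∀ i j, i ≠ j → i ≠ i₁ → i ≠ i₂ → j ≠ i₁ → j ≠ i₂ →
    Commute (α i * (α j)⁻¹) (δ i j * (α j)⁻¹)
  ha : ∀ j, j ≠ i₁ → j ≠ i₂ → ∀ s, z i₂ (α j s) ∈ Submodule.span ℂ {z i₁ s, z j s}
  hb : ∀ i j, i ≠ j → i ≠ i₁ → i ≠ i₂ → j ≠ i₁ → j ≠ i₂ → ∀ s,
    z i₂ (δ i j s) ∈ Submodule.span ℂ {z i s, z j s}
  hc : ∀ i j, i ≠ j → i ≠ i₁ → i ≠ i₂ → j ≠ i₁ → j ≠ i₂ → ∀ s,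
    z i₁ ((α j)⁻¹ (δ i j s)) ∈ Submodule.span ℂ {z i s, z j ((α j)⁻¹ (α i s))}

end Pool.Agent.Gep26
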