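import Pool.Agent.W_51eaa9_h26.Tri
import Pool.Agent.W_51eaa9_h26.Coo

/-! # Skew lines with transversals are geproci

`conc_form`: `ℂ⁴ = L i ⊕ L j = L i ⊕ L m`; let `a(v)`, `b(v) ∈ L i` be the components of `v` in `L i`.  If `o ≠ 0` is in all three
images under `π`, `ker π = span {v}`, then `o = π x = π y = π u` with `x ∈ L i`, `y ∈ L j`, `u ∈ L m`, so `v = c (x - y) = c' (x - u)`
(`x ≠ y`, `x ≠ u`), and `a(v) = c x`, `b(v) = c' x` are proportional: the quadratic form `D = a_1 b_2 - a_2 b_1` (coordinates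
on `L i`) vanishes at `v`.  It is not `0`: for `y ∈ L j`, `x ∈ L i` and `v = x + y` `a(v) = x`, `b(v) = x + b(y)`, and `b` is bijective
from `L j` to `L i` (`L j ⊓ L m = 0`), so `b(y)` is not proportional to `x` for suitable `y`.

`geproci_of_trans`: `D` is the product of the `D` of `conc_form` for all triples and of the linear forms of `exists_linear`
for the planes `L j ⊔ span {z i s}`, `i ≠ j`.  `pconf_proj`, `proj_pts`, the images of the transversals (`Trans` for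
`π ∘ z`), `conf_ci` with empty hypothesis `H`. -/

set_option autoImplicit false

noncomputable section

namespace Pool.Agent.Gep26

open MvPolynomial

theorem conc_form {Li Lj Lm : Submodule ℂ (Fin 4 → ℂ)} (hi : Module.finrank ℂ Li = 2)
    (hj : Module.finrank ℂ Lj = 2) (hm : Module.finrank ℂ Lm = 2) (hij : Disjoint Li Lj)
    (hjm : Disjoint Lj Lm) (him : Disjoint Li Lm) :
    ∃ D : MvPolynomial (Fin 4) ℂ, D ≠ 0 ∧ D.IsHomogeneous 2 ∧ ∀ v : Fin 4 → ℂ, eval v D ≠ 0 →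
      ∀ π : (Fin 4 → ℂ) →ₗ[ℂ] (Fin 3 → ℂ), LinearMap.ker π = Submodule.span ℂ {v} →
        ∀ o, o ∈ Li.map π → o ∈ Lj.map π → o ∈ Lm.map π → o = 0 := by
  obtain ⟨ei, hei, rfl⟩ := exists_coord1 hi
  obtain ⟨ej, hej, rfl⟩ := exists_coord1 hj
  obtain ⟨em, hem, rfl⟩ := exists_coord1 hm
  obtain ⟨a, a', ha⟩ := exists_coord2 hei hej hij
  obtain ⟨b, b', hb⟩ := exists_coord2 hei hem him
  have ha1 : ∀ x y, a (ei x + ej y) = x := fun x y =>
    (coord_unique hei hej hij (ha (ei x + ej y)).symm).1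
  have hb1 : ∀ x y, b (ei x + em y) = x := fun x y =>
    (coord_unique hei hem him (hb (ei x + em y)).symm).1
  have hev : ∀ v, eval v (lf (LinearMap.proj 0 ∘ₗ a) * lf (LinearMap.proj 1 ∘ₗ b) -
      lf (LinearMap.proj 1 ∘ₗ a) * lf (LinearMap.proj 0 ∘ₗ b)) =
      a v 0 * b v 1 - a v 1 * b v 0 := by
    intro v
    rw [map_sub, map_mul, map_mul, eval_lf, eval_lf, eval_lf, eval_lf]
    rfl
  refine ⟨lf (LinearMap.proj 0 ∘ₗ a) * lf (LinearMap.proj 1 ∘ₗ b) -
    lf (LinearMap.proj 1 ∘ₗ a) * lf (LinearMap.proj 0 ∘ₗ b), ?_, ?_, ?_⟩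
  · intro h0
    have hT : Function.Injective (b ∘ₗ ej) := by
      rw [injective_iff_map_eq_zero]
      intro y hy
      have h1 : ej y = em (b' (ej y)) := by
        have h2 := hb (ej y)
        have h3 : b (ej y) = 0 := hy
        rw [h3, map_zero, zero_add] at h2
        exact h2
      have h2 : ej y = 0 := by
        refine Submodule.disjoint_def.1 hjm _ ⟨y, rfl⟩ ?_
        rw [h1]
        exact ⟨_, rfl⟩
      exact hej (h2.trans (map_zero ej).symm)
    obtain ⟨y, hy⟩ := (LinearMap.injective_iff_surjective.1 hT) ![0, 1]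
    have hy' : b (ej y) = ![0, 1] := hy
    have h1 := hev (ei ![1, 0] + ej y)
    have h2 : b (ei ![1, 0]) = ![1, 0] := by
      have := hb1 ![1, 0] 0
      rwa [map_zero, add_zero] at this
    rw [h0, map_zero, ha1, map_add, h2, hy'] at h1
    norm_num at h1
  · have h := ((lf_hom (LinearMap.proj 0 ∘ₗ a)).mul (lf_hom (LinearMap.proj 1 ∘ₗ b))).sub
      ((lf_hom (LinearMap.proj 1 ∘ₗ a)).mul (lf_hom (LinearMap.proj 0 ∘ₗ b)))
    exact h
  · rintro v hv π hπ o ⟨_, ⟨x, rfl⟩, hx⟩ ⟨_, ⟨y, rfl⟩, hy⟩ ⟨_, ⟨u, rfl⟩, hu⟩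
    rw [hev] at hv
    have h1 : ei x - ej y ∈ Submodule.span ℂ {v} := by
      rw [← hπ, LinearMap.mem_ker, map_sub, hx, hy, sub_self]
    have h2 : ei x - em u ∈ Submodule.span ℂ {v} := by
      rw [← hπ, LinearMap.mem_ker, map_sub, hx, hu, sub_self]
    obtain ⟨c, hc⟩ := Submodule.mem_span_singleton.1 h1
    obtain ⟨c', hc'⟩ := Submodule.mem_span_singleton.1 h2
    have h3 : c • a v = x := by
      rw [← map_smul, hc, sub_eq_add_neg, ← map_neg, ha1]
    have h4 : c' • b v = x := by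
      rw [← map_smul, hc', sub_eq_add_neg, ← map_neg, hb1]
    have h5 : (a v 0 * b v 1 - a v 1 * b v 0) * (c * c') = 0 := by
      have e0 : c * a v 0 = x 0 := congrFun h3 0
      have e1 : c * a v 1 = x 1 := congrFun h3 1
      have f0 : c' * b v 0 = x 0 := congrFun h4 0
      have f1 : c' * b v 1 = x 1 := congrFun h4 1
      calc (a v 0 * b v 1 - a v 1 * b v 0) * (c * c')
          = (c * a v 0) * (c' * b v 1) - (c * a v 1) * (c' * b v 0) := by ring
        _ = 0 := by rw [e0, e1, f0, f1]; ring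
    have h6 : x = 0 := by
      rcases mul_eq_zero.1 h5 with h | h
      · exact absurd h hv
      · rcases mul_eq_zero.1 h with h | h
        · rw [← h3, h, zero_smul]
        · rw [← h4, h, zero_smul]
    rw [← hx, h6, map_zero, map_zero]

theorem Gen_mem_span {x y w : Fin 4 → ℂ} (π : (Fin 4 → ℂ) →ₗ[ℂ] (Fin 3 → ℂ))
    (h : x ∈ Submodule.span ℂ {y, w}) : π x ∈ Submodule.span ℂ {π y, π w} := by
  obtain ⟨a, b, rfl⟩ := Submodule.mem_span_pair.1 h
  rw [map_add, map_smul, map_smul]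
  exact Submodule.mem_span_pair.2 ⟨a, b, rfl⟩

theorem Gen_exists_ne {k : ℕ} (hk : 2 ≤ k) (i : Fin k) : ∃ j : Fin k, j ≠ i := by
  have : Nontrivial (Fin k) := Fin.nontrivial_iff_two_le.2 hk
  exact exists_ne i

theorem geproci_of_trans {k l : ℕ} (hk : 3 ≤ k) (hl : 1 ≤ l)
    {L : Fin k → Submodule ℂ (Fin 4 → ℂ)} {z : Fin k → Fin l → Fin 4 → ℂ} (h : SConf L z)
    (ht : Trans z) : Geproci k l (pts z) := by
  classical
  obtain ⟨D1, d1, hD1, hd1, hv1⟩ := Coo_planes h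
  have h2 : ∀ t : Fin k × Fin k × Fin k, ∃ (D : MvPolynomial (Fin 4) ℂ) (d : ℕ), D ≠ 0 ∧
      D.IsHomogeneous d ∧ ∀ v, eval v D ≠ 0 → t.1 ≠ t.2.1 → t.2.1 ≠ t.2.2 → t.1 ≠ t.2.2 →
        ∀ π : (Fin 4 → ℂ) →ₗ[ℂ] (Fin 3 → ℂ), LinearMap.ker π = Submodule.span ℂ {v} →
        ∀ o, o ∈ (L t.1).map π → o ∈ (L t.2.1).map π → o ∈ (L t.2.2).map π → o = 0 := by
    rintro ⟨i, j, m⟩
    by_cases hij : i ≠ j ∧ j ≠ m ∧ i ≠ m
    · obtain ⟨D, hD, hD1, hD2⟩ := conc_form (h.rank i) (h.rank j) (h.rank m)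
        (h.skew i j hij.1) (h.skew j m hij.2.1) (h.skew i m hij.2.2)
      exact ⟨D, 2, hD, hD1, fun v hv _ _ _ => hD2 v hv⟩
    · exact ⟨1, 0, one_ne_zero, isHomogeneous_one _ _, fun v _ h1 h2 h3 =>
        absurd ⟨h1, h2, h3⟩ hij⟩
  choose D2 d2 hD2 hd2 hv2 using h2
  obtain ⟨D3, d3, hD3, hd3, hv3⟩ := exists_prod D2 d2 hD2 hd2
  refine ⟨D1 * D3, d1 + d3, mul_ne_zero hD1 hD3, hd1.mul hd3, fun v _ hv => ?_⟩
  rw [map_mul] at hv
  have hp := hv1 v (left_ne_zero_of_mul hv)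
  have hc : ∀ t, eval v (D2 t) ≠ 0 := hv3 v (right_ne_zero_of_mul hv)
  have hspan : ∀ i s, v ∉ Submodule.span ℂ {z i s} := by
    intro i s hm
    obtain ⟨j, hj⟩ := Gen_exists_ne (by omega : 2 ≤ k) i
    exact hp i j s hj.symm (Submodule.mem_sup_right hm)
  have hvL : ∀ i, v ∉ L i := by
    intro i hm
    obtain ⟨j, hj⟩ := Gen_exists_ne (by omega : 2 ≤ k) i
    exact hp j i ⟨0, hl⟩ hj (Submodule.mem_sup_left hm)
  refine ⟨?_, ?_⟩
  · rintro q ⟨i, s, hq⟩ hm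
    rw [hq] at hm
    exact hspan i s hm
  · intro π hπ
    rw [proj_pts h.ne hspan hπ]
    have hnot : ∀ i j s, i ≠ j → z i s ∉ L j := by
      intro i j s hij hm
      exact h.ne i s (Submodule.disjoint_def.1 (h.skew i j hij) _ (h.mem i s) hm)
    refine conf_ci hk hl (pconf_proj h.rank h.mem hnot h.indep hvL hp hπ) ?_ ?_
    · intro i j m hij hjm him
      obtain ⟨σ, τ, hστ⟩ := ht i j m hij hjm him
      exact ⟨σ, τ, fun s => Gen_mem_span π (hστ s)⟩
    · rintro o ho ⟨i, j, m, hij, hjm, him, oi, oj, om⟩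
      exact absurd (hv2 (i, j, m) v (hc _) hij hjm him π hπ o oi oj om) ho

end Pool.Agent.Gep26
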