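import Pool.Agent.W_51eaa9_h48.GlueP

/-! # Gluing in the chart

Coordinates `(Y, X, T)`, lines `Y = m i X + n i T`; `restr` is the restriction to the line at `T = 1`, a
polynomial in `X`.  The proof is in `ℂ[X][Y]` (`W_51eaa9_h48/GlueP`), with the dehomogenization `dh`. -/

set_option autoImplicit false

noncomputable section

namespace Pool.Agent.Gep26

open Pool.Agent.W_51eaa9_h48

/-- Restriction to the line `Y = m X + n T` at `T = 1`. -/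
def restr (m n : ℂ) : MvPolynomial (Fin 3) ℂ →ₐ[ℂ] Polynomial ℂ :=
  MvPolynomial.aeval ![Polynomial.C m * Polynomial.X + Polynomial.C n, Polynomial.X, 1]

/-- The restriction of `Φ` is a nonzero multiple of `∏ s, (X - x s)`. -/
def GoodC {l : ℕ} (x : Fin l → ℂ) (m n : ℂ) (Φ : MvPolynomial (Fin 3) ℂ) : Prop :=
  ∃ c : ℂ, c ≠ 0 ∧ restr m n Φ = Polynomial.C c * ∏ s, (Polynomial.X - Polynomial.C (x s))

theorem restr_eq_dh (m n : ℂ) (Φ : MvPolynomial (Fin 3) ℂ) :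
    restr m n Φ = (dh Φ).eval (L m n) := dh_line m n Φ

theorem goodC_iff {l : ℕ} (x : Fin l → ℂ) (m n : ℂ) (Φ : MvPolynomial (Fin 3) ℂ) :
    GoodC x m n Φ ↔ GoodP x m n (dh Φ) := by
  unfold GoodC GoodP
  rw [restr_eq_dh]

theorem restr_natDegree {l : ℕ} (m n : ℂ) {Φ : MvPolynomial (Fin 3) ℂ} (hΦ : Φ.IsHomogeneous l) :
    (restr m n Φ).natDegree ≤ l := by
  rw [restr_eq_dh]
  exact natDegree_eval_line (LT_dh hΦ) m n

theorem restr_eval (m n u : ℂ) (Φ : MvPolynomial (Fin 3) ℂ) :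
    (restr m n Φ).eval u = MvPolynomial.eval ![m * u + n, u, 1] Φ := by
  rw [restr_eq_dh, dh_eval, eval_eval, eval_eval, eval_L, Polynomial.eval_C]

theorem glue {k l : ℕ} (m n : Fin k → ℂ) (hm : Function.Injective m) (x : Fin k → Fin l → ℂ)
    (hx : ∀ i j s, i ≠ j → m i * x i s + n i ≠ m j * x i s + n j)
    (H1 : ∀ i j r, i ≠ j → j ≠ r → i ≠ r →
      (¬ ∃ u, m i * u + n i = m j * u + n j ∧ m j * u + n j = m r * u + n r) →
      ∃ Φ : MvPolynomial (Fin 3) ℂ, Φ.IsHomogeneous l ∧ GoodC (x i) (m i) (n i) Φ ∧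
        GoodC (x j) (m j) (n j) Φ ∧ GoodC (x r) (m r) (n r) Φ)
    (H2 : ∀ u v, (∃ i j, i ≠ j ∧ v = m i * u + n i ∧ v = m j * u + n j) →
      ∃ Φ : MvPolynomial (Fin 3) ℂ, Φ.IsHomogeneous l ∧
        ∀ i, v = m i * u + n i → GoodC (x i) (m i) (n i) Φ) :
    ∃ F : MvPolynomial (Fin 3) ℂ, F.IsHomogeneous l ∧ ∀ i, GoodC (x i) (m i) (n i) F := by
  obtain ⟨F, hF, hF'⟩ := glueP m n hm x hx
    (by
      intro i j r hij hjr hir h
      obtain ⟨Φ, h1, h2, h3, h4⟩ := H1 i j r hij hjr hir h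
      exact ⟨dh Φ, LT_dh h1, (goodC_iff _ _ _ _).1 h2, (goodC_iff _ _ _ _).1 h3,
        (goodC_iff _ _ _ _).1 h4⟩)
    (by
      intro u v h
      obtain ⟨Φ, h1, h2⟩ := H2 u v h
      exact ⟨dh Φ, LT_dh h1, fun i hi => (goodC_iff _ _ _ _).1 (h2 i hi)⟩)
  obtain ⟨Φ, hΦ, hΦ'⟩ := exists_hom hF
  refine ⟨Φ, hΦ, fun i => (goodC_iff _ _ _ _).2 ?_⟩
  rw [hΦ']
  exact hF' i

end Pool.Agent.Gep26
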