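import Pool.Agent.W_51eaa9_h26.Main

/-! # Nontrivial half grids

The question Q1 for half grids in its original form: `Z` is not contained in a plane and not a grid. -/

set_option autoImplicit false

noncomputable section

namespace Pool.Agent.Gep26

/-- Grids: the points `L i ∩ M j` for `a` pairwise disjoint lines `L i` and `b` pairwise disjoint
lines `M j` such that every `L i` meets every `M j` in one point. -/
def IsGrid (Z : Set P3) : Prop :=
  ∃ (a b : ℕ) (L : Fin a → Submodule ℂ (Fin 4 → ℂ)) (M : Fin b → Submodule ℂ (Fin 4 → ℂ)),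
    (∀ i, Module.finrank ℂ (L i) = 2) ∧ (∀ j, Module.finrank ℂ (M j) = 2) ∧
    (∀ i i', i ≠ i' → Disjoint (L i) (L i')) ∧ (∀ j j', j ≠ j' → Disjoint (M j) (M j')) ∧
    (∀ i j, Module.finrank ℂ ↥(L i ⊓ M j) = 1) ∧ Z = {z | ∃ i j, z.submodule = L i ⊓ M j}

/-- `Z` is contained in a plane. -/
def IsPlanar (Z : Set P3) : Prop :=
  ∃ U : Submodule ℂ (Fin 4 → ℂ), Module.finrank ℂ U = 3 ∧ ∀ z ∈ Z, z.submodule ≤ U

theorem geproci_symm {a b : ℕ} {Z : Set P3} (h : Geproci a b Z) : Geproci b a Z := by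
  obtain ⟨D, d, hD, hd, hv⟩ := h
  refine ⟨D, d, hD, hd, fun v hv0 he => ⟨(hv v hv0 he).1, fun π hπ => ?_⟩⟩
  obtain ⟨F, G, hF, hG, hFG⟩ := (hv v hv0 he).2 π hπ
  exact ⟨G, F, hG, hF, by rw [Set.pair_comm, hFG]⟩

theorem Grid_plane {W : Submodule ℂ (Fin 4 → ℂ)} (hW : Module.finrank ℂ W = 2) :
    ∃ U : Submodule ℂ (Fin 4 → ℂ), Module.finrank ℂ U = 3 ∧ W ≤ U := by
  have h1 : W ≠ ⊤ := by
    rintro rfl
    rw [finrank_top, Module.finrank_fin_fun] at hW
    omega
  obtain ⟨x, -, hx⟩ := SetLike.exists_of_lt (lt_top_iff_ne_top.2 h1)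
  refine ⟨W ⊔ Submodule.span ℂ {x}, ?_, le_sup_left⟩
  have hx0 : x ≠ 0 := by
    rintro rfl
    exact hx W.zero_mem
  have h2 := Submodule.finrank_sup_add_finrank_inf_eq W (Submodule.span ℂ {x})
  have h3 : W ⊓ Submodule.span ℂ {x} = ⊥ := by
    rw [eq_bot_iff]
    rintro y ⟨hy, hy'⟩
    obtain ⟨a, rfl⟩ := Submodule.mem_span_singleton.1 hy'
    by_cases ha : a = 0
    · rw [ha, zero_smul]
      exact Submodule.zero_mem _
    · exfalso
      apply hx
      have := W.smul_mem a⁻¹ hy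
      rwa [smul_smul, inv_mul_cancel₀ ha, one_smul] at this
  rw [h3, finrank_bot, hW, finrank_span_singleton hx0] at h2
  omega

/-- Points on two skew lines form a grid. -/
theorem Grid_two {l : ℕ} {L : Fin 2 → Submodule ℂ (Fin 4 → ℂ)}
    {z : Fin 2 → Fin l → Fin 4 → ℂ} (h : SConf L z) : IsGrid (pts z) := by
  have h01 : (0 : Fin 2) ≠ 1 := by decide
  have hne : ∀ s, z 1 s ∉ Submodule.span ℂ {z 0 s} := fun s =>
    Wce_indep h (fun e => h01 (congrArg Prod.fst e))
  have hmem : ∀ i s, z i s ∈ Submodule.span ℂ {z 0 s, z 1 s} := by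
    intro i s
    fin_cases i
    · exact Submodule.subset_span (Set.mem_insert _ _)
    · exact Submodule.subset_span (Set.mem_insert_of_mem _ rfl)
  have hzL : ∀ i s, (Submodule.span ℂ {z i s}) = L i ⊓ Submodule.span ℂ {z 0 s, z 1 s} := by
    intro i s
    apply le_antisymm
    · rw [Submodule.span_singleton_le_iff_mem]
      exact ⟨h.mem i s, hmem i s⟩
    · rintro x ⟨hx1, hx2⟩
      obtain ⟨a, b, rfl⟩ := Submodule.mem_span_pair.1 hx2
      fin_cases i
      · have e1 : b • z 1 s ∈ L 0 := by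
          have := (L 0).sub_mem hx1 ((L 0).smul_mem a (h.mem 0 s))
          rwa [add_sub_cancel_left] at this
        have e2 : b • z 1 s = 0 := Submodule.disjoint_def.1 (h.skew 0 1 h01) _ e1
          ((L 1).smul_mem b (h.mem 1 s))
        rw [e2, add_zero]
        exact Submodule.smul_mem _ _ (Submodule.mem_span_singleton_self _)
      · have e1 : a • z 0 s ∈ L 1 := by
          have := (L 1).sub_mem hx1 ((L 1).smul_mem b (h.mem 1 s))
          rwa [add_sub_cancel_right] at this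
        have e2 : a • z 0 s = 0 := Submodule.disjoint_def.1 (h.skew 0 1 h01) _
          ((L 0).smul_mem a (h.mem 0 s)) e1
        rw [e2, zero_add]
        exact Submodule.smul_mem _ _ (Submodule.mem_span_singleton_self _)
  refine ⟨2, l, L, fun s => Submodule.span ℂ {z 0 s, z 1 s}, h.rank,
    fun s => Wce_finrank (h.ne 0 s) (hne s), h.skew, ?_, ?_, ?_⟩
  · intro s t hst
    rw [Submodule.disjoint_def]
    intro x hx hx'
    obtain ⟨a, b, rfl⟩ := Submodule.mem_span_pair.1 hx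
    obtain ⟨a', b', he⟩ := Submodule.mem_span_pair.1 hx'
    have e1 : a • z 0 s - a' • z 0 t = b' • z 1 t - b • z 1 s := by
      rw [sub_eq_sub_iff_add_eq_add, ← he]
      exact add_comm _ _
    have e2 : a • z 0 s - a' • z 0 t = 0 := by
      refine Submodule.disjoint_def.1 (h.skew 0 1 h01) _ ((L 0).sub_mem
        ((L 0).smul_mem _ (h.mem 0 s)) ((L 0).smul_mem _ (h.mem 0 t))) ?_
      rw [e1]
      exact (L 1).sub_mem ((L 1).smul_mem _ (h.mem 1 t)) ((L 1).smul_mem _ (h.mem 1 s))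
    have e3 : b' • z 1 t - b • z 1 s = 0 := e1.symm.trans e2
    have key : ∀ (i : Fin 2) (c c' : ℂ), c • z i s = c' • z i t → c = 0 := by
      intro i c c' hc
      by_contra hc0
      refine h.indep i t s hst.symm (Submodule.mem_span_singleton.2 ⟨c⁻¹ * c', ?_⟩)
      rw [mul_smul, ← hc, smul_smul, inv_mul_cancel₀ hc0, one_smul]
    rw [key 0 a a' (sub_eq_zero.1 e2), key 1 b b' (sub_eq_zero.1 e3).symm, zero_smul, zero_smul,
      add_zero]
  · intro i s
    rw [← hzL i s]
    exact finrank_span_singleton (h.ne i s)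
  · ext q
    constructor
    · rintro ⟨i, s, hq⟩
      exact ⟨i, s, hq.trans (hzL i s)⟩
    · rintro ⟨i, s, hq⟩
      exact ⟨i, s, hq.trans (hzL i s).symm⟩

/-- The question for nontrivial half grids. -/
theorem halfGrid_geproci {a b k l : ℕ} (ha : 1 ≤ a) (hab : a ≤ b)
    (hkl : k = a ∧ l = b ∨ k = b ∧ l = a) {Z Z' : Set P3}
    {L : Fin k → Submodule ℂ (Fin 4 → ℂ)} (h : IsHalfGrid k l Z L) (hp : ¬ IsPlanar Z)
    (hn : ¬ IsGrid Z) (hg : Geproci a b Z) (hw : WeaklyEquivalent Z Z') : Geproci a b Z' := by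
  have hg' : Geproci k l Z := by
    rcases hkl with ⟨rfl, rfl⟩ | ⟨rfl, rfl⟩
    · exact hg
    · exact geproci_symm hg
  have hk1 : 1 ≤ k := by rcases hkl with ⟨rfl, rfl⟩ | ⟨rfl, rfl⟩ <;> omega
  have hl1 : 1 ≤ l := by rcases hkl with ⟨rfl, rfl⟩ | ⟨rfl, rfl⟩ <;> omega
  have hk : 3 ≤ k := by
    by_contra hk
    have h2 : k = 1 ∨ k = 2 := by omega
    rcases h2 with rfl | rfl
    · obtain ⟨U, hU, hLU⟩ := Grid_plane (h.rank 0)
      refine hp ⟨U, hU, fun q hq => ?_⟩
      obtain ⟨i, hi⟩ := h.cover q hq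
      rw [Subsingleton.elim i 0] at hi
      exact hi.trans hLU
    · obtain ⟨z, hz, rfl⟩ := exists_sconf hl1 h
      exact hn (Grid_two hz)
  have hl : 2 ≤ l := by
    by_contra hl
    have hl2 : l = 1 := by omega
    subst hl2
    obtain ⟨z, hz, rfl⟩ := exists_sconf hl1 h
    have ht := trans_of_geproci (by omega) hl1 hz hg'
    set i0 : Fin k := ⟨0, by omega⟩ with hi0
    set i1 : Fin k := ⟨1, by omega⟩ with hi1
    have h01 : i0 ≠ i1 := by
      intro e
      exact absurd (congrArg Fin.val e) (by norm_num [hi0, hi1])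
    have hW := Wce_finrank (hz.ne i0 0) (Wce_indep hz (i := i0) (j := i1) (s := 0) (t := 0)
      (fun e => h01 (congrArg Prod.fst e)))
    obtain ⟨U, hU, hWU⟩ := Grid_plane hW
    refine hp ⟨U, hU, ?_⟩
    rintro q ⟨m, s, hq⟩
    rw [hq, Submodule.span_singleton_le_iff_mem]
    apply hWU
    rw [Subsingleton.elim s 0]
    by_cases hm0 : m = i0
    · rw [hm0]
      exact Submodule.subset_span (Set.mem_insert _ _)
    by_cases hm1 : m = i1
    · rw [hm1]
      exact Submodule.subset_span (Set.mem_insert_of_mem _ rfl)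
    obtain ⟨σ, τ, hστ⟩ := ht i0 i1 m h01 (Ne.symm hm1) (Ne.symm hm0)
    have := hστ 0
    rwa [Subsingleton.elim (σ 0) 0, Subsingleton.elim (τ 0) 0] at this
  have hf := geproci_of_weaklyEquivalent hk hl h hg' hw
  rcases hkl with ⟨rfl, rfl⟩ | ⟨rfl, rfl⟩
  · exact hf
  · exact geproci_symm hf

end Pool.Agent.Gep26
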