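import Pool.Agent.W_51eaa9_h26.Def
import Pool.Agent.W_51eaa9_h26.Glue
import Pool.Agent.W_51eaa9_h48.BCI

/-! # The ideal of the points, in the chart

Homogeneous components, dehomogenization (`dh`), the induction on the lines `bci` in `ℂ[X][Y]`, and
homogenization (`exists_hom`, `dh_inj`). -/

set_option autoImplicit false

noncomputable section

namespace Pool.Agent.Gep26

open MvPolynomial Pool.Agent.W_51eaa9_h48

/-- homogeneous components of an element of `coneIdeal` -/
theorem component_mem {W : Set P2} {H : MvPolynomial (Fin 3) ℂ} (h : H ∈ coneIdeal W) (t : ℕ) :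
    homogeneousComponent t H ∈ coneIdeal W := by
  intro q hq v hv
  -- the polynomial `∑ eval v (H_t) X ^ t`
  set p : Polynomial ℂ := ∑ j ∈ Finset.range (H.totalDegree + 1),
    Polynomial.C (eval v (homogeneousComponent j H)) * Polynomial.X ^ j with hp
  have h1 : p = 0 := by
    refine Polynomial.funext fun c => ?_
    have h2 : eval (c • v) H = 0 := h q hq _ (q.submodule.smul_mem c hv)
    rw [← sum_homogeneousComponent H, map_sum] at h2
    rw [hp, Polynomial.eval_finsetSum, Polynomial.eval_zero, ← h2]
    refine Finset.sum_congr rfl fun j _ => ?_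
    rw [eval_smul_hom (homogeneousComponent_isHomogeneous j H)]
    simp
    ring
  by_cases ht : t < H.totalDegree + 1
  · have h3 := congrArg (fun r : Polynomial ℂ => r.coeff t) h1
    simp only [hp, Polynomial.finsetSum_coeff, Polynomial.coeff_C_mul, Polynomial.coeff_X_pow,
      Polynomial.coeff_zero] at h3
    rw [Finset.sum_eq_single t] at h3
    · simpa using h3
    · intro b _ hb
      rw [if_neg (Ne.symm hb), mul_zero]
    · intro hn
      exact absurd (Finset.mem_range.2 ht) hn
  · rw [homogeneousComponent_eq_zero _ _ (by omega), map_zero]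

theorem dh_lambda (m n : ℂ) : dh (X 0 - C m * X 1 - C n * X 2) =
    Polynomial.X - Polynomial.C (L m n) := by
  rw [map_sub, map_sub, map_mul, map_mul, dh_X0, dh_X1, dh_X2, dh_C, dh_C, L, Polynomial.C_add,
    Polynomial.C_mul]
  ring

theorem hom_lambda (m n : ℂ) :
    (X 0 - C m * X 1 - C n * X 2 : MvPolynomial (Fin 3) ℂ).IsHomogeneous 1 := by
  have h1 : (C m * X 1 : MvPolynomial (Fin 3) ℂ).IsHomogeneous 1 := by
    have := (isHomogeneous_C (Fin 3) m).mul (isHomogeneous_X ℂ (1 : Fin 3))
    rwa [zero_add] at this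
  have h2 : (C n * X 2 : MvPolynomial (Fin 3) ℂ).IsHomogeneous 1 := by
    have := (isHomogeneous_C (Fin 3) n).mul (isHomogeneous_X ℂ (2 : Fin 3))
    rwa [zero_add] at this
  exact ((isHomogeneous_X ℂ (0 : Fin 3)).sub h1).sub h2

theorem ideal_eq {k l : ℕ} (m n : Fin k → ℂ) (hm : Function.Injective m)
    (x : Fin k → Fin l → ℂ) (hxi : ∀ i, Function.Injective (x i))
    (hx : ∀ i j s, i ≠ j → m i * x i s + n i ≠ m j * x i s + n j)
    (F : MvPolynomial (Fin 3) ℂ) (hF : F.IsHomogeneous l)
    (h : ∀ i, GoodC (x i) (m i) (n i) F) :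
    Ideal.span {∏ i, (X 0 - C (m i) * X 1 - C (n i) * X 2), F} =
      coneIdeal (pts fun i s => ![m i * x i s + n i, x i s, 1]) := by
  set Λ : MvPolynomial (Fin 3) ℂ := ∏ i, (X 0 - C (m i) * X 1 - C (n i) * X 2) with hΛ
  have hΛh : Λ.IsHomogeneous k := by
    have := IsHomogeneous.prod (Finset.univ : Finset (Fin k))
      (fun i => (X 0 - C (m i) * X 1 - C (n i) * X 2 : MvPolynomial (Fin 3) ℂ)) (fun _ => 1)
      (fun i _ => hom_lambda _ _)
    simpa using this
  have hFpt : ∀ i s, eval ![m i * x i s + n i, x i s, 1] F = 0 := by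
    intro i s
    obtain ⟨c, _, hc⟩ := h i
    rw [← restr_eval, hc, Polynomial.eval_mul, Polynomial.eval_prod]
    rw [Finset.prod_eq_zero (Finset.mem_univ s) (by simp), mul_zero]
  apply le_antisymm
  · rw [Ideal.span_le]
    intro G hG
    simp only [Set.mem_insert_iff, Set.mem_singleton_iff] at hG
    rw [SetLike.mem_coe, mem_coneIdeal]
    rintro q ⟨i, s, hq⟩ v hv
    rw [hq, Submodule.mem_span_singleton] at hv
    obtain ⟨t, rfl⟩ := hv
    rcases hG with rfl | rfl
    · rw [eval_smul_hom hΛh, hΛ, map_prod, Finset.prod_eq_zero (Finset.mem_univ i), mul_zero]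
      simp
    · rw [eval_smul_hom hF, hFpt, mul_zero]
  · intro H hH
    rw [← sum_homogeneousComponent H]
    refine Ideal.sum_mem _ fun t _ => ?_
    have hHt := component_mem hH t
    have hhom := homogeneousComponent_isHomogeneous t H
    set T := homogeneousComponent t H with hT
    obtain ⟨P, Q, h1, h2, h3⟩ := bci m n x hxi hx (dh F) (LT_dh hF)
      (fun i => (goodC_iff _ _ _ _).1 (h i)) Finset.univ (t + 1) (dh T) (LT_dh hhom) (by
        intro i _ s
        rw [← restr_eq_dh, restr_eval]
        exact hHt (Projectivization.mk ℂ ![m i * x i s + n i, x i s, 1] (by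
          intro h0
          have := congrFun h0 2
          simp at this)) ⟨i, s, by rw [Projectivization.submodule_mk]⟩ _ (by
          rw [Projectivization.submodule_mk]
          exact Submodule.mem_span_singleton_self _))
    rw [Finset.card_univ, Fintype.card_fin] at h3
    -- homogenize the coefficients
    have hP : ∃ P' : MvPolynomial (Fin 3) ℂ, (P' * F).IsHomogeneous t ∧ dh P' = P := by
      by_cases htl : l ≤ t
      · rw [show t + 1 - l = t - l + 1 by omega] at h2
        obtain ⟨P', hP', hP''⟩ := exists_hom h2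
        refine ⟨P', ?_, hP''⟩
        have := hP'.mul hF
        rwa [show t - l + l = t by omega] at this
      · refine ⟨0, by rw [zero_mul]; exact isHomogeneous_zero _ _ _, ?_⟩
        rw [show t + 1 - l = 0 by omega] at h2
        rw [h2.eq_zero, map_zero]
    have hQ : ∃ Q' : MvPolynomial (Fin 3) ℂ, (Q' * Λ).IsHomogeneous t ∧ dh Q' = Q := by
      by_cases htk : k ≤ t
      · rw [show t + 1 - k = t - k + 1 by omega] at h3
        obtain ⟨Q', hQ', hQ''⟩ := exists_hom h3
        refine ⟨Q', ?_, hQ''⟩
        have := hQ'.mul hΛh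
        rwa [show t - k + k = t by omega] at this
      · refine ⟨0, by rw [zero_mul]; exact isHomogeneous_zero _ _ _, ?_⟩
        rw [show t + 1 - k = 0 by omega] at h3
        rw [h3.eq_zero, map_zero]
    obtain ⟨P', hP1, hP2⟩ := hP
    obtain ⟨Q', hQ1, hQ2⟩ := hQ
    have hdhΛ : dh Λ = ∏ i, (Polynomial.X - Polynomial.C (L (m i) (n i))) := by
      rw [hΛ, map_prod]
      exact Finset.prod_congr rfl fun i _ => dh_lambda _ _
    have hzero : T - (P' * F + Q' * Λ) = 0 := by
      refine dh_inj (hhom.sub (hP1.add hQ1)) ?_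
      rw [map_sub, map_add, map_mul, map_mul, hP2, hQ2, hdhΛ, h1, sub_self]
    have : T = Q' * Λ + P' * F := by linear_combination hzero
    rw [this]
    refine Ideal.add_mem _ (Ideal.mul_mem_left _ _ (Ideal.subset_span (by simp)))
      (Ideal.mul_mem_left _ _ (Ideal.subset_span (by simp)))

end Pool.Agent.Gep26
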