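import Mathlib

/-! # Interpolation of `(c + d ḡ) ^ N`

`V` a finite set of complex numbers with `conj (g - g') ^ N = (g - g') ^ N` for all `g, g' ∈ V`.

If `V.card ≤ N`: take the Lagrange interpolation polynomial `R` (degree `< V.card ≤ N`) of
`g ↦ (c + d ḡ) ^ N - d ^ N g ^ N` on `V` and `Q = R + C (d ^ N) * X ^ N`.

If `N + 1 ≤ V.card`: choose `V₀ ⊆ V` with `N + 1` elements.  If `d = 0` take `Q = C (c ^ N)`.  Otherwise
`(c + d ḡ) ^ N = d ^ N (ḡ - z) ^ N` with `z = - c / d`.  For every `g ∈ V` the polynomial
`(C (ḡ) - X) ^ N` in `ℂ[X]` has degree at most `N`, so it is equal to its Lagrange interpolation at the `N + 1`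
distinct points `conj g'`, `g' ∈ V₀` (`Lagrange.eq_interpolate`), where its values are
`(ḡ - conj g') ^ N = (g - g') ^ N`:
`(ḡ - z) ^ N = ∑ g' ∈ V₀, L_g'(z) (g - g') ^ N`, with `L_g'` the Lagrange basis.  So
`Q = d ^ N ∑ g' ∈ V₀, C (L_g'(z)) * (X - C g') ^ N`; its coefficient of `X ^ N` is
`d ^ N ∑ L_g'(z) = d ^ N` (`Lagrange.sum_basis`). -/

set_option autoImplicit false

noncomputable section

namespace Pool.Agent.Gep26

open Polynomial ComplexConjugate

theorem interp {N : ℕ} (hN : 0 < N) (V : Finset ℂ)
    (hV : ∀ g ∈ V, ∀ g' ∈ V, (conj g - conj g') ^ N = (g - g') ^ N) (c d : ℂ) :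
    ∃ Q : ℂ[X], Q.natDegree ≤ N ∧ Q.coeff N = d ^ N ∧
      ∀ g ∈ V, Q.eval g = (c + d * conj g) ^ N := by
  classical
  by_cases hcard : V.card ≤ N
  · -- few points
    set r : ℂ → ℂ := fun g => (c + d * conj g) ^ N - d ^ N * g ^ N with hr
    have hinj : Set.InjOn (id : ℂ → ℂ) (V : Set ℂ) := Function.injective_id.injOn
    have hdeg : (Lagrange.interpolate V id r).degree < N :=
      lt_of_lt_of_le (Lagrange.degree_interpolate_lt r hinj) (by exact_mod_cast hcard)
    refine ⟨Lagrange.interpolate V id r + C (d ^ N) * X ^ N, ?_, ?_, fun g hg => ?_⟩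
    · refine (natDegree_add_le _ _).trans (max_le ?_ (natDegree_C_mul_X_pow_le _ _))
      exact natDegree_le_iff_degree_le.2 hdeg.le
    · rw [coeff_add, coeff_eq_zero_of_degree_lt hdeg, coeff_C_mul_X_pow, if_pos rfl, zero_add]
    · have h1 := Lagrange.eval_interpolate_at_node r hinj hg
      rw [id_eq] at h1
      rw [eval_add, h1, hr]
      simp
  · -- many points
    push Not at hcard
    obtain ⟨V₀, hV₀, hc₀⟩ := Finset.exists_subset_card_eq (show N + 1 ≤ V.card by omega)
    by_cases hd : d = 0
    · refine ⟨C (c ^ N), ?_, ?_, fun g _ => ?_⟩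
      · rw [natDegree_C]; exact Nat.zero_le _
      · rw [coeff_C, if_neg hN.ne', hd, zero_pow hN.ne']
      · rw [hd]; simp
    · set z : ℂ := -c / d with hz
      have hinj : Set.InjOn (fun g : ℂ => conj g) (V₀ : Set ℂ) :=
        (starRingEnd ℂ).injective.injOn
      have hne : V₀.Nonempty := by
        rw [← Finset.card_pos, hc₀]; omega
      set L : ℂ → ℂ := fun g' => (Lagrange.basis V₀ (fun g : ℂ => conj g) g').eval z with hL
      have hsum : ∑ g' ∈ V₀, L g' = 1 := by
        have h1 := congrArg (eval z) (Lagrange.sum_basis hinj hne)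
        rw [eval_finsetSum, eval_one] at h1
        exact h1
      have key : ∀ g ∈ V, (conj g - z) ^ N = ∑ g' ∈ V₀, (g - g') ^ N * L g' := by
        intro g hg
        have hdeg : ((C (conj g) - X : ℂ[X]) ^ N).degree < V₀.card := by
          rw [hc₀]
          have h9 : (C (conj g) - X : ℂ[X]).degree ≤ 1 :=
            (degree_sub_le _ _).trans (max_le (degree_C_le.trans (by norm_num)) degree_X_le)
          refine lt_of_le_of_lt (degree_pow_le_of_le N h9) ?_
          rw [mul_one]
          exact_mod_cast Nat.lt_succ_self N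
        have h1 := Lagrange.eq_interpolate hinj hdeg
        have h2 := congrArg (eval z) h1
        rw [Lagrange.interpolate_apply, eval_finsetSum] at h2
        rw [eval_pow, eval_sub, eval_C, eval_X] at h2
        rw [h2]
        refine Finset.sum_congr rfl fun g' hg' => ?_
        rw [eval_mul, eval_C, eval_pow, eval_sub, eval_C, eval_X, hV g hg g' (hV₀ hg')]
      refine ⟨∑ g' ∈ V₀, C (d ^ N * L g') * (X - C g') ^ N, ?_, ?_, fun g hg => ?_⟩
      · refine natDegree_sum_le_of_forall_le _ _ fun g' _ => ?_
        refine (natDegree_C_mul_le _ _).trans ?_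
        rw [natDegree_pow, natDegree_X_sub_C, mul_one]
      · rw [finsetSum_coeff]
        have h3 : ∀ g' ∈ V₀, (C (d ^ N * L g') * (X - C g') ^ N).coeff N = d ^ N * L g' := by
          intro g' _
          rw [coeff_C_mul]
          have h4 : ((X - C g' : ℂ[X]) ^ N).coeff N = 1 := by
            have h5 : ((X - C g' : ℂ[X]) ^ N).Monic := (monic_X_sub_C g').pow N
            have h6 : ((X - C g' : ℂ[X]) ^ N).natDegree = N := by
              rw [natDegree_pow, natDegree_X_sub_C, mul_one]
            have h7 := h5.coeff_natDegree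
            rwa [h6] at h7
          rw [h4, mul_one]
        rw [Finset.sum_congr rfl h3, ← Finset.mul_sum, hsum, mul_one]
      · rw [eval_finsetSum]
        have h3 : ∀ g' ∈ V₀, (C (d ^ N * L g') * (X - C g') ^ N).eval g =
            d ^ N * ((g - g') ^ N * L g') := by
          intro g' _
          rw [eval_mul, eval_C, eval_pow, eval_sub, eval_C, eval_X]
          ring
        rw [Finset.sum_congr rfl h3, ← Finset.mul_sum, ← key g hg, ← mul_pow]
        congr 1
        rw [hz]
        field_simp
        ring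

end Pool.Agent.Gep26
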