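import Mathlib

/-! # Permutation operators: one decomposition for all

For `σ : Perm (Fin l)` and `y : Fin l → ℂ` the operator `y ↦ y ∘ σ` is unitary for the inner product
`⟨f, g⟩ = ∑ s, f s * conj (g s)` (`Equiv.sum_comp`).

`quad`: Let `C`, `U` be commuting permutations and `g y(C s) - y(s) = (g - 1) y(U s)` for all `s`, `g ≠ 1`.
With `T f = f ∘ C`, `S f = f ∘ U` (commuting unitary operators), `M = g T - 1 - (g - 1) S` satisfies
`‖M f‖ = ‖M^* f‖`, where `M^* = ḡ T⁻¹ - 1 - (ḡ - 1) S⁻¹`: expand both sides of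
`∑ s, ‖g y(C s) - y(s) - (g - 1) y(U s)‖² = ∑ s, ‖ḡ y(C⁻¹ s) - y(s) - (ḡ - 1) y(U⁻¹ s)‖²`
in inner products (use `C U = U C`, e.g. `∑ y(C s) conj (y(U s)) = ∑ y(U⁻¹ s) conj (y(C⁻¹ s))`).  Hence
`ḡ y(C⁻¹ s) - y(s) = (ḡ - 1) y(U⁻¹ s)` for all `s`.  Replace `s` by `U s` and use the first equation at `C⁻¹ s`
and `s`: `(ḡ - 1)(g - 1) y(s) = ḡ (g - 1) y(U C⁻¹ s) - (g - 1) y(U s)
  = ḡ (g y(s) - y(C⁻¹ s)) - (g y(C s) - y(s))`, which is the claim.

`real_case`: from `quad`, if `g` is real and not `0` then `y(C s) + y(C⁻¹ s) = 2 y(s)`, so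
`∑ ‖y(C s) - y(s)‖² = ∑ y(s) conj (2 y(s) - y(C s) - y(C⁻¹ s)) = 0`.

`re_eq_zero`: norms of both sides of the equation: `∑ ‖g y(C s) - y(s)‖² = ‖g - 1‖² ∑ ‖y(s)‖²`.

`key`: `a`, `b` not real, `g y(A s) …`: let `τ = ā / a`, `r = (y ∘ A - y) / (τ - 1)`; by (Q) `r ∘ A = τ r` and
`y - r` is invariant under `A`, so `⟨y - r, r⟩ = 0` and `⟨r, y⟩ = ‖r‖²`; the same for `B`.  Put
`p = 1 - conj τ_A`, `q = 1 - τ_B`.  In the first case
`X = ⟨y ∘ A⁻¹, y ∘ B⁻¹⟩ = ⟨y - p r_A, y - conj q • r_B⟩ = ‖y‖² - p ‖r_A‖² - q ‖r_B‖² + p q ⟨r_A, r_B⟩`, in the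
second one `X = ⟨y ∘ B, y ∘ A⟩` is the same with `⟨r_B, r_A⟩`.  Since `(b / a) p q` is the real number
`4 Im a Im b / |a|²` and `Re ((b / a) p) = Re ((b / a) q) = 2 Im a Im b / |a|²`, the hypothesis
`Re ((b / a) (‖y‖² - X)) = 0` gives `2 Re ⟨r_A, r_B⟩ = ‖r_A‖² + ‖r_B‖²`, so `‖r_A - r_B‖² = 0`. -/

set_option autoImplicit false

noncomputable section

namespace Pool.Agent.Gep26

open ComplexConjugate

variable {l : ℕ}

/-- The equation (E). -/
def EqE (g : ℂ) (C U : Equiv.Perm (Fin l)) (y : Fin l → ℂ) : Prop :=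
  ∀ s, g * y (C s) - y s = (g - 1) * y (U s)

/-- The equation (Q). -/
def EqQ (g : ℂ) (C : Equiv.Perm (Fin l)) (y : Fin l → ℂ) : Prop :=
  ∀ s, g * y (C s) + conj g * y (C.symm s) = (g + conj g) * y s

/-- The second component of `y` for the permutation `A` and the number `a`. -/
def comp2 (a : ℂ) (A : Equiv.Perm (Fin l)) (y : Fin l → ℂ) (s : Fin l) : ℂ :=
  (y (A s) - y s) / (conj a / a - 1)

/-- The inner product of `y ∘ σ` and `y ∘ τ`. -/
def keyIp (y : Fin l → ℂ) (σ τ : Equiv.Perm (Fin l)) : ℂ := ∑ s, y (σ s) * conj (y (τ s))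

theorem keyIp_mul (y : Fin l → ℂ) (σ τ ρ : Equiv.Perm (Fin l)) :
    keyIp y (σ * ρ) (τ * ρ) = keyIp y σ τ := by
  unfold keyIp
  exact Equiv.sum_comp ρ (fun s => y (σ s) * conj (y (τ s)))

theorem keyIp_self (y : Fin l → ℂ) (σ : Equiv.Perm (Fin l)) : keyIp y σ σ = keyIp y 1 1 := by
  have := keyIp_mul y 1 1 σ
  rwa [one_mul] at this

theorem keyIp_conj (y : Fin l → ℂ) (σ τ : Equiv.Perm (Fin l)) :
    conj (keyIp y σ τ) = keyIp y τ σ := by
  unfold keyIp
  rw [map_sum]
  refine Finset.sum_congr rfl fun s _ => ?_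
  rw [map_mul, Complex.conj_conj, mul_comm]

theorem key_zero (f : Fin l → ℂ) (h : ∑ s, f s * conj (f s) = 0) (s : Fin l) : f s = 0 := by
  have h1 : ∑ s, Complex.normSq (f s) = 0 := by
    have h2 : ((∑ s, Complex.normSq (f s) : ℝ) : ℂ) = 0 := by
      rw [← h, Complex.ofReal_sum]
      exact Finset.sum_congr rfl fun s _ => (Complex.mul_conj (f s)).symm
    exact_mod_cast h2
  have h3 := (Finset.sum_eq_zero_iff_of_nonneg fun s _ => Complex.normSq_nonneg (f s)).1 h1 s
    (Finset.mem_univ s)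
  exact Complex.normSq_eq_zero.1 h3

theorem key_expand (y : Fin l → ℂ) (a b c : ℂ) (σ τ ρ : Equiv.Perm (Fin l)) :
    ∑ s, (a * y (σ s) + b * y (τ s) + c * y (ρ s)) *
      conj (a * y (σ s) + b * y (τ s) + c * y (ρ s)) =
      a * conj a * keyIp y σ σ + a * conj b * keyIp y σ τ + a * conj c * keyIp y σ ρ +
      (b * conj a * keyIp y τ σ + b * conj b * keyIp y τ τ + b * conj c * keyIp y τ ρ) +
      (c * conj a * keyIp y ρ σ + c * conj b * keyIp y ρ τ + c * conj c * keyIp y ρ ρ) := by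
  unfold keyIp
  simp only [Finset.mul_sum, ← Finset.sum_add_distrib]
  refine Finset.sum_congr rfl fun s _ => ?_
  simp only [map_add, map_mul]
  ring

theorem quad {g : ℂ} (hg : g ≠ 1) {C U : Equiv.Perm (Fin l)} (hCU : Commute C U)
    {y : Fin l → ℂ} (h : EqE g C U y) : EqQ g C y := by
  have e1 : keyIp y C⁻¹ 1 = keyIp y 1 C := by
    have := keyIp_mul y C⁻¹ 1 C
    rw [inv_mul_cancel, one_mul] at this
    exact this.symm
  have e2 : keyIp y 1 C⁻¹ = keyIp y C 1 := by
    have := keyIp_mul y 1 C⁻¹ C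
    rw [inv_mul_cancel, one_mul] at this
    exact this.symm
  have e3 : keyIp y U⁻¹ 1 = keyIp y 1 U := by
    have := keyIp_mul y U⁻¹ 1 U
    rw [inv_mul_cancel, one_mul] at this
    exact this.symm
  have e4 : keyIp y 1 U⁻¹ = keyIp y U 1 := by
    have := keyIp_mul y 1 U⁻¹ U
    rw [inv_mul_cancel, one_mul] at this
    exact this.symm
  have c1 : C⁻¹ * (C * U) = U := by group
  have c2 : U⁻¹ * (C * U) = C := by rw [hCU.eq]; group
  have e5 : keyIp y C⁻¹ U⁻¹ = keyIp y U C := by
    have := keyIp_mul y C⁻¹ U⁻¹ (C * U)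
    rw [c1, c2] at this
    exact this.symm
  have e6 : keyIp y U⁻¹ C⁻¹ = keyIp y C U := by
    have := keyIp_mul y U⁻¹ C⁻¹ (C * U)
    rw [c1, c2] at this
    exact this.symm
  have h0 : ∑ s, (g * y (C s) + (-1) * y ((1 : Equiv.Perm (Fin l)) s) + (1 - g) * y (U s)) *
      conj (g * y (C s) + (-1) * y ((1 : Equiv.Perm (Fin l)) s) + (1 - g) * y (U s)) = 0 := by
    refine Finset.sum_eq_zero fun s _ => ?_
    have h1 : g * y (C s) + (-1) * y ((1 : Equiv.Perm (Fin l)) s) + (1 - g) * y (U s) = 0 := by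
      have := h s
      rw [Equiv.Perm.one_apply]
      linear_combination this
    rw [h1, zero_mul]
  have h2 : ∑ s, (conj g * y (C⁻¹ s) + (-1) * y ((1 : Equiv.Perm (Fin l)) s) +
      (1 - conj g) * y (U⁻¹ s)) *
      conj (conj g * y (C⁻¹ s) + (-1) * y ((1 : Equiv.Perm (Fin l)) s) +
      (1 - conj g) * y (U⁻¹ s)) = 0 := by
    rw [← h0, key_expand, key_expand, e1, e2, e3, e4, e5, e6, keyIp_self y C⁻¹,
      keyIp_self y U⁻¹, keyIp_self y C, keyIp_self y U]
    simp only [map_sub, map_one, map_neg, Complex.conj_conj]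
    ring
  have h3 := key_zero _ h2
  intro s
  have h4 := h3 (U s)
  have h5 := h (C⁻¹ s)
  have h6 := h s
  have c3 : C⁻¹ (U s) = U (C⁻¹ s) := by
    have : C⁻¹ * U = U * C⁻¹ := (hCU.inv_left).eq
    have := congrArg (fun p : Equiv.Perm (Fin l) => p s) this
    simpa using this
  have c4 : U⁻¹ (U s) = s := by simp
  have c5 : C (C⁻¹ s) = s := by simp
  rw [Equiv.Perm.one_apply, c3, c4] at h4
  rw [c5] at h5
  have hs : C.symm s = C⁻¹ s := rfl
  rw [hs]
  linear_combination (1 - g) * h4 + h6 - conj g * h5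

theorem real_case {g : ℂ} (hg : g ≠ 0) (hr : conj g = g) {C : Equiv.Perm (Fin l)}
    {y : Fin l → ℂ} (h : EqQ g C y) (s : Fin l) : y (C s) = y s := by
  have h1 : ∀ s, y (C s) + y (C⁻¹ s) = 2 * y s := by
    intro s
    have := h s
    rw [hr] at this
    have hs : C.symm s = C⁻¹ s := rfl
    rw [hs] at this
    have h2 : g * (y (C s) + y (C⁻¹ s)) = g * (2 * y s) := by linear_combination this
    exact mul_left_cancel₀ hg h2
  have e1 : keyIp y C⁻¹ 1 = keyIp y 1 C := by
    have := keyIp_mul y C⁻¹ 1 C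
    rw [inv_mul_cancel, one_mul] at this
    exact this.symm
  have h2 : ∑ s, (y (C s) - y s) * conj (y (C s) - y s) = 0 := by
    have h3 : ∑ s, (y (C s) - y s) * conj (y (C s) - y s) =
        keyIp y C C - keyIp y C 1 - keyIp y 1 C + keyIp y 1 1 := by
      unfold keyIp
      simp only [← Finset.sum_add_distrib, ← Finset.sum_sub_distrib]
      refine Finset.sum_congr rfl fun s _ => ?_
      simp only [map_sub, Equiv.Perm.one_apply]
      ring
    have h4 : ∑ s, (2 * y s - y (C s) - y (C⁻¹ s)) * conj (y s) =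
        2 * keyIp y 1 1 - keyIp y C 1 - keyIp y C⁻¹ 1 := by
      unfold keyIp
      simp only [Finset.mul_sum, ← Finset.sum_sub_distrib]
      refine Finset.sum_congr rfl fun s _ => ?_
      simp only [Equiv.Perm.one_apply]
      ring
    have h5 : ∑ s, (2 * y s - y (C s) - y (C⁻¹ s)) * conj (y s) = 0 := by
      refine Finset.sum_eq_zero fun s _ => ?_
      rw [← h1 s]
      ring
    rw [h3, keyIp_self y C, ← e1]
    rw [h4] at h5
    linear_combination h5
  have := key_zero _ h2 s
  exact sub_eq_zero.1 this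

theorem re_eq_zero {g : ℂ} {C U : Equiv.Perm (Fin l)} {y : Fin l → ℂ} (h : EqE g C U y) :
    (g * (∑ s, y s * conj (y s) - ∑ s, y (C s) * conj (y s))).re = 0 := by
  have h1 : ∑ s, (g * y (C s) - y s) * conj (g * y (C s) - y s) =
      ∑ s, ((g - 1) * y (U s)) * conj ((g - 1) * y (U s)) :=
    Finset.sum_congr rfl fun s _ => by rw [h s]
  have h2 : ∑ s, (g * y (C s) - y s) * conj (g * y (C s) - y s) =
      g * conj g * keyIp y C C - g * keyIp y C 1 - conj g * keyIp y 1 C + keyIp y 1 1 := by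
    unfold keyIp
    simp only [Finset.mul_sum, ← Finset.sum_add_distrib, ← Finset.sum_sub_distrib]
    refine Finset.sum_congr rfl fun s _ => ?_
    simp only [map_sub, map_mul, Equiv.Perm.one_apply]
    ring
  have h3 : ∑ s, ((g - 1) * y (U s)) * conj ((g - 1) * y (U s)) =
      (g - 1) * (conj g - 1) * keyIp y U U := by
    unfold keyIp
    simp only [Finset.mul_sum]
    refine Finset.sum_congr rfl fun s _ => ?_
    simp only [map_sub, map_mul, map_one]
    ring
  have h4 : ∑ s, y s * conj (y s) = keyIp y 1 1 := rfl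
  have h5 : ∑ s, y (C s) * conj (y s) = keyIp y C 1 := rfl
  rw [h4, h5]
  rw [h2, h3, keyIp_self y C, keyIp_self y U] at h1
  set w : ℂ := g * (keyIp y 1 1 - keyIp y C 1) with hw
  have h6 : w + conj w = 0 := by
    rw [hw, map_mul, map_sub, keyIp_conj, keyIp_conj]
    linear_combination h1
  have h7 : ((w + conj w).re) = 0 := by rw [h6]; rfl
  rw [Complex.add_re, Complex.conj_re] at h7
  linarith

/-- Properties of the decomposition `y = (y - r) + r`. -/
theorem comp2_spec {a : ℂ} (ha : conj a ≠ a) {A : Equiv.Perm (Fin l)} {y : Fin l → ℂ}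
    (h : EqQ a A y) (s : Fin l) :
    comp2 a A y (A s) = conj a / a * comp2 a A y s ∧
      y (A s) - comp2 a A y (A s) = y s - comp2 a A y s := by
  have ha0 : a ≠ 0 := by
    rintro rfl
    exact ha (map_zero _)
  have ht : conj a / a - 1 ≠ 0 := by
    intro h0
    apply ha
    have : conj a / a = 1 := by linear_combination h0
    rwa [div_eq_one_iff_eq ha0] at this
  have h1 := h (A s)
  rw [Equiv.symm_apply_apply] at h1
  have h2 : comp2 a A y (A s) = conj a / a * comp2 a A y s := by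
    unfold comp2
    rw [mul_div_assoc', div_left_inj' ht]
    have h3 : a * (y (A (A s)) - y (A s)) = conj a * (y (A s) - y s) := by
      linear_combination h1
    field_simp
    linear_combination h3
  refine ⟨h2, ?_⟩
  rw [h2]
  have h3 : comp2 a A y s * (conj a / a - 1) = y (A s) - y s := by
    unfold comp2
    rw [div_mul_cancel₀ _ ht]
  linear_combination -h3

/-- Facts on the second component. -/
theorem key_facts {a : ℂ} (ha : conj a ≠ a) {A : Equiv.Perm (Fin l)} {y : Fin l → ℂ}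
    (h : EqQ a A y) :
    (∀ s, y (A s) = y s + (conj a / a - 1) * comp2 a A y s) ∧
      (∀ s, y (A.symm s) = y s - (1 - a / conj a) * comp2 a A y s) ∧
      ∑ s, y s * conj (comp2 a A y s) = ∑ s, comp2 a A y s * conj (comp2 a A y s) ∧
      ∑ s, comp2 a A y s * conj (y s) = ∑ s, comp2 a A y s * conj (comp2 a A y s) := by
  have ha0 : a ≠ 0 := by
    rintro rfl
    exact ha (map_zero _)
  have ha1 : conj a ≠ 0 := by
    intro h0
    exact ha0 ((map_eq_zero _).1 h0)
  have ht : conj a / a - 1 ≠ 0 := by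
    intro h0
    apply ha
    have : conj a / a = 1 := by linear_combination h0
    rwa [div_eq_one_iff_eq ha0] at this
  have hspec := comp2_spec ha h
  have h1 : ∀ s, y (A s) = y s + (conj a / a - 1) * comp2 a A y s := by
    intro s
    unfold comp2
    rw [mul_div_cancel₀ _ ht]
    ring
  have h2 : ∀ s, y (A.symm s) = y s - (1 - a / conj a) * comp2 a A y s := by
    intro s
    have h3 := h1 (A.symm s)
    have h4 := (hspec (A.symm s)).1
    rw [Equiv.apply_symm_apply] at h3 h4
    rw [h3, h4]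
    field_simp
    ring
  have h5 : ∑ s, (y s - comp2 a A y s) * conj (comp2 a A y s) = 0 := by
    set r := comp2 a A y with hr
    have h6 : ∑ s, (y s - r s) * conj (r s) =
        a / conj a * ∑ s, (y s - r s) * conj (r s) := by
      calc ∑ s, (y s - r s) * conj (r s)
          = ∑ s, (y (A s) - r (A s)) * conj (r (A s)) :=
            (Equiv.sum_comp A (fun s => (y s - r s) * conj (r s))).symm
        _ = ∑ s, a / conj a * ((y s - r s) * conj (r s)) := by
            refine Finset.sum_congr rfl fun s _ => ?_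
            rw [(hspec s).2, (hspec s).1, map_mul, map_div₀, Complex.conj_conj]
            ring
        _ = _ := by rw [Finset.mul_sum]
    have h7 : (1 - a / conj a) * ∑ s, (y s - r s) * conj (r s) = 0 := by
      linear_combination h6
    rcases mul_eq_zero.1 h7 with h8 | h8
    · exfalso
      apply ha
      have : a / conj a = 1 := by linear_combination -h8
      rw [div_eq_one_iff_eq ha1] at this
      exact this.symm
    · exact h8
  have h9 : ∑ s, y s * conj (comp2 a A y s) = ∑ s, comp2 a A y s * conj (comp2 a A y s) := by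
    rw [← sub_eq_zero, ← Finset.sum_sub_distrib, ← h5]
    refine Finset.sum_congr rfl fun s _ => ?_
    ring
  refine ⟨h1, h2, h9, ?_⟩
  have h10 := congrArg conj h9
  rw [map_sum, map_sum] at h10
  calc ∑ s, comp2 a A y s * conj (y s) = ∑ s, conj (y s * conj (comp2 a A y s)) := by
        refine Finset.sum_congr rfl fun s _ => ?_
        rw [map_mul, Complex.conj_conj, mul_comm]
    _ = ∑ s, conj (comp2 a A y s * conj (comp2 a A y s)) := h10
    _ = _ := by
        refine Finset.sum_congr rfl fun s _ => ?_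
        rw [map_mul, Complex.conj_conj, mul_comm]

theorem key_fin {a b : ℂ} (ha : conj a ≠ a) (hb : conj b ≠ b) (X nA nB m m' : ℂ)
    (hnA : conj nA = nA) (hnB : conj nB = nB) (hm : conj m = m')
    (hX : X = (1 - a / conj a) * nA + (1 - conj b / b) * nB -
      (1 - a / conj a) * (1 - conj b / b) * m)
    (h : (b / a * X).re = 0) : nA + nB - m - m' = 0 := by
  have ha0 : a ≠ 0 := by
    rintro rfl
    exact ha (map_zero _)
  have hb0 : b ≠ 0 := by
    rintro rfl
    exact hb (map_zero _)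
  have ha1 : conj a ≠ 0 := fun h0 => ha0 ((map_eq_zero _).1 h0)
  have hb1 : conj b ≠ 0 := fun h0 => hb0 ((map_eq_zero _).1 h0)
  have h1 : b / a * X + conj (b / a * X) = 0 := by
    rw [Complex.add_conj, h]
    simp
  have h2 : conj X = (1 - conj a / a) * nA + (1 - b / conj b) * nB -
      (1 - conj a / a) * (1 - b / conj b) * m' := by
    rw [hX]
    simp only [map_sub, map_add, map_mul, map_one, map_div₀, Complex.conj_conj, hnA, hnB, hm]
  rw [map_mul, map_div₀, h2, hX] at h1
  have h3 : (conj a - a) * (b - conj b) * (nA + nB - m - m') = 0 := by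
    have h4 : a * conj a * (b / a * ((1 - a / conj a) * nA + (1 - conj b / b) * nB -
      (1 - a / conj a) * (1 - conj b / b) * m) + conj b / conj a * ((1 - conj a / a) * nA +
      (1 - b / conj b) * nB - (1 - conj a / a) * (1 - b / conj b) * m')) = 0 := by
      rw [h1, mul_zero]
    rw [← h4]
    field_simp
    ring
  rcases mul_eq_zero.1 h3 with h5 | h5
  · exfalso
    rcases mul_eq_zero.1 h5 with h6 | h6
    · exact ha (sub_eq_zero.1 h6)
    · exact hb (sub_eq_zero.1 h6).symm
  · exact h5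

theorem key_eq (f g : Fin l → ℂ)
    (h : ∑ s, f s * conj (f s) + ∑ s, g s * conj (g s) - ∑ s, f s * conj (g s) -
      ∑ s, g s * conj (f s) = 0) : f = g := by
  funext s
  have h1 : ∑ s, (f s - g s) * conj (f s - g s) = 0 := by
    rw [← h, ← Finset.sum_add_distrib, ← Finset.sum_sub_distrib, ← Finset.sum_sub_distrib]
    refine Finset.sum_congr rfl fun s _ => ?_
    rw [map_sub]
    ring
  exact sub_eq_zero.1 (key_zero (fun s => f s - g s) h1 s)

theorem key_conj_self (f : Fin l → ℂ) :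
    conj (∑ s, f s * conj (f s)) = ∑ s, f s * conj (f s) := by
  rw [map_sum]
  refine Finset.sum_congr rfl fun s _ => ?_
  rw [map_mul, Complex.conj_conj, mul_comm]

theorem key_conj (f g : Fin l → ℂ) :
    conj (∑ s, f s * conj (g s)) = ∑ s, g s * conj (f s) := by
  rw [map_sum]
  refine Finset.sum_congr rfl fun s _ => ?_
  rw [map_mul, Complex.conj_conj, mul_comm]

theorem key₁ {a b : ℂ} (ha : conj a ≠ a) (hb : conj b ≠ b) {A B : Equiv.Perm (Fin l)}
    {y : Fin l → ℂ} (hA : EqQ a A y) (hB : EqQ b B y)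
    (h : (b / a * (∑ s, y s * conj (y s) -
      ∑ s, y (A.symm s) * conj (y (B.symm s)))).re = 0) : comp2 a A y = comp2 b B y := by
  obtain ⟨-, hA2, hA3, hA4⟩ := key_facts ha hA
  obtain ⟨-, hB2, hB3, hB4⟩ := key_facts hb hB
  set rA := comp2 a A y
  set rB := comp2 b B y
  apply key_eq
  refine key_fin ha hb _ _ _ _ _ (key_conj_self rA) (key_conj_self rB) (key_conj rA rB) ?_ h
  rw [← hA4, ← hB3]
  simp only [Finset.mul_sum, ← Finset.sum_add_distrib, ← Finset.sum_sub_distrib]
  refine Finset.sum_congr rfl fun s _ => ?_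
  rw [hA2 s, hB2 s]
  simp only [map_sub, map_mul, map_one, map_div₀, Complex.conj_conj]
  ring

theorem key₂ {a b : ℂ} (ha : conj a ≠ a) (hb : conj b ≠ b) {A B : Equiv.Perm (Fin l)}
    {y : Fin l → ℂ} (hA : EqQ a A y) (hB : EqQ b B y)
    (h : (b / a * (∑ s, y s * conj (y s) - ∑ s, y (B s) * conj (y (A s)))).re = 0) :
    comp2 a A y = comp2 b B y := by
  obtain ⟨hA1, -, hA3, hA4⟩ := key_facts ha hA
  obtain ⟨hB1, -, hB3, hB4⟩ := key_facts hb hB
  set rA := comp2 a A y
  set rB := comp2 b B y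
  have key := key_fin ha hb _ _ _ _ _ (key_conj_self rA) (key_conj_self rB) (key_conj rB rA) ?_ h
  · apply key_eq
    linear_combination key
  rw [← hA3, ← hB4]
  simp only [Finset.mul_sum, ← Finset.sum_add_distrib, ← Finset.sum_sub_distrib]
  refine Finset.sum_congr rfl fun s _ => ?_
  rw [hA1 s, hB1 s]
  simp only [map_add, map_sub, map_mul, map_one, map_div₀, Complex.conj_conj]
  ring

end Pool.Agent.Gep26
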