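import Pool.Agent.W_51eaa9_h26.Def
import Pool.Agent.W_51eaa9_h26.Bin

/-! # Change of coordinates in the plane

By `exists_subst` for `g` and `g.symm` (the composites are the identity by `MvPolynomial.funext`) the
substitution `F ↦ F ∘ g` is an automorphism of the polynomial ring which preserves homogeneity and
maps `coneIdeal (pts (g ∘ p))` onto `coneIdeal (pts p)`; the image of `Ideal.span {F, G}` is the ideal of the
images. -/

set_option autoImplicit false

noncomputable section

namespace Pool.Agent.Gep26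

open MvPolynomial

/-- membership in the cone ideal of a set of points given by vectors -/
theorem mem_coneIdeal_pts {k l : ℕ} {p : Fin k → Fin l → Fin 3 → ℂ} {H : MvPolynomial (Fin 3) ℂ} :
    H ∈ coneIdeal (pts p) ↔ ∀ i s, p i s ≠ 0 → ∀ t : ℂ, eval (t • p i s) H = 0 := by
  rw [mem_coneIdeal]
  constructor
  · intro h i s hp t
    refine h (Projectivization.mk ℂ (p i s) hp) ⟨i, s, Projectivization.submodule_mk _ hp⟩ _ ?_
    rw [Projectivization.submodule_mk]
    exact Submodule.smul_mem _ _ (Submodule.mem_span_singleton_self _)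
  · rintro h q ⟨i, s, hq⟩ v hv
    rw [hq, Submodule.mem_span_singleton] at hv
    obtain ⟨t, rfl⟩ := hv
    refine h i s ?_ t
    intro h0
    rw [h0, Submodule.span_zero_singleton] at hq
    have h1 : q.rep ∈ q.submodule := by
      rw [Projectivization.submodule_eq]
      exact Submodule.mem_span_singleton_self _
    rw [hq, Submodule.mem_bot] at h1
    exact q.rep_nonzero h1

theorem isCI_of_equiv {k l a b : ℕ} (g : (Fin 3 → ℂ) ≃ₗ[ℂ] (Fin 3 → ℂ))
    (p : Fin k → Fin l → Fin 3 → ℂ) (h : IsCI a b (pts fun i s => g (p i s))) :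
    IsCI a b (pts p) := by
  obtain ⟨F, G, hF, hG, hI⟩ := h
  obtain ⟨e, he, heh⟩ := exists_subst (g : (Fin 3 → ℂ) →ₗ[ℂ] (Fin 3 → ℂ))
  obtain ⟨e', he', heh'⟩ := exists_subst (g.symm : (Fin 3 → ℂ) →ₗ[ℂ] (Fin 3 → ℂ))
  have hee : ∀ H, e (e' H) = H := by
    intro H
    refine MvPolynomial.funext fun v => ?_
    rw [he, he']
    simp
  refine ⟨e F, e G, heh F a hF, heh G b hG, ?_⟩
  apply le_antisymm
  · rw [Ideal.span_le]
    intro H hH
    simp only [Set.mem_insert_iff, Set.mem_singleton_iff] at hH
    rw [SetLike.mem_coe, mem_coneIdeal_pts]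
    intro i s hp t
    have hgp : g (p i s) ≠ 0 := fun h0 => hp (by simpa using h0)
    have hFm : F ∈ coneIdeal (pts fun i s => g (p i s)) := hI ▸ Ideal.subset_span (by simp)
    have hGm : G ∈ coneIdeal (pts fun i s => g (p i s)) := hI ▸ Ideal.subset_span (by simp)
    rw [mem_coneIdeal_pts] at hFm hGm
    rcases hH with rfl | rfl
    · rw [he]
      have := hFm i s hgp t
      simpa using this
    · rw [he]
      have := hGm i s hgp t
      simpa using this
  · intro H hH
    rw [mem_coneIdeal_pts] at hH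
    have h1 : e' H ∈ coneIdeal (pts fun i s => g (p i s)) := by
      rw [mem_coneIdeal_pts]
      intro i s hgp t
      have hp : p i s ≠ 0 := fun h0 => hgp (by simp [h0])
      rw [he']
      have := hH i s hp t
      simpa using this
    rw [← hI] at h1
    obtain ⟨x, y, hxy⟩ := Ideal.mem_span_pair.1 h1
    rw [Ideal.mem_span_pair]
    refine ⟨e x, e y, ?_⟩
    rw [← map_mul, ← map_mul, ← map_add, hxy, hee]

/-- Rescaling and permuting the vectors does not change the set of points. -/
theorem pts_congr {k l : ℕ} {E : Type} [AddCommGroup E] [Module ℂ E] {p p' : Fin k → Fin l → E}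
    (ρ : Fin k → Equiv.Perm (Fin l))
    (h : ∀ i s, Submodule.span ℂ {p' i s} = Submodule.span ℂ {p i (ρ i s)}) : pts p' = pts p := by
  ext q
  constructor
  · rintro ⟨i, s, hq⟩
    exact ⟨i, ρ i s, by rw [hq, h]⟩
  · rintro ⟨i, s, hq⟩
    refine ⟨i, (ρ i).symm s, ?_⟩
    rw [hq, h, Equiv.apply_symm_apply]

end Pool.Agent.Gep26
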