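import Pool.Agent.W_51eaa9_h26.Def

/-! # Skew lines in space: transversals as permutations

`trans_of_pointwise`: for distinct `i, j, m` the map `s ↦ t` is injective: let
`z m u = a z i s + b z j t` and `z m u' = a' z i s' + b' z j t`.  `a ≠ 0` (else `z m u ∈ L j ⊓ L m`), `b ≠ 0`, the same for
`a'`, `b'`; `b' z m u - b z m u' = b' a z i s - b a' z i s'` is in `L m ⊓ L i = 0`, so `z i s`, `z i s'` are proportional
and `s = s'`.  In the same way `s ↦ u` is injective (solve for `z j t`).  Injective maps `Fin l → Fin l` are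
permutations.

`space_data`: `ℂ⁴ = L i₁ ⊕ L i₂`.  For `j ≠ i₁, i₂` the line `L j` is the graph of an isomorphism
`θ_j : L i₁ → L i₂` (the projections of `L j` to `L i₁` and `L i₂` are bijective as `L j` is skew to `L i₂` and `L i₁`).
Identify `L i₂` with `L i₁` by `θ_{i₃}`: `A_j = θ_{i₃}⁻¹ θ_j`, `A_{i₃} = 1`, and `A_i - A_j` is bijective for `i ≠ j` (`L i`, `L j`
are skew).  Let `w s = z i₁ s`.  The transversal through `(w s, 0)` to `L i₂`, `L j` meets them in `(0, θ_j w s)` and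
`(w s, θ_j w s)`, so (uniqueness of transversals; `Trans`) these are, up to factors, points `z i₂ _`, `z j _`;
for `j = i₃`: `z i₂ (ρ i₂ s) ∼ (0, θ_{i₃} w s)`, and `z j (ρ j s) ∼ (w s, θ_j w s)`, `ρ i₁ = 1`.  So `A_j w s ∼ w (α j s)`
defines the permutation `α j`.  The transversal through `z i (ρ i s) ∼ (w s, θ_i w s)` to `L i₂` and `L j` is
`(w s, θ_i w s) - (w s, θ_j w s) = (0, (θ_i - θ_j) w s)`, so `(A_i - A_j) w s ∼ w (δ i j s)` (`hb`).  The one to `L i₁` and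
`L j`: with `A_j w' = A_i w s`, `(w s, θ_i w s) - (w', θ_j w') = (w s - w', 0)`, `A_j (w s - w') = (A_j - A_i) w s`, so
`w' ∼ w ((α j)⁻¹ (α i s))` and `w s - w' ∼ w ((α j)⁻¹ (δ i j s))` (`hc`).  `ha` is clear.  `com`, `com'`: the linear maps
`A_j⁻¹ A_i` and `A_j⁻¹ (A_i - A_j) = A_j⁻¹ A_i - 1` commute, and the permutations are their actions on the points `w s`;
the same for `A_i A_j⁻¹` and `(A_i - A_j) A_j⁻¹`. -/

set_option autoImplicit false

noncomputable section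

namespace Pool.Agent.Gep26

theorem Spa_zero {E : Type} [AddCommGroup E] [Module ℂ E] {p q : Submodule ℂ E} (h : Disjoint p q)
    {x : E} (hp : x ∈ p) (hq : x ∈ q) : x = 0 :=
  Submodule.disjoint_def.1 h x hp hq

theorem Spa_inv {X : Type} (σ : Equiv.Perm X) (s : X) : σ (σ⁻¹ s) = s := σ.apply_symm_apply s

/-- Coefficients of a point of a transversal. -/
theorem Spa_coeff {k l : ℕ} {L : Fin k → Submodule ℂ (Fin 4 → ℂ)}
    {z : Fin k → Fin l → Fin 4 → ℂ} (h : SConf L z) {i j m : Fin k} (hjm : j ≠ m) (him : i ≠ m)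
    {s t u : Fin l} (hm : z m u ∈ Submodule.span ℂ {z i s, z j t}) :
    ∃ a b : ℂ, a ≠ 0 ∧ b ≠ 0 ∧ z m u = a • z i s + b • z j t := by
  obtain ⟨a, b, hab⟩ := Submodule.mem_span_pair.1 hm
  refine ⟨a, b, ?_, ?_, hab.symm⟩
  · rintro rfl
    rw [zero_smul, zero_add] at hab
    refine h.ne m u (Spa_zero (h.skew j m hjm) ?_ (h.mem m u))
    rw [← hab]
    exact (L j).smul_mem b (h.mem j t)
  · rintro rfl
    rw [zero_smul, add_zero] at hab
    refine h.ne m u (Spa_zero (h.skew i m him) ?_ (h.mem m u))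
    rw [← hab]
    exact (L i).smul_mem a (h.mem i s)

/-- Two vectors of one line which are proportional. -/
theorem Spa_eq {k l : ℕ} {L : Fin k → Submodule ℂ (Fin 4 → ℂ)}
    {z : Fin k → Fin l → Fin 4 → ℂ} (h : SConf L z) {i : Fin k} {s s' : Fin l} {a a' : ℂ}
    (ha' : a' ≠ 0) (he : a • z i s = a' • z i s') : s = s' := by
  by_contra hs
  refine h.indep i s s' hs ?_
  rw [Submodule.mem_span_singleton]
  refine ⟨a'⁻¹ * a, ?_⟩
  rw [mul_smul, he, smul_smul, inv_mul_cancel₀ ha', one_smul]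

theorem trans_of_pointwise {k l : ℕ} {L : Fin k → Submodule ℂ (Fin 4 → ℂ)}
    {z : Fin k → Fin l → Fin 4 → ℂ} (h : SConf L z)
    (ht : ∀ i j m, i ≠ j → j ≠ m → i ≠ m → ∀ s, ∃ t u,
      z m u ∈ Submodule.span ℂ {z i s, z j t}) : Trans z := by
  intro i j m hij hjm him
  choose t u hu using ht i j m hij hjm him
  have h1 : Function.Injective t := by
    intro s s' hss
    obtain ⟨a, b, ha, hb, e⟩ := Spa_coeff h hjm him (hu s)
    obtain ⟨a', b', ha', hb', e'⟩ := Spa_coeff h hjm him (hu s')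
    rw [← hss] at e'
    have e1 : b' • z m (u s) - b • z m (u s') = (b' * a) • z i s - (b * a') • z i s' := by
      rw [e, e']
      module
    have e2 : (b' * a) • z i s - (b * a') • z i s' = 0 := by
      refine Spa_zero (h.skew i m him) ((L i).sub_mem ((L i).smul_mem _ (h.mem i s))
        ((L i).smul_mem _ (h.mem i s'))) ?_
      rw [← e1]
      exact (L m).sub_mem ((L m).smul_mem _ (h.mem m _)) ((L m).smul_mem _ (h.mem m _))
    exact Spa_eq h (mul_ne_zero hb ha') (sub_eq_zero.1 e2)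
  have h2 : Function.Injective u := by
    intro s s' hss
    obtain ⟨a, b, ha, hb, e⟩ := Spa_coeff h hjm him (hu s)
    obtain ⟨a', b', ha', hb', e'⟩ := Spa_coeff h hjm him (hu s')
    rw [← hss] at e'
    have e1 : a • z i s - a' • z i s' = b' • z j (t s') - b • z j (t s) := by
      have e3 : a • z i s + b • z j (t s) = a' • z i s' + b' • z j (t s') := e.symm.trans e'
      rw [sub_eq_sub_iff_add_eq_add, e3]
      exact add_comm _ _
    have e2 : a • z i s - a' • z i s' = 0 := by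
      refine Spa_zero (h.skew i j hij) ((L i).sub_mem ((L i).smul_mem _ (h.mem i s))
        ((L i).smul_mem _ (h.mem i s'))) ?_
      rw [e1]
      exact (L j).sub_mem ((L j).smul_mem _ (h.mem j _)) ((L j).smul_mem _ (h.mem j _))
    exact Spa_eq h ha' (sub_eq_zero.1 e2)
  exact ⟨Equiv.ofBijective t (Finite.injective_iff_bijective.1 h1),
    Equiv.ofBijective u (Finite.injective_iff_bijective.1 h2), hu⟩

/-- A line which is skew to `L1` and `L2` is the graph of an isomorphism. -/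
theorem Spa_theta {L1 L2 Lj : Submodule ℂ (Fin 4 → ℂ)} (h1 : Module.finrank ℂ L1 = 2)
    (h2 : Module.finrank ℂ L2 = 2) (hj : Module.finrank ℂ Lj = 2) (h12 : Disjoint L1 L2)
    (h1j : Disjoint L1 Lj) (h2j : Disjoint L2 Lj) :
    ∃ θ : L1 ≃ₗ[ℂ] L2, (∀ v : L1, (v : Fin 4 → ℂ) + (θ v : Fin 4 → ℂ) ∈ Lj) ∧
      ∀ (x : L1) (y : L2), (x : Fin 4 → ℂ) + (y : Fin 4 → ℂ) ∈ Lj → y = θ x := by
  have hc : IsCompl L1 L2 := by
    rw [Submodule.isCompl_iff_disjoint L1 L2 (by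
      rw [h1, h2, Module.finrank_fin_fun])]
    exact h12
  let e := Submodule.prodEquivOfIsCompl L1 L2 hc
  have he : ∀ x : L1 × L2, e x = (x.1 : Fin 4 → ℂ) + (x.2 : Fin 4 → ℂ) := fun x => rfl
  let q1 : Lj →ₗ[ℂ] L1 := (LinearMap.fst ℂ L1 L2).comp (e.symm.toLinearMap.comp Lj.subtype)
  let q2 : Lj →ₗ[ℂ] L2 := (LinearMap.snd ℂ L1 L2).comp (e.symm.toLinearMap.comp Lj.subtype)
  have hq : ∀ x : Lj, (x : Fin 4 → ℂ) = (q1 x : Fin 4 → ℂ) + (q2 x : Fin 4 → ℂ) := by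
    intro x
    have := e.apply_symm_apply (x : Fin 4 → ℂ)
    rw [he] at this
    exact this.symm
  have i1 : Function.Injective q1 := by
    rw [injective_iff_map_eq_zero]
    intro x hx
    have := hq x
    rw [hx] at this
    apply Subtype.ext
    refine Spa_zero h2j ?_ x.2
    rw [this]
    simp
  have i2 : Function.Injective q2 := by
    rw [injective_iff_map_eq_zero]
    intro x hx
    have := hq x
    rw [hx] at this
    apply Subtype.ext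
    refine Spa_zero h1j ?_ x.2
    rw [this]
    simp
  let Q1 := LinearEquiv.ofInjectiveOfFinrankEq q1 i1 (hj.trans h1.symm)
  let Q2 := LinearEquiv.ofInjectiveOfFinrankEq q2 i2 (hj.trans h2.symm)
  have hQ1 : ∀ x, Q1 x = q1 x := fun x => rfl
  have hQ2 : ∀ x, Q2 x = q2 x := fun x => rfl
  have key : ∀ v : L1, (v : Fin 4 → ℂ) + ((Q2 (Q1.symm v) : L2) : Fin 4 → ℂ) ∈ Lj := by
    intro v
    have e1 := hq (Q1.symm v)
    rw [← hQ1, ← hQ2, Q1.apply_symm_apply] at e1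
    rw [← e1]
    exact (Q1.symm v).2
  refine ⟨Q1.symm.trans Q2, key, fun x y hxy => ?_⟩
  have e1 := Lj.sub_mem hxy (key x)
  rw [add_sub_add_left_eq_sub] at e1
  have e2 := Spa_zero h2j (L2.sub_mem y.2 (Q2 (Q1.symm x)).2) e1
  exact Subtype.ext (sub_eq_zero.1 e2)

/-- Proportional nonzero vectors. -/
def Spa_Sim {E : Type} [AddCommGroup E] [Module ℂ E] (x y : E) : Prop :=
  ∃ a : ℂ, a ≠ 0 ∧ x = a • y

variable {E F : Type} [AddCommGroup E] [Module ℂ E] [AddCommGroup F] [Module ℂ F]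

theorem Spa_Sim.symm {x y : E} (h : Spa_Sim x y) : Spa_Sim y x := by
  obtain ⟨a, ha, h⟩ := h
  refine ⟨a⁻¹, inv_ne_zero ha, ?_⟩
  rw [h, smul_smul, inv_mul_cancel₀ ha, one_smul]

theorem Spa_Sim.trans {x y w : E} (h : Spa_Sim x y) (h' : Spa_Sim y w) : Spa_Sim x w := by
  obtain ⟨a, ha, h⟩ := h
  obtain ⟨b, hb, h'⟩ := h'
  exact ⟨a * b, mul_ne_zero ha hb, by rw [h, h', smul_smul]⟩

theorem Spa_Sim.map {x y : E} (f : E →ₗ[ℂ] F) (h : Spa_Sim x y) : Spa_Sim (f x) (f y) := by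
  obtain ⟨a, ha, h⟩ := h
  exact ⟨a, ha, by rw [h, map_smul]⟩

/-- Commuting linear maps which permute points act by commuting permutations. -/
theorem Spa_commute {l : ℕ} (e : Fin l → E) (he : ∀ s t, Spa_Sim (e s) (e t) → s = t)
    (C D : E →ₗ[ℂ] E) (hCD : ∀ x, C (D x) = D (C x)) (c d : Equiv.Perm (Fin l))
    (hc : ∀ s, Spa_Sim (C (e s)) (e (c s))) (hd : ∀ s, Spa_Sim (D (e s)) (e (d s))) :
    Commute c d := by
  apply Equiv.ext
  intro s
  refine he _ _ ?_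
  have h1 : Spa_Sim (C (D (e s))) (e (c (d s))) := ((hd s).map C).trans (hc (d s))
  have h2 : Spa_Sim (D (C (e s))) (e (d (c s))) := ((hc s).map D).trans (hd (c s))
  rw [hCD] at h1
  exact h1.symm.trans h2

theorem space_data {k l : ℕ} {L : Fin k → Submodule ℂ (Fin 4 → ℂ)} {z : Fin k → Fin l → Fin 4 → ℂ}
    (h : SConf L z) (ht : Trans z) {i₁ i₂ i₃ : Fin k} (h12 : i₁ ≠ i₂) (h13 : i₁ ≠ i₃)
    (h23 : i₂ ≠ i₃) :
    ∃ (ρ : Fin k → Equiv.Perm (Fin l)) (α : Fin k → Equiv.Perm (Fin l))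
      (δ : Fin k → Fin k → Equiv.Perm (Fin l)), SData (fun i s => z i (ρ i s)) i₁ i₂ i₃ α δ := by
  classical
  let J := {j : Fin k // j ≠ i₁ ∧ j ≠ i₂}
  choose θ hθ1 hθ2 using fun j : J => Spa_theta (h.rank i₁) (h.rank i₂) (h.rank j.1)
    (h.skew _ _ h12) (h.skew _ _ j.2.1.symm) (h.skew _ _ j.2.2.symm)
  choose σ τ hστ using fun j : J => ht i₁ i₂ j.1 h12 j.2.2.symm j.2.1.symm
  let w : Fin l → L i₁ := fun s => ⟨z i₁ s, h.mem i₁ s⟩
  let e : Fin l → L i₂ := fun s => ⟨z i₂ s, h.mem i₂ s⟩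
  have hw : ∀ s t, Spa_Sim (w s) (w t) → s = t := by
    rintro s t ⟨a, ha, hst⟩
    refine Spa_eq h (i := i₁) (a := 1) ha ?_
    rw [one_smul]
    exact congrArg Subtype.val hst
  have hw0 : ∀ s, w s ≠ 0 := fun s hs => h.ne i₁ s (congrArg Subtype.val hs)
  -- points of the other lines
  have F : ∀ (j : J) s, Spa_Sim (θ j (w s)) (e (σ j s)) ∧ ∃ a : ℂ, a ≠ 0 ∧
      z j.1 (τ j s) = a • ((w s : Fin 4 → ℂ) + (θ j (w s) : Fin 4 → ℂ)) := by
    intro j s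
    obtain ⟨a, b, ha, hb, hab⟩ := Spa_coeff h j.2.2.symm j.2.1.symm (hστ j s)
    have e1 : b • e (σ j s) = θ j (a • w s) := by
      refine hθ2 j (a • w s) (b • e (σ j s)) ?_
      have e2 : ((a • w s : L i₁) : Fin 4 → ℂ) + ((b • e (σ j s) : L i₂) : Fin 4 → ℂ) =
          z j.1 (τ j s) := hab.symm
      rw [e2]
      exact h.mem _ _
    rw [map_smul] at e1
    have e3 : θ j (w s) = (a⁻¹ * b) • e (σ j s) := by
      rw [mul_smul, e1, smul_smul, inv_mul_cancel₀ ha, one_smul]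
    refine ⟨⟨a⁻¹ * b, mul_ne_zero (inv_ne_zero ha) hb, e3⟩, a, ha, ?_⟩
    rw [hab, smul_add]
    congr 1
    exact congrArg Subtype.val e1
  let j₃ : J := ⟨i₃, h13.symm, h23.symm⟩
  let g : Fin l → L i₂ := fun s => θ j₃ (w s)
  have hge : ∀ s, Spa_Sim (g s) (e (σ j₃ s)) := fun s => (F j₃ s).1
  have hg : ∀ s t, Spa_Sim (g s) (g t) → s = t := by
    intro s t hst
    refine hw s t ?_
    have := hst.map (θ j₃).symm.toLinearMap
    simpa [g] using this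
  let α : J → Equiv.Perm (Fin l) := fun j => (σ j₃)⁻¹ * σ j
  have G1 : ∀ (j : J) s, Spa_Sim (θ j (w s)) (g (α j s)) := by
    intro j s
    refine (F j s).1.trans ?_
    have := (hge (α j s)).symm
    have e1 : σ j₃ (α j s) = σ j s := by
      show σ j₃ ((σ j₃)⁻¹ (σ j s)) = σ j s
      exact Spa_inv _ _
    rwa [e1] at this
  have G2 : ∀ i j : J, i ≠ j → ∃ d : Equiv.Perm (Fin l), ∀ s,
      Spa_Sim (θ i (w s) - θ j (w s)) (g (d s)) := by
    intro i j hij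
    have hij' : i.1 ≠ j.1 := fun h => hij (Subtype.ext h)
    obtain ⟨σ', τ', hs⟩ := ht i.1 j.1 i₂ hij' j.2.2 i.2.2
    refine ⟨(σ j₃)⁻¹ * τ' * τ i, fun s => ?_⟩
    obtain ⟨a, b, ha, hb, hab⟩ := Spa_coeff h j.2.2 i.2.2 (hs (τ i s))
    obtain ⟨c, hc, hc'⟩ := (F i s).2
    obtain ⟨t, ht'⟩ : ∃ t, τ j t = σ' (τ i s) := ⟨(τ j)⁻¹ (σ' (τ i s)),
      Spa_inv _ _⟩
    obtain ⟨d, hd, hd'⟩ := (F j t).2
    rw [← ht', hc', hd'] at hab
    -- compare components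
    have e1 : (((a * c) • w s + (b * d) • w t : L i₁) : Fin 4 → ℂ) =
        ((e (τ' (τ i s)) - (a * c) • θ i (w s) - (b * d) • θ j (w t) : L i₂) : Fin 4 → ℂ) := by
      have e2 : ((e (τ' (τ i s)) : L i₂) : Fin 4 → ℂ) = z i₂ (τ' (τ i s)) := rfl
      push_cast
      rw [e2, hab]
      module
    have e3 : (((a * c) • w s + (b * d) • w t : L i₁) : Fin 4 → ℂ) = 0 := by
      refine Spa_zero (h.skew _ _ h12) (Subtype.mem _) ?_
      rw [e1]
      exact Subtype.mem _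
    have e4 : e (τ' (τ i s)) - (a * c) • θ i (w s) - (b * d) • θ j (w t) = 0 := by
      apply Subtype.ext
      rw [← e1, e3]
      rfl
    have e5 : (a * c) • w s + (b * d) • w t = 0 := Subtype.ext e3
    have hst : s = t := by
      have e5' : (a * c) • w s = (-(b * d)) • w t :=
        (eq_neg_of_add_eq_zero_left e5).trans (neg_smul _ _).symm
      refine hw s t ⟨(a * c)⁻¹ * (-(b * d)), mul_ne_zero (inv_ne_zero
        (mul_ne_zero ha hc)) (neg_ne_zero.2 (mul_ne_zero hb hd)), ?_⟩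
      rw [mul_smul, ← e5', smul_smul, inv_mul_cancel₀ (mul_ne_zero ha hc), one_smul]
    rw [← hst, ← add_smul] at e5
    have e6 : a * c + b * d = 0 := (smul_eq_zero.1 e5).resolve_right (hw0 s)
    have e7 : b * d = -(a * c) := by linear_combination e6
    rw [← hst, e7] at e4
    have e8 : e (τ' (τ i s)) = (a * c) • (θ i (w s) - θ j (w s)) := by
      rw [smul_sub, ← sub_eq_zero, ← e4]
      module
    have e9 : Spa_Sim (g (((σ j₃)⁻¹ * τ' * τ i) s)) (e (τ' (τ i s))) := by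
      have := hge (((σ j₃)⁻¹ * τ' * τ i) s)
      have e10 : σ j₃ (((σ j₃)⁻¹ * τ' * τ i) s) = τ' (τ i s) := by
        show σ j₃ ((σ j₃)⁻¹ (τ' (τ i s))) = τ' (τ i s)
        exact Spa_inv _ _
      rwa [e10] at this
    refine Spa_Sim.symm (e9.trans ?_)
    rw [e8]
    exact ⟨a * c, mul_ne_zero ha hc, rfl⟩
  choose! δ hδ using G2
  -- the commutation relations and `hc`
  have K1 : ∀ (i j : J) s, Spa_Sim (θ i (w s)) (θ j (w ((α j)⁻¹ (α i s)))) := by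
    intro i j s
    refine (G1 i s).trans ?_
    have := (G1 j ((α j)⁻¹ (α i s))).symm
    rwa [Spa_inv] at this
  have K2 : ∀ i j : J, i ≠ j → ∀ s,
      Spa_Sim (θ i (w s) - θ j (w s)) (θ j (w ((α j)⁻¹ (δ i j s)))) := by
    intro i j hij s
    refine (hδ i j hij s).trans ?_
    have := (G1 j ((α j)⁻¹ (δ i j s))).symm
    rwa [Spa_inv] at this
  have com : ∀ i j : J, i ≠ j → Commute ((α j)⁻¹ * α i) ((α j)⁻¹ * δ i j) := by
    intro i j hij
    refine Spa_commute w hw ((θ j).symm.toLinearMap.comp (θ i).toLinearMap)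
      ((θ j).symm.toLinearMap.comp ((θ i).toLinearMap - (θ j).toLinearMap)) ?_ _ _ ?_ ?_
    · intro x
      simp
    · intro s
      have := (K1 i j s).map (θ j).symm.toLinearMap
      simpa using this
    · intro s
      have := (K2 i j hij s).map (θ j).symm.toLinearMap
      simpa using this
  have com' : ∀ i j : J, i ≠ j → Commute (α i * (α j)⁻¹) (δ i j * (α j)⁻¹) := by
    intro i j hij
    have K3 : ∀ s, Spa_Sim ((θ j).symm (g s)) (w ((α j)⁻¹ s)) := by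
      intro s
      have := (G1 j ((α j)⁻¹ s)).symm
      rw [Spa_inv] at this
      have := this.map (θ j).symm.toLinearMap
      simpa using this
    refine Spa_commute g hg ((θ i).toLinearMap.comp (θ j).symm.toLinearMap)
      (((θ i).toLinearMap - (θ j).toLinearMap).comp (θ j).symm.toLinearMap) ?_ _ _ ?_ ?_
    · intro x
      simp
    · intro s
      exact ((K3 s).map (θ i).toLinearMap).trans (G1 i _)
    · intro s
      exact ((K3 s).map ((θ i).toLinearMap - (θ j).toLinearMap)).trans (hδ i j hij _)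
  -- the final data
  let α' : Fin k → Equiv.Perm (Fin l) := fun j => if hj : j ≠ i₁ ∧ j ≠ i₂ then α ⟨j, hj⟩ else 1
  let δ' : Fin k → Fin k → Equiv.Perm (Fin l) := fun i j =>
    if hi : i ≠ i₁ ∧ i ≠ i₂ then if hj : j ≠ i₁ ∧ j ≠ i₂ then δ ⟨i, hi⟩ ⟨j, hj⟩ else 1 else 1
  let ρ : Fin k → Equiv.Perm (Fin l) := fun j =>
    if hj : j ≠ i₁ ∧ j ≠ i₂ then τ ⟨j, hj⟩ else if j = i₁ then 1 else σ j₃
  have hα' : ∀ j : J, α' j.1 = α j := fun j => dif_pos j.2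
  have hδ' : ∀ i j : J, δ' i.1 j.1 = δ i j := fun i j => by
    show (if hi : i.1 ≠ i₁ ∧ i.1 ≠ i₂ then if hj : j.1 ≠ i₁ ∧ j.1 ≠ i₂ then
      δ ⟨i.1, hi⟩ ⟨j.1, hj⟩ else 1 else 1) = δ i j
    rw [dif_pos i.2, dif_pos j.2]
  have hρ : ∀ j : J, ρ j.1 = τ j := fun j => dif_pos j.2
  have hρ1 : ρ i₁ = 1 := by
    show (if hj : i₁ ≠ i₁ ∧ i₁ ≠ i₂ then τ ⟨i₁, hj⟩ else if i₁ = i₁ then 1 else σ j₃) = 1
    rw [dif_neg (fun hh => hh.1 rfl), if_pos rfl]
  have hρ2 : ρ i₂ = σ j₃ := by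
    show (if hj : i₂ ≠ i₁ ∧ i₂ ≠ i₂ then τ ⟨i₂, hj⟩ else if i₂ = i₁ then 1 else σ j₃) = σ j₃
    rw [dif_neg (fun hh => hh.2 rfl), if_neg h12.symm]
  have P1 : ∀ s, z i₁ (ρ i₁ s) = w s := by
    intro s
    rw [hρ1]
    rfl
  have P2 : ∀ s, ∃ a : ℂ, z i₂ (ρ i₂ s) = a • ((g s : L i₂) : Fin 4 → ℂ) := by
    intro s
    rw [hρ2]
    obtain ⟨a, ha, h'⟩ := (hge s).symm
    exact ⟨a, congrArg Subtype.val h'⟩
  have P3 : ∀ (j : J) s, ∃ a : ℂ, (w s : Fin 4 → ℂ) + (θ j (w s) : Fin 4 → ℂ) =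
      a • z j.1 (ρ j.1 s) := by
    intro j s
    rw [hρ]
    obtain ⟨a, ha, h'⟩ := (F j s).2
    exact ⟨a⁻¹, by rw [h', smul_smul, inv_mul_cancel₀ ha, one_smul]⟩
  refine ⟨ρ, α', δ', ⟨?_, ?_, ?_, ?_, ?_, ?_⟩⟩
  · rw [show i₃ = j₃.1 from rfl, hα']
    exact inv_mul_cancel _
  · intro i j hij hi1 hi2 hj1 hj2
    have := com ⟨i, hi1, hi2⟩ ⟨j, hj1, hj2⟩ fun h => hij (congrArg Subtype.val h)
    rw [← hα', ← hα', ← hδ'] at this
    exact this
  · intro i j hij hi1 hi2 hj1 hj2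
    have := com' ⟨i, hi1, hi2⟩ ⟨j, hj1, hj2⟩ fun h => hij (congrArg Subtype.val h)
    rw [← hα', ← hα', ← hδ'] at this
    exact this
  · intro j hj1 hj2 s
    obtain ⟨a, ha⟩ := P2 (α' j s)
    obtain ⟨c, hc, hc'⟩ := (G1 ⟨j, hj1, hj2⟩ s).symm
    obtain ⟨b, hb⟩ := P3 ⟨j, hj1, hj2⟩ s
    rw [← hα'] at hc'
    show z i₂ (ρ i₂ (α' j s)) ∈ Submodule.span ℂ {z i₁ (ρ i₁ s), z j (ρ j s)}
    rw [Submodule.mem_span_pair]
    refine ⟨-(a * c), a * c * b, ?_⟩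
    have e1 := congrArg Subtype.val hc'
    have e2 : ((g (α' j s) : L i₂) : Fin 4 → ℂ) =
        c • (θ ⟨j, hj1, hj2⟩ (w s) : Fin 4 → ℂ) := e1
    rw [ha, e2, P1, mul_smul (a * c) b, ← hb]
    module
  · intro i j hij hi1 hi2 hj1 hj2 s
    obtain ⟨a, ha⟩ := P2 (δ' i j s)
    obtain ⟨c, hc, hc'⟩ := (hδ ⟨i, hi1, hi2⟩ ⟨j, hj1, hj2⟩
      (fun h => hij (congrArg Subtype.val h)) s).symm
    obtain ⟨b, hb⟩ := P3 ⟨i, hi1, hi2⟩ s
    obtain ⟨d, hd⟩ := P3 ⟨j, hj1, hj2⟩ s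
    rw [← hδ'] at hc'
    show z i₂ (ρ i₂ (δ' i j s)) ∈ Submodule.span ℂ {z i (ρ i s), z j (ρ j s)}
    rw [Submodule.mem_span_pair]
    refine ⟨a * c * b, -(a * c * d), ?_⟩
    have e2 : ((g (δ' i j s) : L i₂) : Fin 4 → ℂ) =
        c • ((θ ⟨i, hi1, hi2⟩ (w s) : Fin 4 → ℂ) - (θ ⟨j, hj1, hj2⟩ (w s) : Fin 4 → ℂ)) :=
      congrArg Subtype.val hc'
    rw [ha, e2, neg_smul, mul_smul (a * c) b, mul_smul (a * c) d, ← hb, ← hd]
    module
  · intro i j hij hi1 hi2 hj1 hj2 s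
    have hij' : (⟨i, hi1, hi2⟩ : J) ≠ ⟨j, hj1, hj2⟩ := fun h => hij (congrArg Subtype.val h)
    have K1' := K1 ⟨i, hi1, hi2⟩ ⟨j, hj1, hj2⟩ s
    have K2' := K2 ⟨i, hi1, hi2⟩ ⟨j, hj1, hj2⟩ hij' s
    rw [← hα', ← hα'] at K1'
    rw [← hα', ← hδ'] at K2'
    obtain ⟨c, hc, hc'⟩ := K1'
    obtain ⟨d, hd, hd'⟩ := K2'.symm
    obtain ⟨b, hb⟩ := P3 ⟨i, hi1, hi2⟩ s
    obtain ⟨f, hf⟩ := P3 ⟨j, hj1, hj2⟩ ((α' j)⁻¹ (α' i s))
    -- `w u = - d (w s - c w t)`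
    have e1 : θ ⟨j, hj1, hj2⟩ (w ((α' j)⁻¹ (δ' i j s))) =
        θ ⟨j, hj1, hj2⟩ (d • (c • w ((α' j)⁻¹ (α' i s)) - w s)) := by
      have e2 : θ ⟨j, hj1, hj2⟩ (w ((α' j)⁻¹ (δ' i j s))) =
        d • (θ ⟨i, hi1, hi2⟩ (w s) - θ ⟨j, hj1, hj2⟩ (w s)) := hd'
      have e3 : θ ⟨i, hi1, hi2⟩ (w s) = c • θ ⟨j, hj1, hj2⟩ (w ((α' j)⁻¹ (α' i s))) := hc'
      rw [e2, e3, map_smul, map_sub, map_smul]
    have e4 := congrArg Subtype.val ((θ ⟨j, hj1, hj2⟩).injective e1)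
    have e5 : ((w ((α' j)⁻¹ (δ' i j s)) : L i₁) : Fin 4 → ℂ) =
        d • (c • ((w ((α' j)⁻¹ (α' i s)) : L i₁) : Fin 4 → ℂ) - ((w s : L i₁) : Fin 4 → ℂ)) := e4
    have e6 : ((θ ⟨i, hi1, hi2⟩ (w s) : L i₂) : Fin 4 → ℂ) =
        c • ((θ ⟨j, hj1, hj2⟩ (w ((α' j)⁻¹ (α' i s))) : L i₂) : Fin 4 → ℂ) :=
      congrArg Subtype.val hc'
    show z i₁ (ρ i₁ ((α' j)⁻¹ (δ' i j s))) ∈ Submodule.span ℂ
      {z i (ρ i s), z j (ρ j ((α' j)⁻¹ (α' i s)))}
    rw [Submodule.mem_span_pair]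
    refine ⟨-(d * b), d * c * f, ?_⟩
    rw [P1, e5, neg_smul, mul_smul d b, mul_smul (d * c) f, ← hb, ← hf]
    rw [e6]
    module

end Pool.Agent.Gep26
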