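import Pool.Agent.W_51eaa9_h26.Car
import Pool.Agent.W_51eaa9_h26.Coo
import Pool.Agent.W_51eaa9_h26.Spa

/-! # Geproci half grids have transversals

`D` from `Geproci`; by `carnot` the two sides are equal for all `v` with `D(v) ≠ 0` and `v` outside finitely many
proper subspaces, and both sides are polynomials in `v`, so they are equal for all `v` (multiply by `D` and by
the linear forms of `exists_linear`; `MvPolynomial.funext`, the polynomial ring is a domain).

`match_plane`: for `v ∈ U = L j ⊔ span {z i s}` (dimension 3) the left side is `0` (`area_eq_zero`), so `U` is contained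
in the union of the subspaces `L i ⊔ span {z j t}`, `L j ⊔ span {z m t}`, `L m ⊔ span {z i t}`, hence (infinite field) in
one of them, and is equal to it (dimensions).  The first kind contains `L i` and `L j`, the third one `L m` and
`L j`, impossible (`L j ⊔ L i = ⊤`).  So `U = L j ⊔ span {z m t}`, `z m t ∈ L j ⊔ span {z i s}`.

`trans_of_geproci`: `z m t = x + a z i s`, `x ∈ L j`, and (roles of `j`, `m` exchanged) `z j t' = y + b z i s`, `y ∈ L m`;
`a, b ≠ 0` (skew); `b z m t - a z j t' = b x - a y`, so `b z m t + a y = b x + a z j t' ∈ L m ⊓ L j = 0`, `x = - (a / b) z j t'`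
and `z m t ∈ span {z i s, z j t'}`.  `trans_of_pointwise`. -/

set_option autoImplicit false

noncomputable section

namespace Pool.Agent.Gep26

open MvPolynomial

/-- The linear form `v ↦ area w (c v)`. -/
def areaForm (w : Fin 2 → ℂ) (c : (Fin 4 → ℂ) →ₗ[ℂ] (Fin 2 → ℂ)) : (Fin 4 → ℂ) →ₗ[ℂ] ℂ :=
  w 0 • (LinearMap.proj 1 ∘ₗ c) - w 1 • (LinearMap.proj 0 ∘ₗ c)

theorem areaForm_apply (w : Fin 2 → ℂ) (c : (Fin 4 → ℂ) →ₗ[ℂ] (Fin 2 → ℂ)) (v : Fin 4 → ℂ) :
    areaForm w c v = area w (c v) := rfl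

/-- The identity of Carnot holds for all vectors. -/
theorem carnot_all {k l : ℕ} (hk : 2 ≤ k) (hl : 1 ≤ l) {L : Fin k → Submodule ℂ (Fin 4 → ℂ)}
    {z : Fin k → Fin l → Fin 4 → ℂ} (h : SConf L z) (hg : Geproci k l (pts z))
    {e : Fin k → ((Fin 2 → ℂ) →ₗ[ℂ] (Fin 4 → ℂ))} {w : Fin k → Fin l → Fin 2 → ℂ}
    {c : Fin k → Fin k → ((Fin 4 → ℂ) →ₗ[ℂ] (Fin 2 → ℂ))} (hc : SCoord L z e w c)
    {i j m : Fin k} (hij : i ≠ j) (hjm : j ≠ m) (him : i ≠ m) (v : Fin 4 → ℂ) :
    (∏ s, area (w i s) (c i j v)) * (∏ s, area (w j s) (c j m v)) *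
        (∏ s, area (w m s) (c m i v)) =
      (-1) ^ l * ((∏ s, area (w j s) (c j i v)) * (∏ s, area (w m s) (c m j v)) *
        (∏ s, area (w i s) (c i m v))) := by
  classical
  obtain ⟨D, d, hD, _, hDv⟩ := hg
  obtain ⟨D', d', hD', _, hDv'⟩ := Coo_planes h
  set P : MvPolynomial (Fin 4) ℂ := (∏ s, lf (areaForm (w i s) (c i j))) *
    (∏ s, lf (areaForm (w j s) (c j m))) * (∏ s, lf (areaForm (w m s) (c m i))) with hP
  set Q : MvPolynomial (Fin 4) ℂ := C ((-1) ^ l) * ((∏ s, lf (areaForm (w j s) (c j i))) *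
    (∏ s, lf (areaForm (w m s) (c m j))) * (∏ s, lf (areaForm (w i s) (c i m)))) with hQ
  have hPv : ∀ v, eval v P = (∏ s, area (w i s) (c i j v)) * (∏ s, area (w j s) (c j m v)) *
      (∏ s, area (w m s) (c m i v)) := by
    intro v
    rw [hP, map_mul, map_mul, map_prod, map_prod, map_prod]
    simp only [eval_lf, areaForm_apply]
  have hQv : ∀ v, eval v Q = (-1) ^ l * ((∏ s, area (w j s) (c j i v)) *
      (∏ s, area (w m s) (c m j v)) * (∏ s, area (w i s) (c i m v))) := by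
    intro v
    rw [hQ, map_mul, map_mul, map_mul, map_prod, map_prod, map_prod, eval_C]
    simp only [eval_lf, areaForm_apply]
  have h0 : (P - Q) * (D * D') = 0 := by
    refine MvPolynomial.funext fun v => ?_
    rw [map_mul, map_mul, map_zero]
    by_cases h1 : eval v D = 0
    · rw [h1, zero_mul, mul_zero]
    by_cases h2 : eval v D' = 0
    · rw [h2, mul_zero, mul_zero]
    have h3 := hDv' v h2
    have hv0 : v ≠ 0 := by
      rintro rfl
      exact h3 i j ⟨0, hl⟩ hij (Submodule.zero_mem _)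
    have h4 := (hDv v hv0 h1).2
    have h5 := carnot hk hl h hc h3 h4 hij hjm him
    rw [map_sub, hPv, hQv, h5, sub_self, zero_mul]
  have h1 : P = Q := sub_eq_zero.1 ((mul_eq_zero.1 h0).resolve_right (mul_ne_zero hD hD'))
  rw [← hPv, ← hQv, h1]

theorem finrank_plane {k l : ℕ} {L : Fin k → Submodule ℂ (Fin 4 → ℂ)}
    {z : Fin k → Fin l → Fin 4 → ℂ} (h : SConf L z) {i j : Fin k} (hij : i ≠ j) (s : Fin l) :
    Module.finrank ℂ (L j ⊔ Submodule.span ℂ {z i s} : Submodule ℂ (Fin 4 → ℂ)) = 3 := by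
  have h1 := Submodule.finrank_sup_add_finrank_inf_eq (L j) (Submodule.span ℂ {z i s})
  have h2 : L j ⊓ Submodule.span ℂ {z i s} = ⊥ := by
    rw [eq_bot_iff]
    intro x hx
    have hx2 : x ∈ L i := (Submodule.span_singleton_le_iff_mem _ _).2 (h.mem i s) hx.2
    exact Submodule.disjoint_def.1 (h.skew i j hij) x hx2 hx.1
  rw [h2, finrank_bot, h.rank, finrank_span_singleton (h.ne i s)] at h1
  exact h1

theorem not_both_le {k l : ℕ} {L : Fin k → Submodule ℂ (Fin 4 → ℂ)}
    {z : Fin k → Fin l → Fin 4 → ℂ} (h : SConf L z) {a b : Fin k} (hab : a ≠ b)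
    {U : Submodule ℂ (Fin 4 → ℂ)} (hU : Module.finrank ℂ U = 3) (ha : L a ≤ U) (hb : L b ≤ U) :
    False := by
  have h1 := Submodule.finrank_sup_add_finrank_inf_eq (L a) (L b)
  rw [(h.skew a b hab).eq_bot, finrank_bot, h.rank, h.rank] at h1
  have h2 := Submodule.finrank_mono (sup_le ha hb)
  omega

theorem match_plane {k l : ℕ} (hk : 2 ≤ k) (hl : 1 ≤ l) {L : Fin k → Submodule ℂ (Fin 4 → ℂ)}
    {z : Fin k → Fin l → Fin 4 → ℂ} (h : SConf L z) (hg : Geproci k l (pts z)) {i j m : Fin k}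
    (hij : i ≠ j) (hjm : j ≠ m) (him : i ≠ m) (s : Fin l) :
    ∃ t, z m t ∈ L j ⊔ Submodule.span ℂ {z i s} := by
  classical
  obtain ⟨e, w, c, hc⟩ := exists_scoord h
  by_contra hcon
  push Not at hcon
  have hU := finrank_plane h hij s
  obtain ⟨v, hv, hv'⟩ := exists_avoid (L j ⊔ Submodule.span ℂ {z i s})
    (fun q : Fin 3 × Fin l => ![L i ⊔ Submodule.span ℂ {z j q.2}, L j ⊔ Submodule.span ℂ {z m q.2},
      L m ⊔ Submodule.span ℂ {z i q.2}] q.1) (by
      rintro ⟨a, t⟩ hle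
      fin_cases a
      · have hle' : L j ⊔ Submodule.span ℂ {z i s} ≤ L i ⊔ Submodule.span ℂ {z j t} := hle
        have h1 := finrank_plane h hij.symm t
        exact not_both_le h hij h1 le_sup_left (le_sup_left.trans hle')
      · have hle' : L j ⊔ Submodule.span ℂ {z i s} ≤ L j ⊔ Submodule.span ℂ {z m t} := hle
        have h1 := finrank_plane h hjm.symm t
        have h2 := Submodule.eq_of_le_of_finrank_eq hle' (by rw [hU, h1])
        apply hcon t
        rw [h2]
        exact Submodule.mem_sup_right (Submodule.mem_span_singleton_self _)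
      · have hle' : L j ⊔ Submodule.span ℂ {z i s} ≤ L m ⊔ Submodule.span ℂ {z i t} := hle
        have h1 := finrank_plane h him t
        exact not_both_le h hjm.symm h1 le_sup_left (le_sup_left.trans hle'))
  have h1 := carnot_all hk hl h hg hc hij hjm him v
  have h2 : (∏ s, area (w i s) (c i j v)) = 0 :=
    Finset.prod_eq_zero (Finset.mem_univ s) ((area_eq_zero h hc hij s v).2 hv)
  rw [h2, zero_mul, zero_mul] at h1
  have h3 : ((-1 : ℂ) ^ l) ≠ 0 := pow_ne_zero _ (by norm_num)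
  rcases mul_eq_zero.1 ((mul_eq_zero.1 h1.symm).resolve_left h3) with h4 | h4
  · rcases mul_eq_zero.1 h4 with h5 | h5
    · obtain ⟨t, _, ht⟩ := Finset.prod_eq_zero_iff.1 h5
      exact hv' (0, t) ((area_eq_zero h hc hij.symm t v).1 ht)
    · obtain ⟨t, _, ht⟩ := Finset.prod_eq_zero_iff.1 h5
      exact hv' (1, t) ((area_eq_zero h hc hjm.symm t v).1 ht)
  · obtain ⟨t, _, ht⟩ := Finset.prod_eq_zero_iff.1 h4
    exact hv' (2, t) ((area_eq_zero h hc him t v).1 ht)

theorem trans_of_geproci {k l : ℕ} (hk : 2 ≤ k) (hl : 1 ≤ l)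
    {L : Fin k → Submodule ℂ (Fin 4 → ℂ)} {z : Fin k → Fin l → Fin 4 → ℂ} (h : SConf L z)
    (hg : Geproci k l (pts z)) : Trans z := by
  refine trans_of_pointwise h fun i j m hij hjm him s => ?_
  obtain ⟨t, ht⟩ := match_plane hk hl h hg hij hjm him s
  obtain ⟨t', ht'⟩ := match_plane hk hl h hg him hjm.symm hij s
  refine ⟨t', t, ?_⟩
  obtain ⟨x, hx, x', hx', hxe⟩ := Submodule.mem_sup.1 ht
  obtain ⟨a, rfl⟩ := Submodule.mem_span_singleton.1 hx'
  obtain ⟨y, hy, y', hy', hye⟩ := Submodule.mem_sup.1 ht'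
  obtain ⟨b, rfl⟩ := Submodule.mem_span_singleton.1 hy'
  have hb : b ≠ 0 := by
    rintro rfl
    rw [zero_smul, add_zero] at hye
    rw [hye] at hy
    exact h.ne j t' (Submodule.disjoint_def.1 (h.skew j m hjm) _ (h.mem j t') hy)
  have h1 : b • x + a • z j t' = b • z m t + a • y := by
    rw [← hxe, ← hye]
    module
  have h2 : b • x + a • z j t' = 0 := by
    refine Submodule.disjoint_def.1 (h.skew j m hjm) _ ?_ ?_
    · exact Submodule.add_mem _ (Submodule.smul_mem _ _ hx) (Submodule.smul_mem _ _ (h.mem j t'))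
    · rw [h1]
      exact Submodule.add_mem _ (Submodule.smul_mem _ _ (h.mem m t)) (Submodule.smul_mem _ _ hy)
  have h3 : x = -(b⁻¹ * a) • z j t' := by
    have e1 : b • x = -(a • z j t') := eq_neg_of_add_eq_zero_left h2
    have e2 : b⁻¹ • (b • x) = b⁻¹ • -(a • z j t') := by rw [e1]
    rw [smul_smul, inv_mul_cancel₀ hb, one_smul] at e2
    rw [e2]
    module
  rw [← hxe, h3]
  exact Submodule.mem_span_pair.2 ⟨a, -(b⁻¹ * a), by rw [add_comm]⟩

end Pool.Agent.Gep26
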