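import Pool.Agent.W_51eaa9_h26.Def

/-! # Projections from general points

`pconf_proj`: `π` is injective on `L i` and on every plane `L j ⊔ span {z i s}`: `v` is in none of them
(`L i ≤ L i ⊔ span {z j t}` for some `j ≠ i`, which exists as `k ≥ 2`; `l ≥ 1` may be assumed except for `rank`,
therefore the hypothesis `hvL`).

`exists_linear`: a proper subspace is contained in the kernel of a nonzero linear form; a nonzero linear
form gives a form of degree 1.

`proj_pts`: `π (z i s) ≠ 0` since `z i s` is not a multiple of `v`. -/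

set_option autoImplicit false

noncomputable section

namespace Pool.Agent.Gep26

open MvPolynomial

theorem pconf_proj {k l : ℕ} {L : Fin k → Submodule ℂ (Fin 4 → ℂ)} {z : Fin k → Fin l → Fin 4 → ℂ}
    (hrank : ∀ i, Module.finrank ℂ (L i) = 2) (hmem : ∀ i s, z i s ∈ L i)
    (hnot : ∀ i j s, i ≠ j → z i s ∉ L j)
    (hind : ∀ i s t, s ≠ t → z i t ∉ Submodule.span ℂ {z i s})
    {v : Fin 4 → ℂ} (hvL : ∀ i, v ∉ L i) (hv : ∀ i j s, i ≠ j → v ∉ L j ⊔ Submodule.span ℂ {z i s})
    {π : (Fin 4 → ℂ) →ₗ[ℂ] (Fin 3 → ℂ)} (hπ : LinearMap.ker π = Submodule.span ℂ {v}) :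
    PConf (fun i => (L i).map π) (fun i s => π (z i s)) := by
  have hv0 : ∀ i, ∀ x ∈ L i, π x = 0 → x = 0 := by
    intro i x hx hπx
    have h1 : x ∈ Submodule.span ℂ {v} := by rw [← hπ]; exact hπx
    obtain ⟨a, rfl⟩ := Submodule.mem_span_singleton.1 h1
    by_contra hne
    have ha : a ≠ 0 := fun e => hne (by rw [e, zero_smul])
    refine hvL i ?_
    have h2 := (L i).smul_mem a⁻¹ hx
    rwa [smul_smul, inv_mul_cancel₀ ha, one_smul] at h2
  refine ⟨fun i => ?_, fun i s => ⟨z i s, hmem i s, rfl⟩, fun i j s hij hm => ?_,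
    fun i s t hst hm => ?_⟩
  · rw [← hrank i]
    have h1 : Function.Injective (π.domRestrict (L i)) := by
      rw [injective_iff_map_eq_zero]
      intro x hx
      exact Subtype.ext (hv0 i x.1 x.2 hx)
    have h2 := LinearMap.finrank_range_of_inj h1
    rw [LinearMap.range_domRestrict] at h2
    exact h2
  · obtain ⟨x, hx, hx'⟩ := hm
    have h1 : z i s - x ∈ Submodule.span ℂ {v} := by
      rw [← hπ, LinearMap.mem_ker, map_sub, hx', sub_self]
    obtain ⟨a, ha⟩ := Submodule.mem_span_singleton.1 h1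
    by_cases ha0 : a = 0
    · rw [ha0, zero_smul] at ha
      refine hnot i j s hij ?_
      rw [← sub_eq_zero.1 ha.symm] at hx
      exact hx
    · refine hv i j s hij ?_
      have h2 : v = a⁻¹ • (z i s - x) := by
        rw [← ha, smul_smul, inv_mul_cancel₀ ha0, one_smul]
      rw [h2]
      exact Submodule.smul_mem _ _ (Submodule.sub_mem _
        (Submodule.mem_sup_right (Submodule.mem_span_singleton_self _))
        (Submodule.mem_sup_left hx))
  · obtain ⟨a, ha⟩ := Submodule.mem_span_singleton.1 hm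
    refine hind i s t hst (Submodule.mem_span_singleton.2 ⟨a, ?_⟩)
    have h1 : a • z i s - z i t = 0 := by
      refine hv0 i _ ((L i).sub_mem ((L i).smul_mem _ (hmem i s)) (hmem i t)) ?_
      rw [map_sub, map_smul, ha, sub_self]
    exact sub_eq_zero.1 h1

theorem Prj_sum (f : (Fin 4 → ℂ) →ₗ[ℂ] ℂ) (x : Fin 4 → ℂ) :
    ∑ i, x i * f (Pi.single i 1) = f x := by
  conv_rhs => rw [pi_eq_sum_univ' x]
  rw [map_sum]
  refine Finset.sum_congr rfl fun i _ => ?_
  rw [map_smul, smul_eq_mul]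

/-- A form which is nonzero only outside a given proper subspace. -/
theorem exists_linear (U : Submodule ℂ (Fin 4 → ℂ)) (hU : U ≠ ⊤) :
    ∃ D : MvPolynomial (Fin 4) ℂ, D ≠ 0 ∧ D.IsHomogeneous 1 ∧ ∀ v, eval v D ≠ 0 → v ∉ U := by
  obtain ⟨f, hf, hfU⟩ := Submodule.exists_le_ker_of_lt_top U (lt_top_iff_ne_top.2 hU)
  refine ⟨∑ i, C (f (Pi.single i 1)) * X i, ?_, ?_, ?_⟩
  · intro h0
    apply hf
    apply LinearMap.ext
    intro x
    have h1 : eval x (∑ i, C (f (Pi.single i 1)) * X i) = f x := by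
      rw [map_sum, ← Prj_sum f x]
      refine Finset.sum_congr rfl fun i _ => ?_
      rw [map_mul, eval_C, eval_X]
      exact mul_comm _ _
    rw [← h1, h0, map_zero]
    rfl
  · refine IsHomogeneous.sum _ _ _ fun i _ => ?_
    have := (isHomogeneous_C (Fin 4) (f (Pi.single i 1))).mul (isHomogeneous_X (R := ℂ) i)
    rwa [zero_add] at this
  · intro x hx hxU
    refine hx ?_
    have h1 : eval x (∑ i, C (f (Pi.single i 1)) * X i) = f x := by
      rw [map_sum, ← Prj_sum f x]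
      refine Finset.sum_congr rfl fun i _ => ?_
      rw [map_mul, eval_C, eval_X]
      exact mul_comm _ _
    rw [h1]
    exact hfU hxU

/-- Products of finitely many nonzero forms. -/
theorem exists_prod {I : Type} [Fintype I] (D : I → MvPolynomial (Fin 4) ℂ) (d : I → ℕ)
    (h0 : ∀ i, D i ≠ 0) (hd : ∀ i, (D i).IsHomogeneous (d i)) :
    ∃ (D' : MvPolynomial (Fin 4) ℂ) (d' : ℕ), D' ≠ 0 ∧ D'.IsHomogeneous d' ∧
      ∀ v, eval v D' ≠ 0 → ∀ i, eval v (D i) ≠ 0 := by
  refine ⟨∏ i, D i, ∑ i, d i, Finset.prod_ne_zero_iff.2 fun i _ => h0 i,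
    IsHomogeneous.prod _ _ _ fun i _ => hd i, fun v hv i => ?_⟩
  rw [map_prod] at hv
  exact Finset.prod_ne_zero_iff.1 hv i (Finset.mem_univ i)

theorem proj_pts {k l : ℕ} {z : Fin k → Fin l → Fin 4 → ℂ} (hz : ∀ i s, z i s ≠ 0)
    {v : Fin 4 → ℂ} (hv : ∀ i s, v ∉ Submodule.span ℂ {z i s})
    {π : (Fin 4 → ℂ) →ₗ[ℂ] (Fin 3 → ℂ)} (hπ : LinearMap.ker π = Submodule.span ℂ {v}) :
    proj π (pts z) = pts fun i s => π (z i s) := by
  have hne : ∀ i s, π (z i s) ≠ 0 := by
    intro i s h0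
    have h1 : z i s ∈ Submodule.span ℂ {v} := by rw [← hπ]; exact h0
    obtain ⟨a, ha⟩ := Submodule.mem_span_singleton.1 h1
    have ha0 : a ≠ 0 := by
      intro e
      rw [e, zero_smul] at ha
      exact hz i s ha.symm
    refine hv i s (Submodule.mem_span_singleton.2 ⟨a⁻¹, ?_⟩)
    rw [← ha, smul_smul, inv_mul_cancel₀ ha0, one_smul]
  ext q
  constructor
  · rintro ⟨z', ⟨i, s, hz'⟩, hq⟩
    refine ⟨i, s, ?_⟩
    rw [hq, hz', Submodule.map_span, Set.image_singleton]
  · rintro ⟨i, s, hq⟩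
    refine ⟨Projectivization.mk ℂ (z i s) (hz i s), ⟨i, s, rfl⟩, ?_⟩
    rw [hq, Projectivization.submodule_mk, Submodule.map_span, Set.image_singleton]

end Pool.Agent.Gep26
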