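import Pool.Agent.W_51eaa9_h26.Wce
import Pool.Agent.W_51eaa9_h26.Prj
import Pool.Agent.W_51eaa9_h26.Tri
import Pool.Agent.W_51eaa9_h26.Cen
import Pool.Agent.W_51eaa9_h26.Spa

/-! # The planar case

`D` is the linear form of `exists_linear` for `U`.  For `v ∉ U` `π` is injective on `U` (so `hv` of `pconf_proj` is clear:
`lines z' j ⊔ span {z' i s} ≤ U`).  `Trans` and `SData` hold for `π ∘ z'` (apply `π` to the linear relations).  Hypothesis `H` of `conf_ci`
at a point `o` of three lines `i₁, i₂, i₃`: `ρ, α, δ` from `space_data`, `sdata_transfer`, apply `π`, `central` for the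
configuration `π (z' i (ρ i s))` (permute the points: `PConf` and `Good` do not change). -/

set_option autoImplicit false

noncomputable section

namespace Pool.Agent.Gep26

open MvPolynomial

theorem Pln_mem_span {x y w : Fin 4 → ℂ} (π : (Fin 4 → ℂ) →ₗ[ℂ] (Fin 3 → ℂ))
    (h : x ∈ Submodule.span ℂ {y, w}) : π x ∈ Submodule.span ℂ {π y, π w} := by
  obtain ⟨a, b, rfl⟩ := Submodule.mem_span_pair.1 h
  rw [map_add, map_smul, map_smul]
  exact Submodule.mem_span_pair.2 ⟨a, b, rfl⟩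

/-- The form exists for a plane configuration which is the image of one with the data of a
configuration of skew lines. -/
theorem Pln_central {k l : ℕ} {M : Fin k → Submodule ℂ (Fin 3 → ℂ)} {p : Fin k → Fin l → Fin 3 → ℂ}
    (h : PConf M p) {i₁ i₂ i₃ : Fin k} (h12 : i₁ ≠ i₂) (h13 : i₁ ≠ i₃) (h23 : i₂ ≠ i₃)
    {ρ : Fin k → Equiv.Perm (Fin l)}
    {α : Fin k → Equiv.Perm (Fin l)} {δ : Fin k → Fin k → Equiv.Perm (Fin l)}
    (hd : SData (fun i s => p i (ρ i s)) i₁ i₂ i₃ α δ) {o : Fin 3 → ℂ} (ho : o ≠ 0)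
    (h1 : o ∈ M i₁) (h2 : o ∈ M i₂) (h3 : o ∈ M i₃) :
    ∃ Φ : MvPolynomial (Fin 3) ℂ, Φ.IsHomogeneous l ∧ ∀ i, o ∈ M i → Good M p Φ i := by
  have h' : PConf M fun i s => p i (ρ i s) :=
    ⟨h.rank, fun i s => h.mem i _, fun i j s hij => h.notMem i j _ hij,
      fun i s t hst => h.indep i _ _ fun e => hst ((ρ i).injective e)⟩
  obtain ⟨Φ, hΦ, hG⟩ := central h' h12 h13 h23 hd ho h1 h2 h3
  refine ⟨Φ, hΦ, fun i hi => ?_⟩
  obtain ⟨g1, g2⟩ := hG i hi
  refine ⟨fun s => ?_, g2⟩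
  have := g1 ((ρ i).symm s)
  simpa only [Equiv.apply_symm_apply] using this

theorem planar_geproci {k l : ℕ} (hk : 3 ≤ k) (hl : 2 ≤ l)
    {L : Fin k → Submodule ℂ (Fin 4 → ℂ)} {z z' : Fin k → Fin l → Fin 4 → ℂ} (h : SConf L z)
    (hz : SameColl z z') (ht : Trans z) {U : Submodule ℂ (Fin 4 → ℂ)}
    (hU : Module.finrank ℂ U = 3) (hzU : ∀ i s, z' i s ∈ U) : Geproci k l (pts z') := by
  obtain ⟨h1, h2, h3⟩ := lines_spec hl h hz
  have ht' := trans_transfer h hz ht
  have hUt : U ≠ ⊤ := by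
    rintro rfl
    rw [finrank_top, Module.finrank_fin_fun] at hU
    omega
  have hlU : ∀ i, lines z' i ≤ U := by
    intro i
    unfold lines
    rw [Submodule.span_le]
    rintro x ⟨s, rfl⟩
    exact hzU i s
  obtain ⟨D, hD, hD1, hD2⟩ := exists_linear U hUt
  refine ⟨D, 1, hD, hD1, fun v _ hv => ?_⟩
  have hvU := hD2 v hv
  have hspan : ∀ i s, v ∉ Submodule.span ℂ {z' i s} := fun i s hm =>
    hvU ((Submodule.span_singleton_le_iff_mem _ _).2 (hzU i s) hm)
  refine ⟨?_, ?_⟩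
  · rintro q ⟨i, s, hq⟩ hm
    rw [hq] at hm
    exact hspan i s hm
  · intro π hπ
    rw [proj_pts hz.ne hspan hπ]
    have hp : PConf (fun i => (lines z' i).map π) (fun i s => π (z' i s)) :=
      pconf_proj h1 h2 h3 (fun i s t hst => hz.indep i s i t fun e => hst (congrArg Prod.snd e))
        (fun i hm => hvU (hlU i hm))
        (fun i j s _ hm => hvU ((sup_le (hlU j)
          ((Submodule.span_singleton_le_iff_mem _ _).2 (hzU i s))) hm)) hπ
    refine conf_ci hk (by omega) hp ?_ ?_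
    · intro i j m hij hjm him
      obtain ⟨σ, τ, hστ⟩ := ht' i j m hij hjm him
      exact ⟨σ, τ, fun s => Pln_mem_span π (hστ s)⟩
    · rintro o ho ⟨i, j, m, hij, hjm, him, oi, oj, om⟩
      obtain ⟨ρ, α, δ, hd⟩ := space_data h ht hij him hjm
      have hd' := sdata_transfer h hz hij hd
      refine Pln_central hp hij him hjm (ρ := ρ) (α := α) (δ := δ) ?_ ho oi oj om
      exact ⟨hd'.one, hd'.com, hd'.com', fun j hj1 hj2 s => Pln_mem_span π (hd'.ha j hj1 hj2 s),
        fun i j hij hi1 hi2 hj1 hj2 s => Pln_mem_span π (hd'.hb i j hij hi1 hi2 hj1 hj2 s),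
        fun i j hij hi1 hi2 hj1 hj2 s => Pln_mem_span π (hd'.hc i j hij hi1 hi2 hj1 hj2 s)⟩

end Pool.Agent.Gep26
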