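import Pool.Agent.W_51eaa9_h26.Gen
import Pool.Agent.W_51eaa9_h26.Mat
import Pool.Agent.W_51eaa9_h26.Pln

/-! # The main theorems

`exists_sconf`: enumerate the `l` points of `Z` on each line (`Set.ncard` is `l ≥ 1`, so the set is finite) and
take `Projectivization.rep`.

`trans_iff`: `Trans z ↔ HasTransversals (pts z) L` (`trans_of_pointwise` for `←`).

`geproci_of_weaklyEquivalent`: `exists_sameColl`; if the lines `lines z' i` are pairwise disjoint then
`SConf (lines z') z'` and `geproci_of_trans`; otherwise `planar_of_meet`, `planar_geproci`. -/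

set_option autoImplicit false

noncomputable section

namespace Pool.Agent.Gep26

theorem exists_sconf {k l : ℕ} (hl : 1 ≤ l) {Z : Set P3} {L : Fin k → Submodule ℂ (Fin 4 → ℂ)}
    (h : IsHalfGrid k l Z L) : ∃ z : Fin k → Fin l → Fin 4 → ℂ, SConf L z ∧ Z = pts z := by
  have hfin : ∀ i, {z | z ∈ Z ∧ z.submodule ≤ L i}.Finite := by
    intro i
    refine Set.finite_of_ncard_ne_zero ?_
    rw [h.card i]
    omega
  have he : ∀ i, ∃ e : {z | z ∈ Z ∧ z.submodule ≤ L i} ≃ Fin l, True := by
    intro i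
    have : Finite {z | z ∈ Z ∧ z.submodule ≤ L i} := hfin i
    exact ⟨Finite.equivFinOfCardEq (by rw [Nat.card_coe_set_eq, h.card i]), trivial⟩
  choose e _ using he
  have hrep : ∀ q : P3, q.rep ∈ q.submodule := by
    intro q
    rw [Projectivization.submodule_eq]
    exact Submodule.mem_span_singleton_self _
  refine ⟨fun i s => ((e i).symm s).1.rep, ⟨h.rank, h.skew, fun i s =>
    ((e i).symm s).2.2 (hrep _), fun i s => Projectivization.rep_nonzero _, ?_⟩, ?_⟩
  · intro i s t hst hm
    apply hst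
    rw [← Projectivization.submodule_eq] at hm
    have h1 : ((e i).symm t).1.submodule ≤ ((e i).symm s).1.submodule := by
      rw [Projectivization.submodule_eq ((e i).symm t).1]
      exact (Submodule.span_singleton_le_iff_mem _ _).2 hm
    have h2 := Submodule.eq_of_le_of_finrank_eq h1 (by
      rw [Projectivization.finrank_submodule, Projectivization.finrank_submodule])
    exact ((e i).symm.injective (Subtype.ext (Projectivization.submodule_injective h2))).symm
  · ext q
    constructor
    · intro hq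
      obtain ⟨i, hi⟩ := h.cover q hq
      refine ⟨i, e i ⟨q, hq, hi⟩, ?_⟩
      change q.submodule = Submodule.span ℂ {((e i).symm (e i ⟨q, hq, hi⟩)).1.rep}
      rw [Equiv.symm_apply_apply]
      exact Projectivization.submodule_eq q
    · rintro ⟨i, s, hq⟩
      rw [← Projectivization.submodule_eq] at hq
      rw [Projectivization.submodule_injective hq]
      exact ((e i).symm s).2.1

theorem Main_index {k l : ℕ} {L : Fin k → Submodule ℂ (Fin 4 → ℂ)}
    {z : Fin k → Fin l → Fin 4 → ℂ} (h : SConf L z) {q : P3} (hq : q ∈ pts z) {i : Fin k}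
    (hi : q.submodule ≤ L i) : ∃ s, q.submodule = Submodule.span ℂ {z i s} := by
  obtain ⟨j, s, hs⟩ := hq
  by_cases hij : i = j
  · subst hij
    exact ⟨s, hs⟩
  · exfalso
    rw [hs, Submodule.span_singleton_le_iff_mem] at hi
    exact h.ne j s (Submodule.disjoint_def.1 (h.skew i j hij) _ hi (h.mem j s))

theorem trans_iff {k l : ℕ} {L : Fin k → Submodule ℂ (Fin 4 → ℂ)}
    {z : Fin k → Fin l → Fin 4 → ℂ} (h : SConf L z) : Trans z ↔ HasTransversals (pts z) L := by
  have hsub : ∀ i s, (Projectivization.mk ℂ (z i s) (h.ne i s)).submodule =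
      Submodule.span ℂ {z i s} := fun i s => Projectivization.submodule_mk _ _
  have hle : ∀ i s, (Projectivization.mk ℂ (z i s) (h.ne i s)).submodule ≤ L i := by
    intro i s
    rw [hsub]
    exact (Submodule.span_singleton_le_iff_mem _ _).2 (h.mem i s)
  constructor
  · intro ht i j m hij hjm him q hq hqi
    obtain ⟨s, hs⟩ := Main_index h hq hqi
    obtain ⟨σ, τ, hστ⟩ := ht i j m hij hjm him
    refine ⟨Projectivization.mk ℂ (z j (σ s)) (h.ne _ _), ⟨j, σ s, hsub _ _⟩,
      Projectivization.mk ℂ (z m (τ s)) (h.ne _ _), ⟨m, τ s, hsub _ _⟩, hle _ _, hle _ _, ?_⟩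
    rw [hsub, hsub, hs, ← Submodule.span_insert, Submodule.span_singleton_le_iff_mem]
    exact hστ s
  · intro ht
    refine trans_of_pointwise h fun i j m hij hjm him s => ?_
    obtain ⟨q, hq, q', hq', hqj, hqm, hle'⟩ := ht i j m hij hjm him
      (Projectivization.mk ℂ (z i s) (h.ne i s)) ⟨i, s, hsub _ _⟩ (hle _ _)
    obtain ⟨t, ht1⟩ := Main_index h hq hqj
    obtain ⟨u, hu1⟩ := Main_index h hq' hqm
    refine ⟨t, u, ?_⟩
    rw [hu1, ht1, hsub, ← Submodule.span_insert, Submodule.span_singleton_le_iff_mem] at hle'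
    exact hle'

theorem geproci_iff {k l : ℕ} (hk : 3 ≤ k) (hl : 1 ≤ l) {Z : Set P3}
    {L : Fin k → Submodule ℂ (Fin 4 → ℂ)} (h : IsHalfGrid k l Z L) :
    Geproci k l Z ↔ HasTransversals Z L := by
  obtain ⟨z, hz, rfl⟩ := exists_sconf hl h
  rw [← trans_iff hz]
  exact ⟨trans_of_geproci (by omega) hl hz, geproci_of_trans hk hl hz⟩

theorem geproci_of_weaklyEquivalent {k l : ℕ} (hk : 3 ≤ k) (hl : 2 ≤ l) {Z Z' : Set P3}
    {L : Fin k → Submodule ℂ (Fin 4 → ℂ)} (h : IsHalfGrid k l Z L) (hg : Geproci k l Z)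
    (hw : WeaklyEquivalent Z Z') : Geproci k l Z' := by
  obtain ⟨z, hz, rfl⟩ := exists_sconf (by omega) h
  have ht := trans_of_geproci (by omega) (by omega) hz hg
  obtain ⟨z', hz', rfl⟩ := exists_sameColl hz hw
  by_cases hd : ∀ i j, i ≠ j → Disjoint (lines z' i) (lines z' j)
  · obtain ⟨h1, h2, h3⟩ := lines_spec hl hz hz'
    exact geproci_of_trans hk (by omega) (L := lines z')
      ⟨h1, hd, h2, hz'.ne, fun i s t hst => hz'.indep i s i t fun e => hst (congrArg Prod.snd e)⟩
      (trans_transfer hz hz' ht)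
  · push Not at hd
    obtain ⟨i, j, hij, hm⟩ := hd
    obtain ⟨U, hU, hzU⟩ := planar_of_meet hk hl hz hz' ht hij hm
    exact planar_geproci hk hl hz hz' ht hU hzU

end Pool.Agent.Gep26
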