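import Pool.Agent.W_51eaa9_h26.Lin
import Pool.Agent.W_51eaa9_h26.Chart
import Pool.Agent.W_51eaa9_h26.Idl

/-! # The gluing theorem without coordinates

Let `S` be the set of the vectors `p i s` (nonzero: they are not in another line, `k ≥ 2`) and of one nonzero
vector in each `M i ⊓ M j`, `i ≠ j` (`M i ≠ M j` by `notMem` and `l ≥ 1`, so the dimension is 1).  Take `g`, `m`, `n` from
`exists_chart` and `x i s = g (p i s) 1 / g (p i s) 2`.  `m` is injective since the intersection point of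
`M i` and `M j` has `T ≠ 0`; `hx` is `notMem`, `x i` is injective by `indep`.  If `Φ` is good for `i` then
`Φ ∘ g⁻¹` (`exists_subst`) is `GoodC` for `i`: its restriction has degree `≤ l`, the `l` roots `x i s` and is not `0`
(otherwise by homogeneity `Φ` vanishes on `M i`: at the vectors with `T ≠ 0`, hence everywhere).  Apply
`glue`, `ideal_eq`, then `isCI_of_equiv` and `pts_congr`. -/

set_option autoImplicit false

noncomputable section

namespace Pool.Agent.Gep26

open MvPolynomial

theorem plane_ci {k l : ℕ} (hk : 2 ≤ k) (hl : 1 ≤ l) {M : Fin k → Submodule ℂ (Fin 3 → ℂ)}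
    {p : Fin k → Fin l → Fin 3 → ℂ} (h : PConf M p)
    (H1 : ∀ i j m, i ≠ j → j ≠ m → i ≠ m → ∃ Φ : MvPolynomial (Fin 3) ℂ, Φ.IsHomogeneous l ∧
      Good M p Φ i ∧ Good M p Φ j ∧ Good M p Φ m)
    (H2 : ∀ o : Fin 3 → ℂ, o ≠ 0 → (∃ i j, i ≠ j ∧ o ∈ M i ∧ o ∈ M j) →
      ∃ Φ : MvPolynomial (Fin 3) ℂ, Φ.IsHomogeneous l ∧ ∀ i, o ∈ M i → Good M p Φ i) :
    IsCI k l (pts p) := by
  classical
  have hother : ∀ i : Fin k, ∃ j : Fin k, i ≠ j := by
    intro i
    have : Nontrivial (Fin k) := Fin.nontrivial_iff_two_le.2 hk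
    obtain ⟨j, hj⟩ := exists_ne i
    exact ⟨j, hj.symm⟩
  have hp0 : ∀ i s, p i s ≠ 0 := by
    intro i s h0
    obtain ⟨j, hj⟩ := hother i
    exact h.notMem i j s hj (by rw [h0]; exact (M j).zero_mem)
  -- crossing vectors
  have hcr : ∀ i j : Fin k, ∃ o : Fin 3 → ℂ, o ≠ 0 ∧ o ∈ M i ∧ o ∈ M j := by
    intro i j
    have h1 := Submodule.finrank_sup_add_finrank_inf_eq (M i) (M j)
    have h2 : Module.finrank ℂ (M i ⊔ M j : Submodule ℂ (Fin 3 → ℂ)) ≤ 3 := by
      have := Submodule.finrank_le (M i ⊔ M j)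
      rwa [Module.finrank_fin_fun] at this
    rw [h.rank, h.rank] at h1
    have h3 : M i ⊓ M j ≠ ⊥ := by
      intro h0
      rw [h0, finrank_bot] at h1
      omega
    obtain ⟨o, ho, ho0⟩ := Submodule.exists_mem_ne_zero_of_ne_bot h3
    exact ⟨o, ho0, ho.1, ho.2⟩
  choose o ho0 hoi hoj using hcr
  -- the chart
  obtain ⟨g, hg, hgM⟩ := exists_chart M h.rank
    ((Finset.univ.image fun q : Fin k × Fin l => p q.1 q.2) ∪
      (Finset.univ.image fun q : Fin k × Fin k => o q.1 q.2)) (by
      intro v hv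
      rw [Finset.mem_union, Finset.mem_image, Finset.mem_image] at hv
      rcases hv with ⟨q, _, rfl⟩ | ⟨q, _, rfl⟩
      · exact hp0 _ _
      · exact ho0 _ _)
  have hgp : ∀ i s, g (p i s) 2 ≠ 0 := fun i s => hg _ (Finset.mem_union_left _
    (Finset.mem_image.2 ⟨(i, s), Finset.mem_univ _, rfl⟩))
  have hgo : ∀ i j, g (o i j) 2 ≠ 0 := fun i j => hg _ (Finset.mem_union_right _
    (Finset.mem_image.2 ⟨(i, j), Finset.mem_univ _, rfl⟩))
  choose m n hmn using hgM
  set x : Fin k → Fin l → ℂ := fun i s => g (p i s) 1 / g (p i s) 2 with hxd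
  have hvec : ∀ i s, g (p i s) = g (p i s) 2 • ![m i * x i s + n i, x i s, 1] := by
    intro i s
    have h1 := (hmn i (p i s)).1 (h.mem i s)
    have h2 := hgp i s
    funext a
    fin_cases a
    · simp only [hxd, Fin.zero_eta, Pi.smul_apply, Matrix.cons_val_zero, smul_eq_mul]
      rw [h1]; field_simp
    · show g (p i s) 1 = g (p i s) 2 * (g (p i s) 1 / g (p i s) 2)
      field_simp
    · simp
  have hvec' : ∀ i s, ![m i * x i s + n i, x i s, 1] = (g (p i s) 2)⁻¹ • g (p i s) := by
    intro i s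
    conv_rhs => rw [hvec i s]
    rw [smul_smul]
    have h2 := hgp i s
    have : (g (p i s) 2)⁻¹ * g (p i s) 2 = 1 := inv_mul_cancel₀ h2
    simp [this]
  have hm : Function.Injective m := by
    intro i j hij
    by_contra hne
    have h1 := (hmn i _).1 (hoi i j)
    have h2 := (hmn j _).1 (hoj i j)
    have h3 : n i = n j := by
      rw [h1, hij] at h2
      have := hgo i j
      have h4 : (n i - n j) * g (o i j) 2 = 0 := by linear_combination h2
      exact sub_eq_zero.1 ((mul_eq_zero.1 h4).resolve_right this)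
    have hl' : 0 < l := hl
    refine h.notMem i j ⟨0, hl'⟩ hne ?_
    rw [hmn j, ← hij, ← h3, ← hmn i]
    exact h.mem i _
  have hx : ∀ i j s, i ≠ j → m i * x i s + n i ≠ m j * x i s + n j := by
    intro i j s hij heq
    apply h.notMem i j s hij
    rw [hmn j]
    have h1 := (hmn i (p i s)).1 (h.mem i s)
    have h2 := hgp i s
    have h3 : x i s * g (p i s) 2 = g (p i s) 1 := by rw [hxd]; field_simp
    linear_combination h1 + (g (p i s) 2) * heq + (m j - m i) * h3
  have hxi : ∀ i, Function.Injective (x i) := by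
    intro i s t hst
    by_contra hne
    apply h.indep i s t hne
    have h1 : g (p i t) = (g (p i t) 2 * (g (p i s) 2)⁻¹) • g (p i s) := by
      conv_lhs => rw [hvec i t, ← hst, hvec' i s]
      rw [smul_smul]
    have h2 : p i t = (g (p i t) 2 * (g (p i s) 2)⁻¹) • p i s := by
      apply g.injective
      rw [map_smul]
      exact h1
    rw [h2]
    exact Submodule.smul_mem _ _ (Submodule.mem_span_singleton_self _)
  -- transfer of good forms
  obtain ⟨e, he, heh⟩ := exists_subst (g : (Fin 3 → ℂ) →ₗ[ℂ] (Fin 3 → ℂ))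
  obtain ⟨e', he', heh'⟩ := exists_subst (g.symm : (Fin 3 → ℂ) →ₗ[ℂ] (Fin 3 → ℂ))
  have htr : ∀ (Φ : MvPolynomial (Fin 3) ℂ), Φ.IsHomogeneous l → ∀ i, Good M p Φ i →
      GoodC (x i) (m i) (n i) (e' Φ) := by
    intro Φ hΦ i hgood
    obtain ⟨κ, hκ⟩ := eq_C_mul_prod (x i) (hxi i) (restr (m i) (n i) (e' Φ))
      (restr_natDegree _ _ (heh' Φ l hΦ)) (by
        intro s
        rw [restr_eval, he', hvec' i s]
        have : (g.symm : (Fin 3 → ℂ) →ₗ[ℂ] (Fin 3 → ℂ)) ((g (p i s) 2)⁻¹ • g (p i s))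
            = (g (p i s) 2)⁻¹ • p i s := by
          rw [map_smul]
          simp
        rw [this, eval_smul_form hΦ, hgood.1 s, mul_zero])
    refine ⟨κ, ?_, hκ⟩
    rintro rfl
    -- `Φ` vanishes on `M i`
    have hz : restr (m i) (n i) (e' Φ) = 0 := by rw [hκ]; simp
    have hall : ∀ v ∈ M i, eval v (Φ * e (X 2)) = 0 := by
      intro v hv
      rw [map_mul, he, eval_X]
      by_cases hv2 : g v 2 = 0
      · have : ((g : (Fin 3 → ℂ) →ₗ[ℂ] (Fin 3 → ℂ)) v) 2 = 0 := hv2
        rw [this, mul_zero]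
      · have h1 := (hmn i v).1 hv
        have h2 : g v = g v 2 • ![m i * (g v 1 / g v 2) + n i, g v 1 / g v 2, 1] := by
          funext a
          fin_cases a
          · simp only [Fin.zero_eta, Pi.smul_apply, Matrix.cons_val_zero, smul_eq_mul]
            rw [h1]; field_simp
          · show g v 1 = g v 2 * (g v 1 / g v 2)
            field_simp
          · simp
        have h3 : eval (g v) (e' Φ) = 0 := by
          rw [h2, eval_smul_form (heh' Φ l hΦ), ← restr_eval, hz]
          simp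
        rw [he'] at h3
        have h4 : (g.symm : (Fin 3 → ℂ) →ₗ[ℂ] (Fin 3 → ℂ)) (g v) = v := by simp
        rw [h4] at h3
        rw [h3, zero_mul]
    rcases eq_zero_on (M i) hall with h5 | h5
    · obtain ⟨v, hv, hv0⟩ := hgood.2
      exact hv0 (h5 v hv)
    · have h6 := h5 _ (hoi i i)
      rw [he, eval_X] at h6
      exact hgo i i h6
  obtain ⟨F, hF, hFg⟩ := glue m n hm x hx
    (by
      intro i j r hij hjr hir _
      obtain ⟨Φ, h1, h2, h3, h4⟩ := H1 i j r hij hjr hir
      exact ⟨e' Φ, heh' Φ l h1, htr Φ h1 i h2, htr Φ h1 j h3, htr Φ h1 r h4⟩)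
    (by
      rintro u v ⟨i, j, hij, hi, hj⟩
      have hmem : ∀ i, v = m i * u + n i → g.symm ![v, u, 1] ∈ M i := by
        intro i hi
        rw [hmn i]
        simpa using hi
      obtain ⟨Φ, h1, h2⟩ := H2 (g.symm ![v, u, 1]) (by
        intro h0
        have h3 : (![v, u, 1] : Fin 3 → ℂ) = 0 := by
          have := congrArg g h0
          rwa [LinearEquiv.apply_symm_apply, map_zero] at this
        have := congrFun h3 2
        simp at this) ⟨i, j, hij, hmem i hi, hmem j hj⟩
      exact ⟨e' Φ, heh' Φ l h1, fun i hi => htr Φ h1 i (h2 i (hmem i hi))⟩)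
  have hI := ideal_eq m n hm x hxi hx F hF hFg
  apply isCI_of_equiv g
  have hpts : pts (fun i s => g (p i s)) = pts fun i s => ![m i * x i s + n i, x i s, 1] := by
    refine pts_congr (fun _ => 1) fun i s => ?_
    simp only [Equiv.Perm.coe_one, id]
    rw [hvec' i s]
    exact (Submodule.span_singleton_smul_eq (inv_ne_zero (hgp i s)).isUnit _).symm
  rw [hpts]
  refine ⟨∏ i, (X 0 - C (m i) * X 1 - C (n i) * X 2), F, ?_, hF, hI⟩
  have := IsHomogeneous.prod (Finset.univ : Finset (Fin k))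
    (fun i => (X 0 - C (m i) * X 1 - C (n i) * X 2 : MvPolynomial (Fin 3) ℂ)) (fun _ => 1)
    (fun i _ => hom_lambda _ _)
  simpa using this

end Pool.Agent.Gep26
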