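import Pool.Agent.W_51eaa9_h26.Def

/-! # Transfer by a weak combinatorial equivalence

For distinct points `a`, `b` of `Z` the set `S = {a, b}` spans a line, so for `c ∈ Z`: `c` is on the line `⟨a, b⟩` iff
`f c` is on the line `⟨f a, f b⟩` (for `←`: the point of `{z ∈ Z | z ∈ ⟨a, b⟩}` with the same image is `c`).
`z' i s` is a vector representing `f [z i s]` (`Projectivization.rep`).

`Equivalent` collects what is needed. -/

set_option autoImplicit false

noncomputable section

namespace Pool.Agent.Gep26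

/-- `z'` are vectors of distinct points with the same collinearities as the `z i s`. -/
structure SameColl {k l : ℕ} (z z' : Fin k → Fin l → Fin 4 → ℂ) : Prop where
  ne : ∀ i s, z' i s ≠ 0
  indep : ∀ i s j t, (i, s) ≠ (j, t) → z' j t ∉ Submodule.span ℂ {z' i s}
  coll : ∀ i s j t m u, (i, s) ≠ (j, t) →
    (z m u ∈ Submodule.span ℂ {z i s, z j t} ↔ z' m u ∈ Submodule.span ℂ {z' i s, z' j t})

theorem Wce_finrank {x y : Fin 4 → ℂ} (hx : x ≠ 0) (hy : y ∉ Submodule.span ℂ {x}) :
    Module.finrank ℂ (Submodule.span ℂ ({x, y} : Set (Fin 4 → ℂ))) = 2 := by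
  have h1 : LinearIndependent ℂ ![x, y] := by
    rw [LinearIndependent.pair_iff' hx]
    intro a ha
    exact hy (Submodule.mem_span_singleton.2 ⟨a, ha⟩)
  have h2 := finrank_span_eq_card h1
  have h3 : Set.range ![x, y] = {x, y} := by
    rw [Matrix.range_cons, Matrix.range_cons, Matrix.range_empty, Set.union_empty]
    rfl
  rw [h3, Fintype.card_fin] at h2
  exact h2

theorem Wce_indep {k l : ℕ} {L : Fin k → Submodule ℂ (Fin 4 → ℂ)}
    {z : Fin k → Fin l → Fin 4 → ℂ} (h : SConf L z) {i j : Fin k} {s t : Fin l}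
    (hne : (i, s) ≠ (j, t)) : z j t ∉ Submodule.span ℂ {z i s} := by
  intro hm
  by_cases hij : i = j
  · subst hij
    exact h.indep i s t (fun e => hne (by rw [e])) hm
  · have h1 : z j t ∈ L i := (Submodule.span_singleton_le_iff_mem _ _).2 (h.mem i s) hm
    exact h.ne j t (Submodule.disjoint_def.1 (h.skew i j hij) _ h1 (h.mem j t))

theorem Wce_sub_eq {q : P3} {x : Fin 4 → ℂ} (hx : x ≠ 0) (h : q.submodule = Submodule.span ℂ {x}) :
    q = Projectivization.mk ℂ x hx :=
  Projectivization.submodule_injective (by rw [h, Projectivization.submodule_mk])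

theorem Wce_lspan (A B : P3) : lspan {A, B} = A.submodule ⊔ B.submodule := by
  unfold lspan
  rw [iSup_insert, iSup_singleton]

theorem exists_sameColl {k l : ℕ} {L : Fin k → Submodule ℂ (Fin 4 → ℂ)}
    {z : Fin k → Fin l → Fin 4 → ℂ} (h : SConf L z) {Z' : Set P3}
    (hw : WeaklyEquivalent (pts z) Z') :
    ∃ z' : Fin k → Fin l → Fin 4 → ℂ, SameColl z z' ∧ Z' = pts z' := by
  classical
  obtain ⟨f, hf, hS⟩ := hw
  let P : Fin k → Fin l → P3 := fun i s => Projectivization.mk ℂ (z i s) (h.ne i s)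
  have hP : ∀ i s, (P i s).submodule = Submodule.span ℂ {z i s} := fun i s => rfl
  have hPm : ∀ i s, P i s ∈ pts z := fun i s => ⟨i, s, rfl⟩
  have hPi : ∀ i s j t, P i s = P j t → (i, s) = (j, t) := by
    intro i s j t he
    by_contra hne
    refine Wce_indep h hne ?_
    rw [← hP, he, hP]
    exact Submodule.mem_span_singleton_self _
  let z' : Fin k → Fin l → Fin 4 → ℂ := fun i s => (f (P i s)).rep
  have hz' : ∀ i s, (f (P i s)).submodule = Submodule.span ℂ {z' i s} := fun i s =>
    Projectivization.submodule_eq _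
  refine ⟨z', ⟨fun i s => Projectivization.rep_nonzero _, ?_, ?_⟩, ?_⟩
  · intro i s j t hne hm
    refine hne (hPi i s j t ?_)
    refine hf.injOn (hPm i s) (hPm j t) ?_
    apply Projectivization.submodule_injective
    have h1 : (f (P j t)).submodule ≤ (f (P i s)).submodule := by
      rw [hz', hz']
      exact (Submodule.span_singleton_le_iff_mem _ _).2 hm
    exact (Submodule.eq_of_le_of_finrank_eq h1 (by
      rw [Projectivization.finrank_submodule, Projectivization.finrank_submodule])).symm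
  · intro i s j t m u hne
    have e1 : lspan {P i s, P j t} = Submodule.span ℂ {z i s, z j t} := by
      rw [Wce_lspan, hP, hP, ← Submodule.span_insert]
    have e2 : lspan (f '' {P i s, P j t}) = Submodule.span ℂ {z' i s, z' j t} := by
      rw [Set.image_pair, Wce_lspan, hz', hz', ← Submodule.span_insert]
    have hb := hS {P i s, P j t} (by
      rintro q (rfl | rfl)
      · exact hPm i s
      · exact hPm j t) (by
      rw [e1]
      exact Wce_finrank (h.ne i s) (Wce_indep h hne))
    rw [e1, e2] at hb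
    constructor
    · intro hm
      have h1 := hb.mapsTo (show P m u ∈ _ from ⟨hPm m u, by
        rw [hP]
        exact (Submodule.span_singleton_le_iff_mem _ _).2 hm⟩)
      refine h1.2 ?_
      rw [hz']
      exact Submodule.mem_span_singleton_self _
    · intro hm
      have h1 : f (P m u) ∈ {q | q ∈ Z' ∧ q.submodule ≤ Submodule.span ℂ {z' i s, z' j t}} :=
        ⟨hf.mapsTo (hPm m u), by
          rw [hz']
          exact (Submodule.span_singleton_le_iff_mem _ _).2 hm⟩
      obtain ⟨Q, hQ, hQ'⟩ := hb.surjOn h1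
      have h2 : Q = P m u := hf.injOn hQ.1 (hPm m u) hQ'
      rw [h2] at hQ
      refine hQ.2 ?_
      rw [hP]
      exact Submodule.mem_span_singleton_self _
  · ext q
    constructor
    · intro hq
      obtain ⟨Q, ⟨i, s, hQ⟩, rfl⟩ := hf.surjOn hq
      rw [Wce_sub_eq (h.ne i s) hQ]
      exact ⟨i, s, hz' i s⟩
    · rintro ⟨i, s, hq⟩
      rw [← hz'] at hq
      rw [Projectivization.submodule_injective hq]
      exact hf.mapsTo (hPm i s)

/-- The lines of the second configuration. -/
def lines {k l : ℕ} (z' : Fin k → Fin l → Fin 4 → ℂ) (i : Fin k) : Submodule ℂ (Fin 4 → ℂ) :=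
  Submodule.span ℂ (Set.range (z' i))

theorem lines_spec {k l : ℕ} (hl : 2 ≤ l) {L : Fin k → Submodule ℂ (Fin 4 → ℂ)}
    {z z' : Fin k → Fin l → Fin 4 → ℂ} (h : SConf L z) (hz : SameColl z z') :
    (∀ i, Module.finrank ℂ (lines z' i) = 2) ∧ (∀ i s, z' i s ∈ lines z' i) ∧
      ∀ i j s, i ≠ j → z' i s ∉ lines z' j := by
  have h01 : (⟨0, by omega⟩ : Fin l) ≠ ⟨1, by omega⟩ := by
    intro e
    exact absurd (congrArg Fin.val e) (by norm_num)
  set s0 : Fin l := ⟨0, by omega⟩ with hs0
  set s1 : Fin l := ⟨1, by omega⟩ with hs1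
  have hne : ∀ i : Fin k, (i, s0) ≠ (i, s1) := fun i e => h01 (congrArg Prod.snd e)
  have hL : ∀ i, Submodule.span ℂ {z i s0, z i s1} = L i := by
    intro i
    refine Submodule.eq_of_le_of_finrank_eq ?_ ?_
    · rw [Submodule.span_le]
      rintro x (rfl | rfl)
      · exact h.mem i s0
      · exact h.mem i s1
    · rw [Wce_finrank (h.ne i s0) (Wce_indep h (hne i)), h.rank]
  have hL' : ∀ i, lines z' i = Submodule.span ℂ {z' i s0, z' i s1} := by
    intro i
    apply le_antisymm
    · unfold lines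
      rw [Submodule.span_le]
      rintro x ⟨u, rfl⟩
      refine (hz.coll i s0 i s1 i u (hne i)).1 ?_
      rw [hL]
      exact h.mem i u
    · rw [Submodule.span_le]
      rintro x (rfl | rfl)
      · exact Submodule.subset_span ⟨s0, rfl⟩
      · exact Submodule.subset_span ⟨s1, rfl⟩
  refine ⟨fun i => ?_, fun i s => Submodule.subset_span ⟨s, rfl⟩, fun i j s hij hm => ?_⟩
  · rw [hL']
    exact Wce_finrank (hz.ne i s0) (hz.indep i s0 i s1 (hne i))
  · rw [hL' j, ← hz.coll j s0 j s1 i s (hne j), hL] at hm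
    exact h.ne i s (Submodule.disjoint_def.1 (h.skew i j hij) _ (h.mem i s) hm)

theorem trans_transfer {k l : ℕ} {L : Fin k → Submodule ℂ (Fin 4 → ℂ)}
    {z z' : Fin k → Fin l → Fin 4 → ℂ} (h : SConf L z) (hz : SameColl z z') (ht : Trans z) :
    Trans z' := by
  intro i j m hij hjm him
  obtain ⟨σ, τ, hs⟩ := ht i j m hij hjm him
  exact ⟨σ, τ, fun s => (hz.coll i s j (σ s) m (τ s) fun e => hij (congrArg Prod.fst e)).1 (hs s)⟩

theorem sdata_transfer {k l : ℕ} {L : Fin k → Submodule ℂ (Fin 4 → ℂ)}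
    {z z' : Fin k → Fin l → Fin 4 → ℂ} (h : SConf L z) (hz : SameColl z z')
    {ρ : Fin k → Equiv.Perm (Fin l)} {i₁ i₂ i₃ : Fin k} (h12 : i₁ ≠ i₂)
    {α : Fin k → Equiv.Perm (Fin l)} {δ : Fin k → Fin k → Equiv.Perm (Fin l)}
    (hd : SData (fun i s => z i (ρ i s)) i₁ i₂ i₃ α δ) :
    SData (fun i s => z' i (ρ i s)) i₁ i₂ i₃ α δ := by
  refine ⟨hd.one, hd.com, hd.com', fun j hj1 hj2 s => ?_, fun i j hij hi1 hi2 hj1 hj2 s => ?_,
    fun i j hij hi1 hi2 hj1 hj2 s => ?_⟩
  · exact (hz.coll i₁ _ j _ i₂ _ fun e => hj1 (congrArg Prod.fst e).symm).1 (hd.ha j hj1 hj2 s)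
  · exact (hz.coll i _ j _ i₂ _ fun e => hij (congrArg Prod.fst e)).1
      (hd.hb i j hij hi1 hi2 hj1 hj2 s)
  · exact (hz.coll i _ j _ i₁ _ fun e => hij (congrArg Prod.fst e)).1
      (hd.hc i j hij hi1 hi2 hj1 hj2 s)

/-- If two of the lines meet then all points are in one plane. -/
theorem planar_of_meet {k l : ℕ} (hk : 3 ≤ k) (hl : 2 ≤ l) {L : Fin k → Submodule ℂ (Fin 4 → ℂ)}
    {z z' : Fin k → Fin l → Fin 4 → ℂ} (h : SConf L z) (hz : SameColl z z') (ht : Trans z)
    {i j : Fin k} (hij : i ≠ j) (hm : ¬ Disjoint (lines z' i) (lines z' j)) :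
    ∃ U : Submodule ℂ (Fin 4 → ℂ), Module.finrank ℂ U = 3 ∧ ∀ i s, z' i s ∈ U := by
  obtain ⟨h1, h2, h3⟩ := lines_spec hl h hz
  have ht' := trans_transfer h hz ht
  refine ⟨lines z' i ⊔ lines z' j, ?_, fun m u => ?_⟩
  · have e1 := Submodule.finrank_sup_add_finrank_inf_eq (lines z' i) (lines z' j)
    rw [h1, h1] at e1
    have e2 : Module.finrank ℂ ↥(lines z' i ⊓ lines z' j) ≠ 0 := by
      intro e
      rw [Submodule.finrank_eq_zero] at e
      exact hm (disjoint_iff.2 e)
    have e3 : Module.finrank ℂ ↥(lines z' i ⊓ lines z' j) < 2 := by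
      rw [← h1 i]
      refine Submodule.finrank_lt_finrank_of_lt (lt_of_le_of_ne inf_le_left ?_)
      intro e
      rw [inf_eq_left] at e
      exact h3 i j ⟨0, by omega⟩ hij (e (h2 i _))
    omega
  · by_cases hmi : m = i
    · rw [hmi]
      exact Submodule.mem_sup_left (h2 i u)
    by_cases hmj : m = j
    · rw [hmj]
      exact Submodule.mem_sup_right (h2 j u)
    obtain ⟨σ, τ, hs⟩ := ht' i j m hij (Ne.symm hmj) (Ne.symm hmi)
    have e1 := hs (τ.symm u)
    rw [Equiv.apply_symm_apply] at e1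
    refine (Submodule.span_le.2 ?_) e1
    rintro x (rfl | rfl)
    · exact Submodule.mem_sup_left (h2 i _)
    · exact Submodule.mem_sup_right (h2 j _)

end Pool.Agent.Gep26
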